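import Pool.Agent.Lib.KT.Blue
import Pool.Agent.Lib.ZE.Blue
import Pool.Agent.Lib.KS.Blue

/-! Project kx: twisted tensors that alternate in blocks, classes of denominators, pairs. -/

open scoped Classical Topology ContDiff ComplexOrder Matrix ENNReal
open Set MeasureTheory Complex Metric Filter

set_option linter.unusedVariables false

noncomputable section

namespace Pool.Agent.Lib.KX

open Pool.Agent.Lib.SV (E nsq)
open Pool.Agent.Lib.HS32 Pool.Agent.Lib.HLK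
open Pool.Agent.Lib.RAA (kp)
open Pool.Agent.Lib.DM (uv)
open Pool.Agent.Lib.KH (HoK SmK OnK Jo Pol)
open Pool.Agent.Lib.SIE (Rk)
open Pool.Agent.Lib.KT (Bd Iv)

variable {n : ℕ} {M : Mf n}

/-! ### Classes of denominators -/

/-- The open set. -/
abbrev Op (p : M.X → ℝ) : Set M.X := {x | 0 < p x}

/-- The function `p` is locally comparable with the squared norm of the holomorphic family `q`. -/
structure Lq (p : M.X → ℝ) {σ : Type} [Fintype σ] (q : M.Fam (σ → ℂ)) : Prop where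
  hol : M.All fun e z => HolN (q e) z
  cmp : M.All fun e w₀ => ∃ C > (0 : ℝ), ∀ᶠ w in 𝓝 w₀,
    p (e.symm w) ≤ C * ‖q e w‖ ^ 2 ∧ ‖q e w‖ ^ 2 ≤ C * p (e.symm w)

/-- A denominator. -/
structure Lc (p : M.X → ℝ) : Prop where
  sm : M.Sm p
  nn : ∀ x, 0 ≤ p x
  ne : ∃ x, 0 < p x
  loc : ∃ (σ : Type) (_ : Fintype σ) (q : M.Fam (σ → ℂ)), Lq p q

/-- A quotient with a denominator in the class. -/
def Mer (K : Set (M.X → ℝ)) (f : M.X → ℂ) : Prop := ∃ p ∈ K, Bd (Op p) p f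

/-- A class of denominators. -/
structure Cl (H : M.Fam (Mat n)) (K : Set (M.X → ℝ)) : Prop where
  met : M.Met H
  one : (fun _ => 1) ∈ K
  mul : ∀ p ∈ K, ∀ p' ∈ K, (fun x => p x * p' x) ∈ K
  scl : ∀ p ∈ K, ∀ ε > (0 : ℝ), (fun x => ε * p x) ∈ K
  lc : ∀ p ∈ K, Lc p
  num : ∀ p ∈ K, ∀ f, Bd (Op p) p f → (∃ x ∈ Op p, f x ≠ 0) →
    ∃ p' ∈ K, ∀ x ∈ Op p, p' x = normSq (f x) * p x
  pol : ∀ p ∈ K, ∃ C : ℝ, ∀ (ι : Type) [Fintype ι] (f : ι → M.X → ℂ), (∀ i, Bd (Op p) p (f i)) →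
    ∃ u, M.Sm u ∧ (∀ x, 0 ≤ u x) ∧ (∀ x ∈ Op p, u x = p x * nsq (f · x)) ∧
      ∀ d > (0 : ℝ), M.Le 0 (C • H + M.hs fun x => Real.log (u x + d))
  wed : ∀ (k : ℕ) (z : Fin k → M.X → ℂ), (∀ i, Mer K (z i)) → (∃ x, Rk M z x) →
    ∃ ρ ∈ K, (∀ i, Bd (Op ρ) ρ (z i)) ∧ Iv (Op ρ) ρ z

/-- The field of quotients. -/
structure Fm (K : Set (M.X → ℝ)) (A : Subalgebra ℂ (M.X → ℂ)) {F : Type} [Field F] [Algebra ℂ F]
    (ev : A →ₐ[ℂ] F) : Prop where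
  mem : ∀ f, f ∈ A ↔ Mer K f
  ker : ∀ f : A, ev f = 0 ↔ ∃ p ∈ K, ∀ x ∈ Op p, f.1 x = 0
  sur : Function.Surjective ev

/-- A meromorphic section without zeros and poles on `O`. -/
structure Ms (O : Set M.X) (Λ : M.Co) (τ : M.Fam ℂ) : Prop where
  hol : OnK M O fun e z => HolN (τ e) z ∧ τ e z ≠ 0
  law : M.Ov fun e e' x => x ∈ O → τ e' (e' x) = τ e (e x) * Λ.c e e' x

/-- Linear independence on `O`. -/
def Io (O : Set M.X) {k : ℕ} (g : Fin k → M.X → ℂ) : Prop :=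
  ∀ c : Fin k → ℂ, (∀ x ∈ O, ∑ s, c s * g s x = 0) → c = 0

/-- Growth of order `d` at the cost `c`. -/
def Gro (p T : M.X → ℝ) (c d : ℕ) : Prop := ∃ C : ℕ, {j : ℕ | ∃ (k : ℕ) (g : Fin k → M.X → ℂ),
  (j + 1) ^ d ≤ C * k ∧ Io (Op p) g ∧
    ∀ s, Bd (Op p) (fun y => T y ^ j * p y ^ c) (g s)}.Infinite

/-- A base: the section `τ` of `Λ` has no zeros and poles off the zeros of `p`. -/
structure Bz (K : Set (M.X → ℝ)) (Λ : M.Co) (ψ : M.Fam ℝ) (τ : M.Fam ℂ) (p : M.X → ℝ) (c d : ℕ) :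
    Prop where
  wt : M.WtC Λ ψ
  mem : p ∈ K
  le1 : ∀ x, p x ≤ 1
  ms : Ms (Op p) Λ τ
  low : ∃ C, ∀ y ∈ Op p, p y ≤ C * M.nrC ψ τ y
  tb : ∃ C, ∀ y ∈ Op p, M.nrC ψ τ y * p y ≤ C
  gro : Gro p (M.nrC ψ τ) c d

/-! ### Twisted tensors -/

/-- The tensor `v` is alternating in each fibre of `β`. -/
def Ab {N r : ℕ} (β : Fin N → Fin r) (v : (Fin N → Fin n) → ℂ) : Prop :=
  ∀ I p p', p ≠ p' → β p = β p' → v (I ∘ Equiv.swap p p') = -v I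

/-- The curvature of the weight lies in the cone of two forms. -/
def Cn (Θ₁ Θ₂ : M.Fam (Mat n)) (ψ : M.Fam ℝ) : Prop := ∃ a b : ℝ, 0 ≤ a ∧ 0 ≤ b ∧
  M.All fun e z => M.hw ψ e z = a • Θ₁ e z + b • Θ₂ e z

/-- A holomorphic tensor over `O` with values in `B K + Λ`. -/
structure Lz (O : Set M.X) (N B : ℕ) (Λ : M.Co) (s : M.Fam ((Fin N → Fin n) → ℂ)) : Prop where
  hol : OnK M O fun e z => HolN (s e) z
  law : M.Ov fun e e' x => x ∈ O →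
    ((M.J e e' x).det ^ B * Λ.c e e' x) • s e (e x) = kp N (M.J e e' x) *ᵥ s e' (e' x)

/-- The squared norm of a family. -/
def nw (G : M.Fam (Mat n)) (B : ℕ) (ψ : M.Fam ℝ) {N : ℕ} (s : M.Fam ((Fin N → Fin n) → ℂ)) :
    M.X → ℝ := M.ev fun e z => uv N B (G e) (s e) z * Real.exp (-ψ e z)

/-- A twisted tensor that alternates in `B` blocks, not zero. -/
structure Tz (Θ₁ Θ₂ : M.Fam (Mat n)) where
  N : ℕ
  B : ℕ
  β : Fin N → Fin B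
  Λ : M.Co
  ψ : M.Fam ℝ
  s : M.Fam ((Fin N → Fin n) → ℂ)
  wt : M.WtC Λ ψ
  cn : Cn Θ₁ Θ₂ ψ
  lz : Lz univ N B Λ s
  alt : M.All fun e z => Ab β (s e z)
  nz : ∃ e ∈ M.C, ∃ z ∈ e.target, s e z ≠ 0

/-- The squared norm. -/
def Tz.pn {Θ₁ Θ₂ : M.Fam (Mat n)} (τ : Tz Θ₁ Θ₂) (G : M.Fam (Mat n)) : M.X → ℝ :=
  nw G τ.B τ.ψ τ.s

/-- The class of the twisted tensors. -/
def Kz (H Θ₁ Θ₂ : M.Fam (Mat n)) : Set (M.X → ℝ) := {p | ∃ τ : Tz Θ₁ Θ₂, p = τ.pn H}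

/-- Many holomorphic multivectors with values in `K + a L`. -/
def Mv3 (L : M.Co) (d : ℕ) : Prop :=
  ∃ C : ℕ, {a : ℕ | ∃ (k : ℕ) (V : Fin k → M.Fam (Fs n → ℂ)), (a + 1) ^ d ≤ C * k ∧ KS.Ind V ∧
    ∀ s, Hol (V s) ∧ M.Ov fun e e' x => ((M.J e e' x).det * L.c e e' x ^ a) • V s e (e x) =
      La (M.J e e' x) *ᵥ V s e' (e' x)}.Infinite

/-- Many proportional tensors with values in `B K + a L`. -/
def Pq (L : M.Co) (d : ℕ) : Prop := ∃ (N B C : ℕ) (β : Fin N → Fin B)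
  (S : ℕ → Set (M.Fam ((Fin N → Fin n) → ℂ))),
  (∀ a, ∀ s ∈ S a, Lz univ N B (L.pw a) s ∧ M.All fun e z => Ab β (s e z)) ∧
  (∀ a a', ∀ s ∈ S a, ∀ t ∈ S a', M.All fun e z => ∀ I I', s e z I * t e z I' = s e z I' * t e z I) ∧
  {a : ℕ | ∃ (k : ℕ) (V : Fin k → M.Fam ((Fin N → Fin n) → ℂ)), (a + 1) ^ d ≤ C * k ∧
    KS.Ind V ∧ ∀ s, V s ∈ S a}.Infinite

/-! ### Pairs -/

variable (M) in
/-- The data of a pair on a resolution: `L` has the class `c T`. -/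
structure Pp (ι : Type) [Fintype ι] extends ZE.Dt M ι where
  Lk : ι → M.Co
  f : ι → M.Fam ℂ
  φk : ι → M.Fam ℝ
  hol : ∀ i, M.HSecC (Lk i) (f i)
  wt : ∀ i, M.WtC (Lk i) (φk i)
  hσ : ∀ i, σ i = M.nrC (φk i) (f i)
  hΘ : ∀ i, Θ i = M.hw (φk i)
  c : ℕ
  c0 : 0 < c
  a : ι → ℤ
  hκ : ∀ i, κ i * c = a i
  L : M.Co
  φ : M.Fam ℝ
  wL : M.WtC L φ
  cur : M.All fun e z => M.hw φ e z = (c : ℝ) • T e z

namespace Pp

variable {ι : Type} [Fintype ι] (D : Pp M ι)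

/-- The form of the exceptional part. -/
def P : M.Fam (Mat n) := ∑ i, max (D.κ i) 0 • D.Θ i

/-- The class of denominators. -/
abbrev K : Set (M.X → ℝ) := Kz D.H D.T D.P

/-- The equation of the exceptional part. -/
def ex (x : M.X) : ℝ := ∏ i, D.σ i x ^ (D.a i).toNat

/-- The equation of the boundary. -/
def s (x : M.X) : ℝ := ∏ i, D.σ i x ^ (-D.a i).toNat

/-- The density. -/
def w (x : M.X) : ℝ := ∏ i, D.σ i x ^ D.κ i

end Pp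

end Pool.Agent.Lib.KX
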