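import Pool.Agent.Lib.KX.B_CRQ

/-! Project kx, row CR4: the rule of Cramer for tensors that alternate in blocks. -/

open scoped Classical Topology Matrix
open Set Filter

noncomputable section

namespace Pool.Agent.Lib.KX

open Pool.Agent.Lib.SV (E)
open Pool.Agent.Lib.HS32 Pool.Agent.Lib.HLK
open Pool.Agent.Lib.RAA (kp kq)
open Pool.Agent.Lib.NV5.CRMb (mn comb big)

/-- Many holomorphic tensors with values in `B K + a L`. -/
def Mv4 {n : ℕ} {M : Mf n} (L : M.Co) (d : ℕ) : Prop := ∃ (N B C : ℕ) (β : Fin N → Fin B),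
  {a : ℕ | ∃ (k : ℕ) (V : Fin k → M.Fam ((Fin N → Fin n) → ℂ)), (a + 1) ^ d ≤ C * k ∧ KS.Ind V ∧
    ∀ s, Lz univ N B (L.pw a) (V s) ∧ M.All fun e z => Ab β (V s e z)}.Infinite

namespace CR4

variable {n r N B : ℕ}

/-- The blocks. -/
def bl (n r N : ℕ) : (Fin (r * N) → Fin n) ≃ (Fin r → Fin N → Fin n) :=
  (Equiv.arrowCongr finProdFinEquiv.symm (Equiv.refl _)).trans (Equiv.curry _ _ _)

/-- The tensor of minors. -/
def tn (γ : Fin r → (Fin N → Fin n) → ℂ) (K : Fin (r * N) → Fin n) : ℂ :=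
  (Matrix.of fun i j => γ i (bl n r N K j)).det

theorem law (J : Mat n) (c : Fin r → ℂ) (γ γ' : Fin r → (Fin N → Fin n) → ℂ)
    (h : ∀ i, c i • γ i = kp N J *ᵥ γ' i) : (∏ i, c i) • tn γ = kp _ J *ᵥ tn γ' := by
  funext K
  have e2 := (Matrix.detRowAlternating (n := Fin r) (R := ℂ)).toMultilinearMap.map_sum
    fun j (K' : Fin N → Fin n) => kp _ J (bl n r N K j) K' • fun i => γ' i K'
  simp only [MultilinearMap.map_smul_univ, smul_eq_mul] at e2
  rw [Pi.smul_apply, smul_eq_mul, tn, ← Matrix.det_mul_column, ← Matrix.det_transpose]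
  refine (congrArg Matrix.det (Matrix.ext fun j i => ?_)).trans
    (e2.trans ((bl n r N).sum_comp _).symm |>.trans (Finset.sum_congr rfl fun K' _ => ?_))
  · simpa [Matrix.mulVec, dotProduct] using congrFun (h i) (bl n r N K j)
  · refine congrArg₂ _ ?_ (Matrix.det_transpose (Matrix.of fun i j => γ' i (bl n r N K' j)))
    simp only [kp, kq, Matrix.of_apply]
    rw [← finProdFinEquiv.prod_comp, Fintype.prod_prod_type]
    rfl

theorem alt {β : Fin N → Fin B} {γ : Fin r → (Fin N → Fin n) → ℂ} (h : ∀ i, Ab β (γ i)) :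
    Ab (fun p => finProdFinEquiv (Prod.map id β (finProdFinEquiv.symm p))) (tn γ) := by
  intro K p p' hp hb
  obtain ⟨⟨j, s⟩, rfl⟩ := finProdFinEquiv.surjective p
  obtain ⟨⟨j', s'⟩, rfl⟩ := finProdFinEquiv.surjective p'
  simp only [Equiv.symm_apply_apply, Prod.map, id, EmbeddingLike.apply_eq_iff_eq,
    Prod.mk.injEq] at hb
  obtain ⟨rfl, hb⟩ := hb
  have e : ∀ l i, γ i (bl n r N (K ∘ Equiv.swap (finProdFinEquiv (j, s))
      (finProdFinEquiv (j, s'))) l) = (if l = j then -1 else 1) * γ i (bl n r N K l) := by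
    intro l i
    split_ifs with hl
    · subst hl
      rw [neg_one_mul, ← h i _ s s' (fun c => hp (by rw [c])) hb]
      exact congrArg (γ i) (funext fun t => congrArg K
        (Function.Injective.map_swap (f := fun t => finProdFinEquiv (l, t))
          (finProdFinEquiv.injective.comp (Prod.mk_right_injective l)) s s' t).symm)
    · rw [one_mul]
      exact congrArg (γ i) (funext fun t => congrArg K (Equiv.swap_apply_of_ne_of_ne
        (fun c => hl (congrArg Prod.fst (finProdFinEquiv.injective c)))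
        fun c => hl (congrArg Prod.fst (finProdFinEquiv.injective c))))
  simp only [tn, e]
  rw [Matrix.det_mul_row fun l => if l = j then (-1 : ℂ) else 1]
  simp
  rfl

theorem hol {γ : Fin r → E n → (Fin N → Fin n) → ℂ} {z : E n} (h : ∀ i, HolN (γ i) z) :
    HolN (fun w => tn fun i => γ i w) z := by
  filter_upwards [eventually_all.2 h] with w hw
  refine differentiableAt_pi.2 fun K => ?_
  simp only [tn, Matrix.det_apply', Matrix.of_apply]
  exact DifferentiableAt.fun_sum fun q _ => (differentiableAt_const _).mul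
    (HasFDerivAt.finsetProd fun l _ =>
      (differentiableAt_pi.1 (hw (q l)) _).hasFDerivAt).differentiableAt

end CR4

open CR4 in
theorem xCR4 (n : ℕ) (M : Mf n) [M.Cpt] (L : M.Co) (d : ℕ) (h : Mv4 L d) : Pq L d := by
  obtain ⟨N, B, C, β, h⟩ := h
  let T := {p : ℕ × M.Fam ((Fin N → Fin n) → ℂ) //
    Lz univ N B (L.pw p.1) p.2 ∧ M.All fun e z => Ab β (p.2 e z)}
  let Q : ℕ → Prop := fun r => ∃ (α : Fin r → T), ∃ e ∈ M.C, ∃ z ∈ e.target, ∃ I,
    mn (fun b : T => b.1.2 e z) α I ≠ 0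
  obtain ⟨r, ⟨α, e₀, he₀, z₀, hz₀, I₀, h₀⟩, hr⟩ : ∃ r, Q r ∧ ¬ Q (r + 1) := by
    by_contra c
    obtain ⟨x⟩ : Nonempty M.X := inferInstance
    have : ∀ r, Q r := Nat.rec ⟨Fin.elim0, _, ((mTR n M).1 x).1, _,
      (M.ch x).map_source ((mTR n M).1 x).2, Fin.elim0, by simp [mn]⟩
      fun r hr => by_contra fun h' => c ⟨r, hr, h'⟩
    obtain ⟨α, e, -, z, -, I, k⟩ := this _
    exact k (big _ (Nat.lt_succ_self _) α I)
  have hz : ∀ e ∈ M.C, ∀ z ∈ e.target, ∀ α : Fin (r + 1) → T, ∀ I,
    mn (fun b : T => b.1.2 e z) α I = 0 := fun e he z hz α I =>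
      by_contra fun c => hr ⟨α, e, he, z, hz, I, c⟩
  let t : (Fin r → T) → M.Fam (_ → ℂ) := fun γ e z => tn fun i => (γ i).1.2 e z
  have ht : ∀ γ, M.All fun e z => HolN (t γ e) z := fun γ e he z hz =>
    hol fun i => (γ i).2.1.hol e he z hz trivial
  have t₀ : ∀ γ z, t γ e₀ z ((bl n r N).symm I₀) = mn (fun b : T => b.1.2 e₀ z) γ I₀ :=
    fun γ z => by
      simp only [t, tn, Equiv.apply_symm_apply]
      rfl
  refine ⟨_, r * B, (∑ i, (α i).1.1 + 1) ^ d * (C * r),
    fun p => finProdFinEquiv (Prod.map id β (finProdFinEquiv.symm p)),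
    fun a => {s | ∃ γ, ∑ i, (γ i).1.1 = a ∧ s = t γ}, ?_, ?_,
    infinite_of_forall_exists_gt fun b => ?_⟩
  · rintro _ _ ⟨γ, rfl, rfl⟩
    refine ⟨⟨fun e he z hz _ => ht γ e he z hz, fun e he e' he' x hx hx' _ => Eq.trans ?_
      (law _ _ _ _ fun i => (γ i).2.1.law e he e' he' x hx hx' trivial)⟩,
      fun e he z hz => alt fun i => (γ i).2.2 e he z hz⟩
    simp only [Finset.prod_mul_distrib, Finset.prod_pow_eq_pow_sum, Finset.sum_const,
      Finset.card_univ, Fintype.card_fin, Mf.Co.pw, smul_eq_mul]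
    rfl
  · rintro _ _ _ ⟨γ, -, rfl⟩ _ ⟨γ', -, rfl⟩ e he z hz' K K'
    exact NV5.CRMb.prop _ (fun _ => True) (fun a _ => hz e he z hz' a) γ γ' (fun _ => trivial)
      (fun _ => trivial) (bl n r N K) (bl n r N K')
  obtain ⟨a, ⟨k, V, v1, v2, v3⟩, hb⟩ := h.exists_gt b
  let u : Fin r → Fin k → Fin r → T := fun i s => Function.update α i ⟨(a, V s), v3 s⟩
  obtain ⟨i, k', g, g1, g2⟩ := CRQ.pig
    (W := {p : M.Ch × E n // p.1 ∈ M.C ∧ p.2 ∈ p.1.target} → _ → ℂ)
    (fun i s p => t (u i s) p.1.1 p.1.2) (fun c hc => v2 c fun e he z hz' => by_contra fun k => by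
      refine (K3E.bID n M _ (fun e e' x => ((M.J e e' x).det ^ B * (L.pw a).c e e' x)⁻¹ •
        kp N (M.J e e' x)) 0 (fun e z => ∑ s, c s • V s e z) ⟨fun e he z hz B => ?_,
          ⟨e, he, z, hz', k⟩, fun e he e' he' x hx hx' => ?_⟩ e₀ he₀ z₀ hz₀).elim fun B hB => hB ?_
      rotate_right
      · filter_upwards [e₀.open_target.mem_nhds hz₀, ((continuous_apply _).continuousAt.comp
          (ht α e₀ he₀ z₀ hz₀).self_of_nhds.continuousAt).eventually_ne ((t₀ α z₀).trans_ne h₀)]
          with w h1 h2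
        replace h2 := (t₀ α w).symm.trans_ne h2
        choose y hy using fun s => comb _ α I₀ h2 ⟨(a, V s), v3 s⟩ (hz e₀ he₀ w h1 _)
        have h3 : ∀ i, ∑ s, c s * y s i = 0 := fun i => by
          have := congrFun (congrFun (hc i) ⟨(e₀, w), he₀, h1⟩) ((bl n r N).symm I₀)
          simp only [Finset.sum_apply, Pi.smul_apply, t₀, smul_eq_mul, Pi.zero_apply] at this
          refine (mul_eq_zero_iff_right h2).1 (Eq.trans ?_ this)
          rw [Finset.sum_mul]
          refine Finset.sum_congr rfl fun s _ => ?_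
          rw [mul_assoc, mn, ← smul_eq_mul (y s i), ← Matrix.det_updateRow_sum]
          refine congrArg (_ * Matrix.det ·) (Matrix.ext fun l j => ?_)
          by_cases hl : l = i
          · simpa [u, hl, Finset.sum_apply] using (hy s _).symm
          · simp [u, hl]
        have h4 : ∀ s, V s e₀ w B = _ := fun s => hy s B
        simp only [not_not, Finset.sum_apply, Pi.smul_apply, smul_eq_mul, h4, Finset.mul_sum,
          ← mul_assoc]
        rw [Finset.sum_comm]
        simp only [← Finset.sum_mul, h3, zero_mul, Finset.sum_const_zero]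
      · filter_upwards [eventually_all.2 fun s => (v3 s).1.hol e he z hz trivial] with w hw
        simp only [Finset.sum_apply, Pi.smul_apply, smul_eq_mul]
        exact DifferentiableAt.fun_sum fun s _ => (differentiableAt_pi.1 (hw s) B).const_mul _
      · have h1 := mul_ne_zero (pow_ne_zero B ((mTR n M).2.1 e he e' he' x hx hx').2.1)
          ((L.pw a).ne e he e' he' x hx hx')
        have h2 := fun s => (v3 s).1.law e he e' he' x hx hx' trivial
        beta_reduce at h2 ⊢
        simp only [Matrix.smul_mulVec, Matrix.mulVec_sum, Matrix.mulVec_smul, ← h2, pow_zero,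
          inv_one, one_smul, Finset.smul_sum, inv_smul_smul₀ h1])
    (Nat.pos_of_ne_zero fun c => by simp [c] at v1)
  have e : ∀ s, ∑ l, (u i s l).1.1 = a + ∑ l ∈ Finset.univ \ {i}, (α l).1.1 := fun s => by
    simp only [u, Function.apply_update fun _ (b : T) => b.1.1]
    exact Finset.sum_update_of_mem (Finset.mem_univ i) _ _
  have e' := Finset.sum_le_sum_of_subset (f := fun l => (α l).1.1)
    (Finset.subset_univ (Finset.univ \ {i}))
  refine ⟨_, ⟨k', fun s => t (u i (g s)), ?_, fun c hc => funext (Fintype.linearIndependent_iff.1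
    g2 c (funext fun p => ?_)), fun s => ⟨_, e _, rfl⟩⟩, hb.trans_le (Nat.le_add_right _ _)⟩
  · rw [mul_assoc, mul_assoc C]
    refine le_trans ?_ (Nat.mul_le_mul_left _ (v1.trans (Nat.mul_le_mul_left _ g1)))
    rw [← mul_pow]
    exact Nat.pow_le_pow_left (by nlinarith [Nat.zero_le ((∑ i, (α i).1.1) * a)]) d
  · rw [Finset.sum_apply]
    exact hc _ p.2.1 _ p.2.2

end Pool.Agent.Lib.KX
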