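import Pool.Agent.Lib.KX.Blue

/-! Row AL of project kx: the algebraic data. -/

open scoped Classical Topology ContDiff ComplexOrder Matrix ENNReal
open Set MeasureTheory Complex Metric Filter

noncomputable section

namespace Pool.Agent.Lib.KX

open Pool.Agent.Lib.SV (E nsq)
open Pool.Agent.Lib.HS32
open Pool.Agent.Lib.KT (Bd)
open Pool.Agent.Lib.RB9 (Pz ev Al)
open Pool.Agent.Lib.RBR (Tm)

theorem xAL (hKIT : St_KIT) (hFN : St_FN) (hPG : St_PG) (hLGT : St_LGT) : St_AL := by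
  intro n k M _ H K Λ ψ τ c d p p₀ z θ m D hK hB hF
  obtain ⟨hO, -, hθ, hrt, -, -, hq⟩ := hFN n k M H K p p₀ z θ m D hK hF hB.mem
  have oO := (hKIT n M H p hK.met (hK.lc p hB.mem)).1
  have t0 : ∀ x, 0 ≤ M.nrC ψ τ x := fun x => mul_nonneg (normSq_nonneg _) (Real.exp_pos _).le
  obtain ⟨C₀, h₀⟩ := hB.tb
  obtain ⟨C₁, h₁⟩ := hB.low
  obtain ⟨C, hC⟩ := hB.gro
  refine ⟨hθ.1, hF.mon, hrt, hF.bez, fun x hx => hF.dz x (hO ▸ hx), t0,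
    (hLGT n M _ Λ ψ τ oO hB.wt hB.ms).2.1, ⟨1, C₀, fun x hx => by rw [pow_one]; exact h₀ x hx⟩,
    c, fun j0 => ?_⟩
  obtain ⟨j, ⟨r, g, hr, hi, hg⟩, hj⟩ := hC.exists_gt j0
  have r0 : 0 < r := Nat.pos_of_ne_zero fun h => by
    rw [h, mul_zero] at hr
    exact absurd hr (not_le.2 (pow_pos j.succ_pos d))
  obtain ⟨hh, C₂, h₂⟩ := hg ⟨0, r0⟩
  have w0 : ∀ x, 0 < p x → 0 ≤ normSq (g ⟨0, r0⟩ x) * (M.nrC ψ τ x ^ j * p x ^ c) := fun x hx =>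
    mul_nonneg (normSq_nonneg _) (mul_nonneg (pow_nonneg (t0 x) j) (pow_nonneg hx.le c))
  have tm : Tm p (g ⟨0, r0⟩) := by
    refine ⟨hh, j + c, |C₁| ^ j * C₂, fun x hx => ?_⟩
    have a1 : p x ^ j ≤ (|C₁| * M.nrC ψ τ x) ^ j := pow_le_pow_left₀ hx.le
      ((h₁ x hx).trans (mul_le_mul_of_nonneg_right (le_abs_self _) (t0 x))) j
    calc normSq (g ⟨0, r0⟩ x) * p x ^ (j + c) = normSq (g ⟨0, r0⟩ x) * p x ^ c * p x ^ j := by ring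
      _ ≤ normSq (g ⟨0, r0⟩ x) * p x ^ c * (|C₁| * M.nrC ψ τ x) ^ j :=
        mul_le_mul_of_nonneg_left a1 (mul_nonneg (normSq_nonneg _) (pow_nonneg hx.le c))
      _ = |C₁| ^ j * (normSq (g ⟨0, r0⟩ x) * (M.nrC ψ τ x ^ j * p x ^ c)) := by ring
      _ ≤ _ := mul_le_mul_of_nonneg_left (h₂ x hx) (pow_nonneg (abs_nonneg _) j)
  have nz : RBR.Nz p (g ⟨0, r0⟩) := by
    by_contra hn
    have h0 : ∀ x, 0 < p x → g ⟨0, r0⟩ x = 0 := fun x hx => by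
      by_contra h
      exact hn ⟨x, hx, h⟩
    have h1 := hi (Pi.single ⟨0, r0⟩ 1) fun x hx => by
      rw [Finset.sum_eq_single ⟨0, r0⟩ (fun b _ hb => by rw [Pi.single_eq_of_ne hb, zero_mul])
        (fun h => absurd (Finset.mem_univ _) h), h0 x hx, mul_zero]
    have h2 := congrFun h1 ⟨0, r0⟩
    rw [Pi.single_eq_same] at h2
    exact one_ne_zero h2
  obtain ⟨Q, R, Q0, hQ⟩ := hq _ tm nz
  obtain ⟨b, c', hb⟩ := hPG k m R hF.mon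
  refine ⟨j, hj.le, Q, b, C₂ * c', Q0, fun x hx => ?_⟩
  rw [hQ x hx, map_mul]
  calc M.nrC ψ τ x ^ j * (normSq (g ⟨0, r0⟩ x) * normSq (ev R (z x) (θ x))) * p x ^ c
      = normSq (g ⟨0, r0⟩ x) * (M.nrC ψ τ x ^ j * p x ^ c) * normSq (ev R (z x) (θ x)) := by ring
    _ ≤ C₂ * (c' * (1 + nsq (z x)) ^ b) :=
      mul_le_mul (h₂ x hx) (hb _ _ (hrt x hx)) (normSq_nonneg _) ((w0 x hx).trans (h₂ x hx))
    _ = _ := by ring

end Pool.Agent.Lib.KX
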