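import Pool.Agent.Lib.KX.Blue
import Pool.Agent.Lib.KT.B_RK
import Pool.Agent.Lib.SG45.Alg

/-! Project kx, row ALG: the field of quotients has generators. -/

open scoped Classical Topology
open Set Filter

noncomputable section

namespace Pool.Agent.Lib.KX

open Pool.Agent.Lib.HS32
open Pool.Agent.Lib.RB9 (Pz)
open Pool.Agent.Lib.KT.RK (pt pt_aeval cont)

namespace ALG

variable {k : ℕ} {F : Type} [Field F] [Algebra ℂ F]

theorem up {n : ℕ} {M : Mf n} {A : Subalgebra ℂ (M.X → ℂ)} (φ : A →ₐ[ℂ] F) (z : Fin k → A) (f : A)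
    (P : Pz k) : φ (P.eval₂ (MvPolynomial.aeval z : _ →ₐ[ℂ] A).toRingHom f) =
      P.eval₂ (MvPolynomial.aeval fun i => φ (z i) : _ →ₐ[ℂ] F).toRingHom (φ f) :=
  (P.hom_eval₂ _ φ.toRingHom f).trans
    (congrArg (P.eval₂ · _) (RingHom.ext fun Q => MvPolynomial.comp_aeval_apply z φ Q))

theorem dn {n : ℕ} {M : Mf n} {A : Subalgebra ℂ (M.X → ℂ)} (z : Fin k → A) (f : A) (P : Pz k)
    (x : M.X) : (P.eval₂ (MvPolynomial.aeval z : _ →ₐ[ℂ] A).toRingHom f).1 x =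
      RB9.ev P (fun i => (z i).1 x) (f.1 x) :=
  (P.hom_eval₂ _ (pt A x).toRingHom f).trans
    (congrArg (P.eval₂ · _) (RingHom.ext fun Q => pt_aeval z x Q))

end ALG

open ALG in
theorem xALG (hKIT : St_KIT) (hCK : St_CK) (hFLD : St_FLD) (hMR : St_MR) : St_ALG := by
  intro n M _ H K cl
  obtain ⟨A, F, _, _, φ, hF⟩ := hFLD n M H K cl
  obtain ⟨k, N, z, -, z1, z2, z3⟩ := SIE.fam (M := M) (S := A) fun f hf => by
    obtain ⟨p, hp, hb⟩ := (hF.mem f).1 hf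
    exact (hMR n M p f (cl.lc p hp) hb).1
  lift z to Fin k → A using z1
  obtain ⟨x, hx⟩ := z2.nonempty
  have hi : AlgebraicIndependent ℂ fun i => φ (z i) := algebraicIndependent_iff.2 fun Q hQ => by
    obtain ⟨p, hp, h⟩ := (hF.ker _).1 ((MvPolynomial.comp_aeval_apply z φ Q).trans hQ)
    obtain ⟨o, d, -⟩ := hKIT n M H p cl.met (cl.lc p hp)
    exact SIE.ind hx ((mem_closure_iff_frequently.1 (d x)).mono fun y hy =>
      (o.eventually_mem hy).mono fun u hu => (pt_aeval z u Q).symm.trans (h u hu))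
  have al : ∀ u : F, ∃ P : Pz k, P ≠ 0 ∧ P.natDegree ≤ N ∧
      P.eval₂ (MvPolynomial.aeval fun i => φ (z i) : _ →ₐ[ℂ] F).toRingHom u = 0 := fun u => by
    obtain ⟨f, rfl⟩ := hF.sur u
    obtain ⟨P, P0, P1, P2⟩ := (z3 f f.2).2
    obtain ⟨p, hp, hb⟩ := (hCK n M H K cl).2.2.2.1 (Option (Fin k))
      (fun o => (o.elim f z : A).1) fun o => (hF.mem _).1 (o.elim f z : A).2
    exact ⟨P, P0, P1, (up φ z f P).symm.trans ((hF.ker _).2 ⟨p, hp, fun y hy => (dn z f P y).trans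
      (P2 y (fun j => cont (hb (some j)).1 hy) (cont (hb none).1 hy))⟩)⟩
  obtain ⟨th, m, a, b, D, m1, -, -, m2, D0, bz, h⟩ := SG45.alg hi al
  obtain ⟨θ, rfl⟩ := hF.sur th
  refine ⟨k, fun y i => (z i).1 y, θ.1, m, D, fun i => (hF.mem _).1 (z i).2, (hF.mem _).1 θ.2,
    ⟨x, hx⟩, m1, D0, ⟨a, b, bz.symm⟩, ?_, fun f hf => ?_⟩
  · obtain ⟨p, hp, e⟩ := (hF.ker _).1 ((up φ z θ m).trans ((m2 m).2 dvd_rfl))
    exact ⟨p, hp, fun y hy => (dn z θ m y).symm.trans (e y hy)⟩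
  · lift f to A using (hF.mem f).2 hf
    obtain ⟨q, r, q0, -, e⟩ := h (φ f)
    obtain ⟨p, hp, e'⟩ := (hF.ker (MvPolynomial.aeval z q * f -
        r.eval₂ (MvPolynomial.aeval z : _ →ₐ[ℂ] A).toRingHom θ)).1 (by
      rw [map_sub, map_mul, up, MvPolynomial.comp_aeval_apply z φ q, e, sub_self])
    refine ⟨q, r, q0, p, hp, fun y hy => ?_⟩
    rw [← dn z θ r y, ← pt_aeval z y q]
    exact sub_eq_zero.1 (e' y hy)

end Pool.Agent.Lib.KX
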