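import Pool.Agent.Lib.KX.Blue
import Pool.Agent.Lib.KT.B_KIT

/-! Project kx, row BDL: square integrable functions are bounded. -/

open scoped Classical Topology ContDiff ComplexOrder Matrix ENNReal
open Set MeasureTheory Complex Metric Filter

noncomputable section

namespace Pool.Agent.Lib.KX

open Pool.Agent.Lib.SV (E nsq)
open Pool.Agent.Lib.HS32
open Pool.Agent.Lib.KH (HoK SmK OnK Jo)
open Pool.Agent.Lib.KT (Bd LB)

namespace BDL

theorem nr (F t q : ℂ) (j s : ℕ) :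
    ‖F * t ^ j * q ^ s‖ ^ 2 = normSq F * (normSq t ^ j * (‖q‖ ^ 2) ^ s) := by
  simp only [norm_mul, norm_pow, normSq_eq_norm_sq]
  ring

theorem bd {f a b a' b' A B : ℝ} (j s : ℕ) (hf : 0 ≤ f) (ha : 0 ≤ a) (hb : 0 ≤ b) (h : a ≤ A * a')
    (h' : b ≤ B * b') : f * (a ^ j * b ^ s) ≤ A ^ j * B ^ s * (f * (a' ^ j * b' ^ s)) :=
  calc f * (a ^ j * b ^ s) ≤ f * ((A * a') ^ j * (B * b') ^ s) :=
        mul_le_mul_of_nonneg_left (mul_le_mul (pow_le_pow_left₀ ha h j) (pow_le_pow_left₀ hb h' s)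
          (pow_nonneg hb s) (pow_nonneg (ha.trans h) j)) hf
    _ = _ := by ring

end BDL

open BDL in
theorem xBDL (hKIT : St_KIT) (hEXC : St_EXC) (hCHL : St_CHL) (hLGT : St_LGT) : St_BDL := by
  intro n M _ H Λ ψ τ p ρ j s F hH hp hρ sub hψ hτ hF hJ
  obtain ⟨σ, _, q, hq⟩ := hp.loc
  obtain ⟨T0, Tc, -, -, hT⟩ := hLGT n M _ Λ ψ τ (hKIT n M H p hH hp).1 hψ hτ
  have pc : Continuous p := continuous_iff_continuousAt.2 fun x =>
    KT.KIT.cont (Mf.AllOn.ch hp.sm x).continuousAt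
  have uc : ContinuousOn (fun x => normSq (F x) * (M.nrC ψ τ x ^ j * p x ^ s)) (Op ρ) :=
    (continuous_normSq.comp_continuousOn (KT.KIT.con hF)).mul
      (((Tc.mono sub).pow j).mul (pc.continuousOn.pow s))
  refine ⟨hF, (KT.tKIT n M H hH).2.2.1 _ _ fun e he w₀ hw₀ => ?_⟩
  have ex : ∀ I : σ, ∃ g, (∀ w ∈ e.target, HolN g w) ∧ ∀ w ∈ e.target, 0 < ρ (e.symm w) →
      g w = F (e.symm w) * τ e w ^ j * q e w I ^ s := fun I => by
    refine hEXC n M ρ e _ hρ he (fun w hw ho => ?_) (Or.inl fun w hw =>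
      hCHL n M H _ _ e _ hH (hKIT n M H ρ hH hρ).1 he hJ w hw ?_ uc)
    · filter_upwards [hF e he w hw ho, (hτ.hol e he w hw (sub ho)).1, hq.hol e he w hw]
        with y h1 h2 h3
      exact (h1.mul (h2.pow j)).mul ((differentiableAt_pi.1 h3 I).pow s)
    · obtain ⟨A, A0, hA⟩ := hT e he w hw
      obtain ⟨B, B0, hB⟩ := hq.cmp e he w hw
      refine ⟨A ^ j * B ^ s, by positivity, ?_⟩
      filter_upwards [hA, hB] with y h1 h2 ho
      rw [nr]
      exact bd j s (normSq_nonneg _) (normSq_nonneg _) (sq_nonneg _) (h1 (sub ho)).2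
        ((pow_le_pow_left₀ (norm_nonneg _) (norm_le_pi_norm (q e y) I) 2).trans h2.2)
  choose g hg eg using ex
  obtain ⟨A, A0, hA⟩ := hT e he w₀ hw₀
  obtain ⟨B, B0, hB⟩ := hq.cmp e he w₀ hw₀
  have gc : ContinuousAt (fun w => ‖fun I => g I w‖ ^ 2) w₀ :=
    (continuousAt_pi.2 fun I => (hg I w₀ hw₀).self_of_nhds.continuousAt).norm.pow 2
  refine ⟨A ^ j * B ^ s * (‖fun I => g I w₀‖ ^ 2 + 1), ?_⟩
  filter_upwards [hA, hB, e.open_target.mem_nhds hw₀, gc.eventually (Iio_mem_nhds (lt_add_one _))]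
    with w h1 h2 hw h3 ho
  have p0 : 0 < p (e.symm w) := sub ho
  obtain ⟨I, hI⟩ : ∃ I, ‖q e w I‖ = ‖q e w‖ := by_contra fun c => by
    refine ((pi_norm_lt_iff (norm_pos_iff.2 fun c' => ?_)).2 fun I =>
      (norm_le_pi_norm (q e w) I).lt_of_ne fun h => c ⟨I, h⟩).false
    have := h2.1
    rw [c', norm_zero] at this
    linarith
  refine (bd j s (normSq_nonneg _) (T0 _ p0).le p0.le (h1 p0).1 h2.1).trans
    (mul_le_mul_of_nonneg_left ?_ (by positivity))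
  rw [← hI, ← nr, ← eg I w hw ho]
  exact (pow_le_pow_left₀ (norm_nonneg _) (norm_le_pi_norm (fun I => g I w) I) 2).trans
    (le_of_lt h3)

end Pool.Agent.Lib.KX
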