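import Pool.Agent.Lib.KX.Blue
import Pool.Agent.Lib.KT.B_EXT

/-! Project kx, row CHL: a finite integral on the manifold is finite in a chart. -/

open scoped Classical Topology ENNReal
open Set MeasureTheory Filter

noncomputable section

namespace Pool.Agent.Lib.KX

open Pool.Agent.Lib.HS32

theorem xCHL : St_CHL := by
  intro n M _ H O u e h hH hO he hJ w₀ hw₀ ⟨C, C0, hC⟩ _
  obtain ⟨c, c0, hc⟩ := KT.EXT.low hH e he w₀ hw₀
  obtain ⟨V, hV, Vo, Vm⟩ := _root_.eventually_nhds_iff.1 (hC.and hc)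
  have hS : IsOpen (e.target ∩ e.symm ⁻¹' O) := e.isOpen_inter_preimage_symm hO
  refine ⟨V, Vo.mem_nhds Vm, ne_top_of_le_ne_top
    (ENNReal.mul_ne_top (ENNReal.ofReal_ne_top (r := C / c)) hJ) ?_⟩
  have hm := (Vo.inter hS).measurableSet
  have h1 := ((mMU n M H hH).2.2.2.2.2.1 e he _ hm fun w hw => hw.2.1).2.1
    fun x => ENNReal.ofReal (u x)
  refine le_trans ?_ (mul_le_mul_right (h1.ge.trans (lintegral_mono_set
    (image_subset_iff.2 fun w hw => hw.2.2))) _)
  rw [← lintegral_const_mul' _ _ ENNReal.ofReal_ne_top]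
  refine setLIntegral_mono' hm fun w hw => ?_
  obtain ⟨h2, h3⟩ := hV w hw.1
  refine (ENNReal.ofReal_le_ofReal (h2 hw.2.2)).trans ?_
  rw [ENNReal.ofReal_mul C0.le, ← mul_assoc, ← ENNReal.ofReal_mul (div_pos C0 c0).le]
  refine mul_le_mul_left (ENNReal.ofReal_le_ofReal ?_) _
  rw [div_mul_eq_mul_div, le_div_iff₀ c0]
  exact mul_le_mul_of_nonneg_left h3 C0.le

end Pool.Agent.Lib.KX
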