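import Pool.Agent.Lib.KX.Blue

/-! Project kx, row CK: the kit for classes of denominators. -/

open scoped Classical Topology ContDiff ENNReal
open Set MeasureTheory Complex Metric Filter

noncomputable section

namespace Pool.Agent.Lib.KX

open Pool.Agent.Lib.SV (E nsq)
open Pool.Agent.Lib.HS32
open Pool.Agent.Lib.KH (HoK Pol)
open Pool.Agent.Lib.KT (Bd)
open Pool.Agent.Lib.RBR (Tm gp)

namespace CK

variable {n : ℕ} {M : Mf n} {H : M.Fam (Mat n)} {K : Set (M.X → ℝ)} {p q : M.X → ℝ}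
  {f g : M.X → ℂ}

theorem op_mul (hp : ∀ x, 0 ≤ p x) (hq : ∀ x, 0 ≤ q x) {x : M.X} :
    x ∈ Op (fun x => p x * q x) ↔ x ∈ Op p ∧ x ∈ Op q :=
  ⟨fun h => ⟨(hp x).lt_of_ne' fun k => by simp [Op, k] at h,
    (hq x).lt_of_ne' fun k => by simp [Op, k] at h⟩,
    fun h => mul_pos (a := p x) (b := q x) h.1 h.2⟩

theorem op_pow (hp : ∀ x, 0 ≤ p x) (s : ℕ) : Op (fun x => p x ^ (s + 1)) = Op p :=
  Set.ext fun x => ⟨fun h => (hp x).lt_of_ne' fun k => by simp [Op, k] at h,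
    fun h => pow_pos (a := p x) h _⟩

theorem pw (hK : Cl H K) (hp : p ∈ K) (j : ℕ) : (fun x => p x ^ j) ∈ K := by
  induction j with
  | zero => simpa only [pow_zero] using hK.one
  | succ j ih => simpa only [pow_succ] using hK.mul _ ih _ hp

/-- The denominator may be multiplied by a bounded one. -/
theorem bd_mul {C : ℝ} (hp : ∀ x, 0 ≤ p x) (hq : ∀ x, 0 ≤ q x) (hC : ∀ x, q x ≤ C)
    (h : Bd (Op p) p f) : Bd (Op fun x => p x * q x) (fun x => p x * q x) f := by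
  obtain ⟨h1, A, hA⟩ := h
  refine ⟨fun e he z hz hx => h1 e he z hz ((op_mul hp hq).1 hx).1, A * C, fun x hx => ?_⟩
  have k := hA x ((op_mul hp hq).1 hx).1
  beta_reduce
  rw [← mul_assoc]
  exact mul_le_mul k (hC x) (hq x) ((mul_nonneg (normSq_nonneg _) (hp x)).trans k)

theorem bd_pow {C A : ℝ} {s : ℕ} (hp : ∀ x, 0 ≤ p x) (hC : ∀ x, p x ≤ C) (h1 : HoK M (Op p) f)
    (hA : ∀ x, 0 < p x → normSq (f x) * p x ^ s ≤ A) :
    Bd (Op fun x => p x ^ (s + 1)) (fun x => p x ^ (s + 1)) f := by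
  rw [op_pow hp]
  refine ⟨h1, A * C, fun x hx => ?_⟩
  beta_reduce
  rw [pow_succ, ← mul_assoc]
  exact mul_le_mul (hA x hx) (hC x) (hp x)
    ((mul_nonneg (normSq_nonneg _) (pow_nonneg (hp x) _)).trans (hA x hx))

/-- The norm of a tame function times a power of the denominator. -/
theorem pol_gp (hK : Cl H K) (hp : p ∈ K) {C A : ℝ} {s : ℕ} (hC : ∀ x, p x ≤ C)
    (hd : Dense (Op p)) (h1 : HoK M (Op p) f) (hA : ∀ x, 0 < p x → normSq (f x) * p x ^ s ≤ A) :
    Pol M H (gp p f (s + 1)) := by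
  have p0 := (hK.lc p hp).nn
  obtain ⟨B, hB⟩ := hK.pol _ (pw hK hp (s + 1))
  obtain ⟨u, su, u0, hu, cu⟩ := hB Unit (fun _ => f) fun _ => bd_pow p0 hC h1 hA
  rw [op_pow p0] at hu
  have e1 : ∀ x ∈ Op p, u x = normSq (f x) * p x ^ (s + 1) := fun x hx => by
    rw [hu x hx, mul_comm]; simp [nsq]
  have le : ∀ x, u x ≤ A * p x := fun x =>
    (isClosed_le su.continuous (continuous_const.mul (hK.lc p hp).sm.continuous)).closure_subset_iff.2
      (fun y (hy : y ∈ Op p) => show u y ≤ A * p y by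
        rw [e1 y hy, pow_succ, ← mul_assoc]
        exact mul_le_mul_of_nonneg_right (hA y hy) (p0 y)) (hd x)
  have e : gp p f (s + 1) = u := funext fun x => by
    unfold gp
    split_ifs with h
    · exact (e1 x h).symm
    · have := le x
      rw [le_antisymm (not_lt.1 h) (p0 x), mul_zero] at this
      exact le_antisymm (u0 x) this
  rw [e]
  exact ⟨su, u0, B, fun d hd => cu d hd.1⟩

end CK

open CK in
theorem xCK (hKIT : St_KIT) : St_CK := by
  intro n M _ H K hK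
  have nn : ∀ p ∈ K, ∀ x, 0 ≤ p x := fun p hp => (hK.lc p hp).nn
  have dn : ∀ p ∈ K, Dense (Op p) := fun p hp => (hKIT n M H p hK.met (hK.lc p hp)).2.1
  have bd : ∀ p ∈ K, ∃ C > (0 : ℝ), ∀ x, p x ≤ C := fun p hp =>
    (hKIT n M H p hK.met (hK.lc p hp)).2.2.2.1
  have hc : ∀ (O : Set M.X) (c : ℂ), HoK M O fun _ => c := fun _ c _ _ _ _ _ =>
    Eventually.of_forall fun _ => differentiableAt_const c
  have two : ∀ f g, Mer K f → Mer K g → ∃ p ∈ K, Bd (Op p) p f ∧ Bd (Op p) p g := by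
    rintro f g ⟨p, hp, hf⟩ ⟨q, hq, hg⟩
    obtain ⟨C, -, hC⟩ := bd p hp
    obtain ⟨C', -, hC'⟩ := bd q hq
    refine ⟨_, hK.mul p hp q hq, bd_mul (nn p hp) (nn q hq) hC' hf, ?_⟩
    simpa only [mul_comm] using bd_mul (nn q hq) (nn p hp) hC hg
  have num : ∀ p ∈ K, ∀ f, Bd (Op p) p f → (∃ x ∈ Op p, f x ≠ 0) → ∃ ρ ∈ K,
      Op ρ = Op p ∩ {x | f x ≠ 0} ∧ ∀ x ∈ Op p, ρ x = normSq (f x) * p x * p x := by
    intro p hp f hf h0
    obtain ⟨q, hq, e⟩ := hK.num p hp f hf h0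
    refine ⟨_, hK.mul q hq p hp, Set.ext fun x => ?_, fun x hx => by rw [e x hx]⟩
    rw [op_mul (nn q hq) (nn p hp)]
    refine ⟨fun h => ⟨h.2, fun k => ?_⟩, fun h => ⟨?_, h.1⟩⟩
    · have : 0 < q x := h.1
      simp [e x h.2, show f x = 0 from k] at this
    · show 0 < q x
      rw [e x h.1]
      exact mul_pos (normSq_pos.2 h.2) h.1
  refine ⟨fun p hp => ⟨?_, pw hK hp⟩, fun c => ⟨_, hK.one, hc _ c, normSq c, fun x _ => by simp⟩,
    fun f g hf hg => ?_, fun ι _ f hf => ?_, fun p hp f hf => ?_, fun f hf h0 => ?_⟩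
  · obtain ⟨C, -, hC⟩ := bd p hp
    have k := pol_gp (f := fun _ => 1) (s := 0) (A := 1) hK hp hC (dn p hp) (hc _ 1)
      fun x _ => by simp
    have e : gp p (fun _ => 1) (0 + 1) = p := funext fun x => by
      unfold gp
      split_ifs with h
      · simp
      · exact le_antisymm (nn p hp x) (not_lt.1 h)
    rwa [e] at k
  · obtain ⟨p, hp, ⟨h1, A, hA⟩, h2, B, hB⟩ := two f g hf hg
    refine ⟨⟨p, hp, fun e he z hz hx => ((h1 e he z hz hx).and (h2 e he z hz hx)).mono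
      fun _ h => h.1.add h.2, 2 * A + 2 * B, fun x hx => ?_⟩, _, hK.mul p hp p hp,
      fun e he z hz hx => ?_, A * B, fun x hx => ?_⟩
    · have c : normSq (f x + g x) ≤ 2 * normSq (f x) + 2 * normSq (g x) := by
        have d := normSq_nonneg (f x - g x)
        rw [normSq_sub] at d
        rw [normSq_add]
        linarith
      have d := mul_le_mul_of_nonneg_right c (nn p hp x)
      have := hA x hx
      have := hB x hx
      rw [Pi.add_apply]
      linarith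
    · have hx' := ((op_mul (nn p hp) (nn p hp)).1 hx).1
      exact ((h1 e he z hz hx').and (h2 e he z hz hx')).mono fun _ h => h.1.mul h.2
    · have hx' := ((op_mul (nn p hp) (nn p hp)).1 hx).1
      beta_reduce
      rw [Pi.mul_apply, map_mul, mul_mul_mul_comm]
      exact mul_le_mul (hA x hx') (hB x hx') (mul_nonneg (normSq_nonneg _) (nn p hp x))
        ((mul_nonneg (normSq_nonneg _) (nn p hp x)).trans (hA x hx'))
  · have k : ∀ S : Finset ι, ∃ p ∈ K, ∀ i ∈ S, Bd (Op p) p (f i) := fun S => by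
      induction S using Finset.induction_on with
      | empty => exact ⟨_, hK.one, fun i hi => by simp at hi⟩
      | insert a S _ ih =>
        obtain ⟨p, hp, h1⟩ := ih
        obtain ⟨q, hq, h2⟩ := hf a
        obtain ⟨C, -, hC⟩ := bd p hp
        obtain ⟨C', -, hC'⟩ := bd q hq
        refine ⟨_, hK.mul p hp q hq, fun i hi => ?_⟩
        rcases Finset.mem_insert.1 hi with rfl | hi
        · simpa only [mul_comm] using bd_mul (nn q hq) (nn p hp) hC h2
        · exact bd_mul (nn p hp) (nn q hq) hC' (h1 i hi)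
    obtain ⟨p, hp, h⟩ := k Finset.univ
    exact ⟨p, hp, fun i => h i (Finset.mem_univ i)⟩
  · obtain ⟨h1, s, A, hA⟩ := hf
    obtain ⟨C, -, hC⟩ := bd p hp
    have b := bd_pow (nn p hp) hC h1 hA
    refine ⟨⟨_, pw hK hp (s + 1), b⟩, ⟨_, pol_gp hK hp hC (dn p hp) h1 hA⟩, fun ⟨x, hx, h0⟩ => ?_⟩
    obtain ⟨ρ, hρ, e, -⟩ := num _ (pw hK hp (s + 1)) f b ⟨x, pow_pos hx _, h0⟩
    exact ⟨ρ, hρ, by rw [e, op_pow (nn p hp)]⟩
  · obtain ⟨p, hp, hf⟩ := hf
    obtain ⟨ρ, hρ, e, e'⟩ := num p hp f hf (h0 p hp)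
    obtain ⟨C, C0, hC⟩ := bd p hp
    refine ⟨⟨ρ, hρ, fun c hc z hz hx => ?_, C * C, fun x hx => ?_⟩, ρ, hρ, fun x hx => (e.le hx).2⟩
    · have h1 := hf.1 c hc z hz (e.le hx).1
      exact (h1.and (h1.self_of_nhds.continuousAt.eventually_ne (e.le hx).2)).mono
        fun _ h => h.1.inv h.2
    · rw [e' x (e.le hx).1, Pi.inv_apply, map_inv₀, mul_assoc (normSq _),
        inv_mul_cancel_left₀ (normSq_pos.2 (e.le hx).2).ne']
      exact mul_le_mul (hC x) (hC x) (nn p hp x) C0.le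

end Pool.Agent.Lib.KX
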