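import Pool.Agent.Lib.KX.Defs
import Pool.Agent.Lib.KT.B_LAM
import Pool.Agent.Lib.NV5.B_CRM

/-! Project kx, row CRQ: many proportional tensors by the rule of Cramer. -/

open scoped Classical Topology Matrix
open Set Filter

noncomputable section

namespace Pool.Agent.Lib.KX

open Pool.Agent.Lib.SV (E)
open Pool.Agent.Lib.HS32 Pool.Agent.Lib.HLK
open Pool.Agent.Lib.RAA (kp kq)
open Pool.Agent.Lib.NV5.CRMb (mn comb big)
open Pool.Agent.Lib.KT.LAM (P la)

namespace CRQ

theorem pig {W : Type} [AddCommGroup W] [Module ℂ W] {k r : ℕ} (w : Fin r → Fin k → W)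
    (h : ∀ c : Fin k → ℂ, (∀ i, ∑ s, c s • w i s = 0) → c = 0) (k0 : 0 < k) :
    ∃ (i : Fin r) (k' : ℕ) (g : Fin k' → Fin k), k ≤ r * k' ∧ LinearIndependent ℂ (w i ∘ g) := by
  choose κ g g1 g2 g3 using fun i => exists_linearIndependent' ℂ (w i)
  have := fun i => Finite.of_injective _ (g1 i)
  have := fun i => Fintype.ofFinite (κ i)
  have e : k ≤ ∑ i, Fintype.card (κ i) := by
    have := LinearMap.finrank_le_finrank_of_injective (f := LinearMap.pi fun i =>
      (Fintype.linearCombination ℂ (w i)).rangeRestrict) (LinearMap.ker_eq_bot.1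
        (LinearMap.ker_eq_bot'.2 fun c hc => h c fun i => congrArg Subtype.val (congrFun hc i)))
    simp only [Module.finrank_pi_fintype, Module.finrank_self, Finset.sum_const, Finset.card_univ,
      Fintype.card_fin, smul_eq_mul, mul_one] at this
    exact this.trans_eq (Finset.sum_congr rfl fun i _ => by
      rw [Fintype.range_linearCombination, ← g2, finrank_span_eq_card (g3 i)])
  have : Nonempty (Fin r) := by
    by_contra c
    rw [not_nonempty_iff] at c
    simp at e
    omega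
  obtain ⟨i, -, hi⟩ := Finset.exists_max_image Finset.univ (fun i => Fintype.card (κ i))
    Finset.univ_nonempty
  exact ⟨i, _, g i ∘ (Fintype.equivFin _).symm,
    e.trans (by simpa using Finset.sum_le_card_nsmul _ _ _ hi),
    (g3 i).comp _ (Equiv.injective _)⟩

variable {n r : ℕ}

/-- The coordinates of a multivector. -/
def co (w : Fs n → ℂ) (k : Σ A : Fs n, (Fin A.card → Fin n)) : ℂ := (La (P k.1 k.2) *ᵥ w) k.1

/-- The blocks. -/
def bl (A : Fin r → Fs n) : (Fin (∑ j, (A j).card) → Fin n) ≃ ∀ j, Fin (A j).card → Fin n :=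
  (Equiv.arrowCongr finSigmaFinEquiv.symm (Equiv.refl _)).trans (Equiv.piCurry fun _ _ => Fin n)

/-- The tensor of minors. -/
def tn (A : Fin r → Fs n) (γ : Fin r → Fs n → ℂ) (K : Fin (∑ j, (A j).card) → Fin n) : ℂ :=
  (Matrix.of fun i j => co (γ i) ⟨A j, bl A K j⟩).det

theorem law (A : Fin r → Fs n) (J : Mat n) (c : Fin r → ℂ) (γ γ' : Fin r → Fs n → ℂ)
    (h : ∀ i, c i • γ i = La J *ᵥ γ' i) : (∏ i, c i) • tn A γ = kp _ J *ᵥ tn A γ' := by
  funext K
  have e2 := (Matrix.detRowAlternating (n := Fin r) (R := ℂ)).toMultilinearMap.map_sum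
    fun j (K' : Fin (A j).card → Fin n) => kp _ J (bl A K j) K' • fun i => co (γ' i) ⟨A j, K'⟩
  simp only [MultilinearMap.map_smul_univ, smul_eq_mul] at e2
  rw [Pi.smul_apply, smul_eq_mul, tn, ← Matrix.det_mul_column, ← Matrix.det_transpose]
  refine (congrArg Matrix.det (Matrix.ext fun j i => ?_)).trans
    (e2.trans ((bl A).sum_comp _).symm |>.trans (Finset.sum_congr rfl fun K' _ => ?_))
  · have := congrFun (KT.LAM.law (A j) J (γ' i)) (bl A K j)
    rw [← h, Matrix.mulVec_smul] at this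
    simpa [Matrix.mulVec, dotProduct, co] using this
  · refine congrArg₂ _ ?_ (Matrix.det_transpose (Matrix.of fun i j => co (γ' i) ⟨A j, bl A K' j⟩))
    simp only [kp, kq, Matrix.of_apply]
    rw [← finSigmaFinEquiv.prod_comp, Fintype.prod_sigma]
    rfl

theorem alt (A : Fin r → Fs n) (γ : Fin r → Fs n → ℂ) :
    Ab (fun p => (finSigmaFinEquiv.symm p).1) (tn A γ) := by
  intro K p p' hp hb
  obtain ⟨⟨j, s⟩, rfl⟩ := finSigmaFinEquiv.surjective p
  obtain ⟨⟨j', s'⟩, rfl⟩ := finSigmaFinEquiv.surjective p'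
  simp only [Equiv.symm_apply_apply] at hb
  subst hb
  have e : ∀ l w, co w ⟨A l, bl A (K ∘ Equiv.swap (finSigmaFinEquiv ⟨j, s⟩)
      (finSigmaFinEquiv ⟨j, s'⟩)) l⟩ = (if l = j then -1 else 1) * co w ⟨A l, bl A K l⟩ := by
    intro l w
    split_ifs with h
    · subst h
      have : bl A (K ∘ Equiv.swap (finSigmaFinEquiv ⟨l, s⟩) (finSigmaFinEquiv ⟨l, s'⟩)) l =
          bl A K l ∘ Equiv.swap s s' := funext fun t => congrArg K
        (Function.Injective.map_swap (f := fun t => finSigmaFinEquiv (n := fun j => (A j).card) ⟨l, t⟩)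
          (finSigmaFinEquiv.injective.comp sigma_mk_injective) s s' t).symm
      have h1 : ∀ I B, La (P (A l) I) (A l) B = _ := fun I B => by rw [← mul_one (P _ I), la]
      simp only [this, co, Matrix.mulVec, dotProduct, h1, Finset.mul_sum]
      refine Finset.sum_congr rfl fun B _ => ?_
      split_ifs with h
      · rw [← mul_assoc]
        refine congrArg (· * _) ((Matrix.det_permute (Equiv.swap s s')
          ((1 : Mat n).submatrix (bl A K l) (B.orderEmbOfFin h))).trans ?_)
        rw [Equiv.Perm.sign_swap fun c => hp (by rw [c])]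
        simp
      · simp
    · rw [one_mul]
      refine congrArg (fun I => co w ⟨A l, I⟩) (funext fun t => congrArg K ?_)
      exact Equiv.swap_apply_of_ne_of_ne
        (fun c => h (congrArg Sigma.fst (finSigmaFinEquiv.injective c)))
        fun c => h (congrArg Sigma.fst (finSigmaFinEquiv.injective c))
  simp only [tn, e]
  rw [Matrix.det_mul_row fun l => if l = j then (-1 : ℂ) else 1]
  simp
  rfl

theorem hol {γ : Fin r → E n → Fs n → ℂ} {z : E n} (h : ∀ i B, HolN (fun w => γ i w B) z)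
    (A : Fin r → Fs n) : HolN (fun w => tn A fun i => γ i w) z := by
  filter_upwards [eventually_all.2 fun i => eventually_all.2 (h i)] with w hw
  refine differentiableAt_pi.2 fun K => ?_
  simp only [tn, co, Matrix.det_apply', Matrix.of_apply, Matrix.mulVec, dotProduct]
  exact DifferentiableAt.fun_sum fun q _ => (differentiableAt_const _).mul
    (HasFDerivAt.finsetProd fun l _ => (DifferentiableAt.fun_sum fun B _ =>
      (hw (q l) B).const_mul _).hasFDerivAt).differentiableAt

end CRQ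

open CRQ in
theorem xCRQ (n : ℕ) (M : Mf n) [M.Cpt] (L : M.Co) (d : ℕ) (h : Mv3 L d) : Pq L d := by
  obtain ⟨C, h⟩ := h
  let T := {p : ℕ × M.Fam (Fs n → ℂ) // Hol p.2 ∧ M.Ov fun e e' x =>
    ((M.J e e' x).det * L.c e e' x ^ p.1) • p.2 e (e x) = La (M.J e e' x) *ᵥ p.2 e' (e' x)}
  let Q : ℕ → Prop := fun r => ∃ (α : Fin r → T), ∃ e ∈ M.C, ∃ z ∈ e.target, ∃ I,
    mn (fun b : T => co (b.1.2 e z)) α I ≠ 0
  obtain ⟨r, ⟨α, e₀, he₀, z₀, hz₀, I₀, h₀⟩, hr⟩ : ∃ r, Q r ∧ ¬ Q (r + 1) := by
    by_contra c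
    obtain ⟨x⟩ : Nonempty M.X := inferInstance
    have : ∀ r, Q r := Nat.rec ⟨Fin.elim0, _, ((mTR n M).1 x).1, _,
      (M.ch x).map_source ((mTR n M).1 x).2, Fin.elim0, by simp [mn]⟩
      fun r hr => by_contra fun h' => c ⟨r, hr, h'⟩
    obtain ⟨α, e, -, z, -, I, k⟩ := this _
    exact k (big _ (Nat.lt_succ_self _) α I)
  have hz : ∀ e ∈ M.C, ∀ z ∈ e.target, ∀ α : Fin (r + 1) → T, ∀ I,
    mn (fun b : T => co (b.1.2 e z)) α I = 0 := fun e he z hz α I =>
      by_contra fun c => hr ⟨α, e, he, z, hz, I, c⟩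
  let A := fun j => (I₀ j).1
  let t : (Fin r → T) → M.Fam (_ → ℂ) := fun γ e z => tn A fun i => (γ i).1.2 e z
  have ht : ∀ γ, M.All fun e z => HolN (t γ e) z := fun γ e he z hz =>
    hol (fun i => (γ i).2.1 e he z hz) A
  have t₀ : ∀ γ z, t γ e₀ z ((bl A).symm fun j => (I₀ j).2) =
      mn (fun b : T => co (b.1.2 e₀ z)) γ I₀ := fun γ z => by
    simp only [t, tn, Equiv.apply_symm_apply]
    rfl
  refine ⟨_, r, (∑ i, (α i).1.1 + 1) ^ d * (C * r), fun p => (finSigmaFinEquiv.symm p).1,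
    fun a => {s | ∃ γ, ∑ i, (γ i).1.1 = a ∧ s = t γ}, ?_, ?_, infinite_of_forall_exists_gt fun b => ?_⟩
  · rintro _ _ ⟨γ, rfl, rfl⟩
    refine ⟨⟨fun e he z hz _ => ht γ e he z hz, fun e he e' he' x hx hx' _ => ?_⟩,
      fun e _ z _ => alt A _⟩
    refine Eq.trans ?_ (law A _ _ _ _ fun i => (γ i).2.2 e he e' he' x hx hx')
    simp only [Finset.prod_mul_distrib, Finset.prod_pow_eq_pow_sum, Finset.prod_const,
      Finset.card_univ, Fintype.card_fin]
    rfl
  · rintro _ _ _ ⟨γ, -, rfl⟩ _ ⟨γ', -, rfl⟩ e he z hz' K K'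
    exact NV5.CRMb.prop _ (fun _ => True) (fun a _ => hz e he z hz' a) γ γ' (fun _ => trivial)
      (fun _ => trivial) (fun j => ⟨A j, bl A K j⟩) fun j => ⟨A j, bl A K' j⟩
  obtain ⟨a, ⟨k, V, v1, v2, v3⟩, hb⟩ := h.exists_gt b
  let u : Fin r → Fin k → Fin r → T := fun i s => Function.update α i ⟨(a, V s), v3 s⟩
  obtain ⟨i, k', g, g1, g2⟩ := pig (W := {p : M.Ch × E n // p.1 ∈ M.C ∧ p.2 ∈ p.1.target} → _ → ℂ)
    (fun i s p => t (u i s) p.1.1 p.1.2) (fun c hc => v2 c fun e he z hz' => by_contra fun k => by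
      refine (K3E.bID n M _ (fun e e' x => ((M.J e e' x).det * L.c e e' x ^ a)⁻¹ •
        La (M.J e e' x)) 0 (fun e z => ∑ s, c s • V s e z) ⟨fun e he z hz B => ?_,
          ⟨e, he, z, hz', k⟩, fun e he e' he' x hx hx' => ?_⟩ e₀ he₀ z₀ hz₀).elim fun B hB => hB ?_
      rotate_right
      · filter_upwards [e₀.open_target.mem_nhds hz₀, ((continuous_apply _).continuousAt.comp
          (ht α e₀ he₀ z₀ hz₀).self_of_nhds.continuousAt).eventually_ne ((t₀ α z₀).trans_ne h₀)]
          with w h1 h2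
        replace h2 := (t₀ α w).symm.trans_ne h2
        choose y hy using fun s => comb _ α I₀ h2 ⟨(a, V s), v3 s⟩ (hz e₀ he₀ w h1 _)
        have h3 : ∀ i, ∑ s, c s * y s i = 0 := fun i => by
          have := congrFun (congrFun (hc i) ⟨(e₀, w), he₀, h1⟩) ((bl A).symm fun j => (I₀ j).2)
          simp only [Finset.sum_apply, Pi.smul_apply, t₀, smul_eq_mul, Pi.zero_apply] at this
          refine (mul_eq_zero_iff_right h2).1 (Eq.trans ?_ this)
          rw [Finset.sum_mul]
          refine Finset.sum_congr rfl fun s _ => ?_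
          rw [mul_assoc, mn, ← smul_eq_mul (y s i), ← Matrix.det_updateRow_sum]
          refine congrArg (_ * Matrix.det ·) (Matrix.ext fun l j => ?_)
          by_cases hl : l = i
          · simpa [u, hl, Finset.sum_apply] using (hy s _).symm
          · simp [u, hl]
        have h4 := fun s => (KT.LAM.self B (V s e₀ w)).symm.trans (hy s ⟨B, B.orderEmbOfFin rfl⟩)
        simp only [not_not, Finset.sum_apply, Pi.smul_apply, smul_eq_mul, h4, Finset.mul_sum,
          ← mul_assoc]
        rw [Finset.sum_comm]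
        simp only [← Finset.sum_mul, h3, zero_mul, Finset.sum_const_zero]
      · filter_upwards [eventually_all.2 fun s => (v3 s).1 e he z hz B] with w hw
        simp only [Finset.sum_apply, Pi.smul_apply, smul_eq_mul]
        exact DifferentiableAt.fun_sum fun s _ => (hw s).const_mul _
      · have h1 := mul_ne_zero ((mTR n M).2.1 e he e' he' x hx hx').2.1
          (pow_ne_zero a (L.ne e he e' he' x hx hx'))
        have h2 := fun s => (v3 s).2 e he e' he' x hx hx'
        beta_reduce at h2 ⊢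
        simp only [Matrix.smul_mulVec, Matrix.mulVec_sum, Matrix.mulVec_smul, ← h2, pow_zero,
          inv_one, one_smul, Finset.smul_sum, inv_smul_smul₀ h1])
    (Nat.pos_of_ne_zero fun c => by simp [c] at v1)
  have e : ∀ s, ∑ l, (u i s l).1.1 = a + ∑ l ∈ Finset.univ \ {i}, (α l).1.1 := fun s => by
    simp only [u, Function.apply_update fun _ (b : T) => b.1.1]
    exact Finset.sum_update_of_mem (Finset.mem_univ i) _ _
  have e' := Finset.sum_le_sum_of_subset (f := fun l => (α l).1.1)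
    (Finset.subset_univ (Finset.univ \ {i}))
  refine ⟨_, ⟨k', fun s => t (u i (g s)), ?_, fun c hc => funext (Fintype.linearIndependent_iff.1
    g2 c (funext fun p => ?_)), fun s => ⟨_, e _, rfl⟩⟩, hb.trans_le (Nat.le_add_right _ _)⟩
  · rw [mul_assoc, mul_assoc C]
    refine le_trans ?_ (Nat.mul_le_mul_left _ (v1.trans (Nat.mul_le_mul_left _ g1)))
    rw [← mul_pow]
    exact Nat.pow_le_pow_left (by nlinarith [Nat.zero_le ((∑ i, (α i).1.1) * a)]) d
  · rw [Finset.sum_apply]
    exact hc _ p.2.1 _ p.2.2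

end Pool.Agent.Lib.KX
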