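import Pool.Agent.Lib.KX.Blue
import Pool.Agent.Lib.KT.B_JQ

/-! Project kx: the lower bound for the density. -/

open scoped Classical Topology ContDiff ComplexOrder Matrix ENNReal
open Set MeasureTheory Complex Metric Filter

noncomputable section

namespace Pool.Agent.Lib.KX

open Pool.Agent.Lib.SV (E nsq)
open Pool.Agent.Lib.HS32
open Pool.Agent.Lib.FI (dn)

theorem dlo_eq {n k : ℕ} {M : Mf n} (H : M.Fam (Mat n)) {O : Set M.X} {z : M.X → E k}
    (hz : ∀ i, KH.HoK M O fun x => z x i) {x : M.X} (hx : x ∈ O) :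
    KG56.jq M H (fun i x => z x i) x = dn H z x := by
  have hd : ∀ i, DifferentiableAt ℂ ((fun x => z x i) ∘ (M.ch x).symm) (M.ch x x) := fun i =>
    (hz i _ (Mf.ch_mem x) _ (Mf.ch_tgt x) (by rw [Mf.ch_symm]; exact hx)).self_of_nhds
  have hj : KG56.jac M (fun i x => z x i) (M.ch x) (M.ch x x) =
      FI.jr (z ∘ (M.ch x).symm) (M.ch x x) := by
    ext i j
    have h1 : fderiv ℂ (z ∘ (M.ch x).symm) (M.ch x x) = ContinuousLinearMap.pi fun i =>
        fderiv ℂ ((fun x => z x i) ∘ (M.ch x).symm) (M.ch x x) := fderiv_pi hd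
    show dz j _ _ = fderiv ℂ (z ∘ (M.ch x).symm) (M.ch x x) (Pi.single j 1) i
    rw [(mHOL n _ _).2.1 (hd i) j, h1]
    rfl
  show KG56.gm _ _ = _
  rw [hj]
  rfl

theorem xDLO (hKIT : St_KIT) : St_DLO := by
  intro n k M _ H K p p₀ z θ m D hC hF
  obtain ⟨C, c0, hj⟩ := KT.tJQ n M H (Op p₀) p₀ k (fun i x => z x i) hC.met
    (fun y hy => le_of_lt hy) hF.iv
  obtain ⟨ε, e0, hp⟩ := hF.sq
  have hl := hC.lc p₀ hF.mem
  obtain ⟨B, b0, hB⟩ := (hKIT n M H p₀ hC.met hl).2.2.2.1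
  refine ⟨k, (ε * B) ^ k * C, by positivity, fun x hx => ?_⟩
  have h0 := hl.nn x
  have h1 : 0 < p₀ x := h0.lt_of_ne fun h => by
    rw [hp, ← h] at hx
    simp at hx
  have h2 := hj x h1
  rw [dlo_eq H (fun i => (hF.bz i).1) h1] at h2
  calc p x ^ k = (ε * p₀ x) ^ k * p₀ x ^ k := by rw [hp, ← mul_pow, mul_assoc]
    _ ≤ (ε * B) ^ k * (C * dn H z x) :=
      mul_le_mul (pow_le_pow_left₀ (by positivity) (by gcongr; exact hB x) k) h2
        (by positivity) (by positivity)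
    _ = _ := by ring

end Pool.Agent.Lib.KX
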