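import Pool.Agent.Lib.KX.Blue
import Pool.Agent.Lib.DK63.DomZ

/-! Project kx, row DMZ: domination of a quotient of twisted tensors. -/

open scoped Classical Topology ContDiff ENNReal ComplexOrder Matrix
open Set MeasureTheory Filter

noncomputable section

namespace Pool.Agent.Lib.KX

namespace DMZ

open Pool.Agent.Lib.HS32 Pool.Agent.Lib.DM.K63 Pool.Agent.Lib.ZE Pool.Agent.Lib.ZE.S0
open Pool.Agent.Lib.ZK (fm Env Sol)
open Pool.Agent.Lib.DX (fl la)
open Pool.Agent.Lib.DK63 (Au err ex_small ex_le)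

variable {n : ℕ} {M : Mf n} [M.Cpt] {ι : Type} [Fintype ι]

theorem aub (D : Dt M ι) (hA : HS.St_AUBIN) {η : ℝ} (η0 : 0 < η) : ∃ C₀ C₁ L c : ℝ, 0 < c ∧ ∀ ε > (0 : ℝ),
    ∃ α w Q b, Au D C₀ C₁ L c η ε α w Q ∧ M.Sm b ∧ M.Le (D.T + M.hs w) Q ∧
      M.Le (∑ i, max (D.κ i) 0 • D.Θ i + M.hs b) Q := by
  have hm := D.kae.toMet
  obtain ⟨k1, ⟨C₀, k2⟩, k3, -, k5, k6, -, k8⟩ := zKT n M ι D
  obtain ⟨CQ, CQ0, hQ⟩ := zQQ n M ι D
  obtain ⟨q, δ, Ck, q1, δ0, hk⟩ := D.klt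
  obtain ⟨P, hP⟩ := sup_le hm C₀
  obtain ⟨-, fin, -, v0, -, -, hmu⟩ := mMU n M D.H hm
  set v := (M.mu D.H).real univ with hv
  obtain ⟨C₁, hC₁⟩ : ∃ C₁, C₁ = (1 + Ck / δ + P) / v := ⟨_, rfl⟩
  obtain ⟨S, S0, hS⟩ := ZK.n_UNI hA n M D.H C₀ 1 q (Real.exp (q * C₁) * Ck) D.pos D.kae q1
  obtain ⟨L, hL⟩ := ex_small (v + Ck) one_pos (show 0 < η / 3 by positivity)
  obtain ⟨ρ, hρ⟩ := ex_small (Real.exp C₁ * Ck) (sub_pos.2 q1) (show 0 < η / 3 by positivity)
  have ha : ∀ e e' : ℝ, ∃ φ, 0 < e → 0 < e' → Env M (D.th e e') φ e' := fun e e' => by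
    by_cases h : 0 < e ∧ 0 < e'
    · obtain ⟨ψ, p1, p2⟩ := k3 e h.1 e' h.2
      obtain ⟨φ, hφ⟩ := ZK.n_ENV hA n M D.H _ ψ e' D.pos D.kae (k1 e e') p1 p2 h.2
      exact ⟨φ, fun _ _ => hφ⟩
    · exact ⟨0, fun a b => absurd ⟨a, b⟩ h⟩
  choose a ha using ha
  refine ⟨C₀, C₁, L, η / 3 / (Real.exp C₁ * Real.exp ρ), by positivity, fun ε ε0 => ?_⟩
  obtain ⟨r, r0, hr⟩ := k8 ε ε0
  obtain ⟨e, e1, e2⟩ : ∃ e, e ∈ Ioc (0 : ℝ) 1 ∧ e ≤ r :=
    ⟨min 1 r, ⟨by positivity, min_le_left _ _⟩, min_le_right _ _⟩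
  obtain ⟨B, hB⟩ := k5 a (fun e he e' he' => ha e e' he.1 he'.1) e e1
  obtain ⟨c, c0, hc⟩ := k6 1 one_pos e e1.1
  simp only [one_smul] at hc
  obtain ⟨ε₀, ε1, h0⟩ := err D (|C₁| + (B + (v + Ck) + S)) e1.1 CQ0 c0
  obtain ⟨e', f1, f2, f3⟩ : ∃ e', 0 < e' ∧ e' ≤ e ∧ e' ≤ ε₀ :=
    ⟨min e ε₀, lt_min e1.1 ε1, min_le_left _ _, min_le_right _ _⟩
  have f4 : e' ∈ Ioc (0 : ℝ) 1 := ⟨f1, f2.trans e1.2⟩
  obtain ⟨d₀, d0, h1⟩ := h0 e' ⟨f1, f3⟩
  obtain ⟨d, d1, d2⟩ : ∃ d, d ∈ Ioc (0 : ℝ) 1 ∧ d ≤ d₀ :=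
    ⟨min 1 d₀, ⟨by positivity, min_le_left _ _⟩, min_le_right _ _⟩
  obtain ⟨χ1, Q1, Q2, Q3⟩ := hQ d d1.1
  have hE := ha e e' e1.1 f1
  obtain ⟨V, hV⟩ := ZK.n_EXS hA n M D.H _ _ D.pos D.kae (k1 e e') hE.sm hE.kae
  obtain ⟨w, hw⟩ := hV _ χ1
  have g1 : ∫ x, Real.exp (-(q * D.χ d x)) ∂M.mu D.H ≤ Ck := by
    simpa only [Dt.χ, mul_neg, neg_neg] using (hk d d1).1
  have g2 : ∫ x, Real.exp (δ * D.χ d x) ∂M.mu D.H ≤ Ck := by
    simpa only [Dt.χ, mul_neg] using (hk d d1).2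
  generalize D.χ d = χ at *
  have iq := int hm (χ1.const_mul q).neg.exp.continuous
  have i1 := int hm χ1.neg.exp.continuous
  have iw := int hm (hw.sm.sub χ1).exp.continuous
  have g3 : ∫ x, Real.exp (-χ x) ∂M.mu D.H ≤ v + Ck := by
    refine (integral_mono i1 ((integrable_const 1).add iq) fun x => by
      simpa using ex_le (ρ := 0) (x := χ x) q1).trans ?_
    simp only [Pi.add_apply]
    rw [integral_add (integrable_const _) iq, integral_const, smul_eq_mul, mul_one]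
    linarith
  have G0 := ZK48.le_psh (k2 e e1 e' f4) hw.kae.toMet.nonneg
  have ub : ∀ x, w x ≤ C₁ := fun x => by
    have m1 := integral_mono (int hm (hw.sm.sub χ1).continuous) iw fun x => by
      linarith [Real.add_one_le_exp (w x - χ x)]
    have m2 := integral_mono (int hm (χ1.const_mul δ).continuous)
      (int hm (χ1.const_mul δ).exp.continuous) fun x => by linarith [Real.add_one_le_exp (δ * χ x)]
    rw [integral_sub (int hm hw.sm.continuous) (int hm χ1.continuous), hw.one] at m1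
    rw [integral_const_mul] at m2
    have m3 := (le_div_iff₀' δ0).2 (m2.trans g2)
    rw [hC₁, le_div_iff₀ v0]
    linarith [hP w hw.sm G0 x]
  have Ck0 : 0 ≤ Ck := (integral_nonneg fun x => (Real.exp_pos _).le).trans g1
  have bd : ∀ x, |w x| ≤ |C₁| + (B + (v + Ck) + S) := fun x => by
    obtain ⟨y, hy⟩ := hw.sm.exists_max
    have m1 := hS _ V _ χ w (k1 e e') (k2 e e1 e' f4)
      ⟨hE.sm, hE.kae, hE.np, fun ψ a b c x => (hE.mx ψ a b c x).trans (by linarith [f4.2])⟩ hw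
      ((integral_mono (int hm ((hw.sm.sub χ1).const_mul q).exp.continuous)
        (iq.const_mul (Real.exp (q * C₁))) fun x => by
          rw [← Real.exp_add]
          exact Real.exp_le_exp.2 (by nlinarith [ub x])).trans (by
        rw [integral_const_mul]
        exact mul_le_mul_of_nonneg_left g1 (Real.exp_pos _).le)) x y
    have m2 := integral_mono iw (i1.const_mul (Real.exp (w y))) fun x => by
      rw [← Real.exp_add]
      exact Real.exp_le_exp.2 (by linarith [hy x])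
    rw [hw.one, integral_const_mul] at m2
    have m3 := mul_le_mul_of_nonneg_left
      (m2.trans (mul_le_mul_of_nonneg_left g3 (Real.exp_pos _).le)) (Real.exp_pos (-w y)).le
    rw [← mul_assoc, ← Real.exp_add, neg_add_cancel, Real.exp_zero, mul_one, one_mul] at m3
    have m4 := abs_le.1 (hB e' f4 x)
    refine abs_le.2 ⟨?_, ?_⟩
    · linarith [Real.add_one_le_exp (-w y), abs_nonneg C₁]
    · linarith [ub x, le_abs_self C₁]
  have cv := hc e' f1 V χ w hw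
  have ch := (hmu _ hw.kae.toMet).2.1
  simp only [hw.eq, mul_assoc, integral_const_mul] at ch
  have := (mMU n M _ hw.kae.toMet).2.1
  have vol : (M.mu (D.th e e' + M.hs w)).real univ = V := by
    simpa [hw.one] using ch fun _ => 1
  have sf := fun i => (QQ.bridge hm (D.sg i)).lsm d1.1
  refine ⟨_, w, D.th e e' + M.hs w + D.Q CQ d, fun x => ∑ i, max (D.κ i) 0 * fl (D.σ i) d x,
    ⟨k2 e e1 e' f4, hr e ⟨e1.1, e2⟩ e' ⟨f1, f2.trans e2⟩, hw.sm, ub, ⟨hw.kae, hw.kae.toForm.add Q1,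
      by simpa using hw.kae.toMet.nonneg.add Q2, le0.2 fun b hb z hz => ?_, ?_⟩,
      fun T hT hc => ?_⟩, Mf.Sm.sum fun i _ => (sf i).const_mul _, fun b hb z hz => ?_,
    fun b hb z hz => ?_⟩
  rotate_right 2
  · refine (congrArg Matrix.PosSemidef ?_).mp (((Mf.psd_rsmul (le0.1 D.nβ b hb z hz) e1.1.le).add
      (Mf.psd_rsmul (hm.pos b hb z hz).posSemidef f1.le)).add (le0.1 Q2 b hb z hz))
    simp only [Dt.th, Pi.add_apply, Pi.smul_apply]
    abel
  · refine (congrArg Matrix.PosSemidef ?_).mp ((hw.kae.pos b hb z hz).posSemidef.add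
      (Mf.psd_rsmul (c := CQ * ∑ i, la (D.σ i) d (b.symm z)) (hm.pos b hb z hz).posSemidef
        (mul_nonneg CQ0 (Finset.sum_nonneg fun i _ =>
          div_nonneg d1.1.le (add_nonneg ((D.sg i).nn _) d1.1.le)))))
    have k := QQ.hs_sum Finset.univ (fun i => fl (D.σ i) d) (fun i => max (D.κ i) 0) sf b hb z hz
    simp only [Dt.Q, Pi.add_apply, Pi.smul_apply, Finset.sum_apply, smul_add,
      Finset.sum_add_distrib, fm] at k ⊢
    rw [k]
    abel
  · have r := ((mHES n M).2.2.2.2.2.2.2.2.2 _ D.H hw.kae.toMet hm).2 b hb z hz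
    simp only [hw.eq, Real.log_mul hw.vp.ne' (Real.exp_pos _).ne', Real.log_exp,
      add_comm (Real.log V)] at r
    rw [hs_add_const (hw.sm.sub χ1) _ b hb z hz, ((mLAP n M _ _ hw.sm χ1).1 0 b hb z hz).2.2.1] at r
    refine (congrArg Matrix.PosSemidef ?_).mp (le0.1 (Q3 e e1.1.le e' f1.le) b hb z hz)
    simp only [Pi.add_apply, r]
    abel
  · simp only [Mf.tr_add (T := D.Q CQ d), hw.kae.toMet.tr_self]
    rw [integral_add (integrable_const _) (int hw.kae.toMet (tr_c hw.kae.toMet Q1.toTen)),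
      integral_const, smul_eq_mul, vol]
    linarith [h1 d ⟨d1.1, d2⟩ w hw.sm hw.kae bd]
  · have mA : MeasurableSet ({x | w x < -L} ∪ T) :=
      (measurableSet_lt hw.sm.continuous.measurable measurable_const).union hT
    have iT := (integrable_const (μ := M.mu D.H) (Real.exp C₁ * Real.exp ρ)).indicator hT
    rw [vol, ← integral_indicator_one mA, ch, mul_comm η]
    refine mul_le_mul_of_nonneg_left ((integral_mono_of_nonneg (g := fun x =>
      Real.exp (-(1 * L)) * Real.exp (-χ x) + T.indicator (fun _ => Real.exp C₁ * Real.exp ρ) x +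
        Real.exp C₁ * Real.exp (-((q - 1) * ρ)) * Real.exp (-(q * χ x)))
      (.of_forall fun x => mul_nonneg (Real.exp_pos _).le (indicator_nonneg (by simp) x))
      (((i1.const_mul _).add iT).add (iq.const_mul _)) (.of_forall fun x => ?_)).trans ?_) hw.vp.le
    · have p0 : 0 ≤ T.indicator (fun _ => Real.exp C₁ * Real.exp ρ) x :=
        indicator_nonneg (fun _ _ => by positivity) x
      have p1 : 0 ≤ Real.exp (-(1 * L)) * Real.exp (-χ x) := by positivity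
      have p2 : 0 ≤ Real.exp C₁ * Real.exp (-((q - 1) * ρ)) * Real.exp (-(q * χ x)) := by
        positivity
      beta_reduce
      by_cases h : x ∈ T
      · rw [indicator_of_mem h, indicator_of_mem (mem_union_right _ h), Pi.one_apply, mul_one,
          sub_eq_add_neg, Real.exp_add]
        nlinarith [mul_le_mul (Real.exp_le_exp.2 (ub x)) (ex_le (ρ := ρ) (x := χ x) q1)
          (Real.exp_pos _).le (Real.exp_pos _).le]
      by_cases h' : w x < -L
      · rw [indicator_of_mem (mem_union_left _ (show x ∈ {x | w x < -L} from h')), Pi.one_apply,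
          mul_one, ← Real.exp_add (-_)]
        linarith [Real.exp_le_exp.2 (show w x - χ x ≤ -(1 * L) + -χ x by linarith)]
      · rw [indicator_of_notMem fun k => k.elim h' h, mul_zero]
        linarith
    · rw [integral_add ((i1.const_mul _).fun_add iT) (iq.const_mul _),
        integral_add (i1.const_mul _) iT, integral_const_mul, integral_const_mul,
        integral_indicator_const _ hT, smul_eq_mul]
      rw [le_div_iff₀ (by positivity)] at hc
      nlinarith [mul_le_mul_of_nonneg_left g3 (Real.exp_pos (-(1 * L))).le,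
        mul_le_mul_of_nonneg_left g1
          (mul_pos (Real.exp_pos C₁) (Real.exp_pos (-((q - 1) * ρ)))).le]

end DMZ

open Complex Pool.Agent.Lib.HS32 Pool.Agent.Lib.HS32.Mf Pool.Agent.Lib.DM Pool.Agent.Lib.DM.K63

theorem xDMZ (hA : HS.St_AUBIN) : St_DMZ := by
  intro n M _ ι _ D O g ⟨B, B0, hB⟩
  have hm := D.kae.toMet
  have fin := (mMU n M _ hm).2.1
  obtain ⟨C₀, C₁, L₁, c, c0, hK⟩ := DMZ.aub D.toDt hA (η := 1 / (8 * (2 ^ n + 1))) (by positivity)
  obtain ⟨α, A, α0, -, hS⟩ := GH76.skoda M C₀ hm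
  obtain ⟨δ, δ0, δ1⟩ : ∃ δ : ℝ, 0 < δ ∧ 2 ^ (n + 2) * δ * (B * (n + 1)) ≤ 1 :=
    ⟨1 / (2 ^ (n + 2) * (B * (n + 1) + 1)), by positivity, by
      rw [mul_one_div, div_mul_eq_mul_div, div_le_one (by positivity)]
      exact mul_le_mul_of_nonneg_left (by linarith) (by positivity)⟩
  have lg : ∀ {V W : M.X → ℝ}, (∀ x, V x ≠ 0 ↔ x ∈ O) → (∀ x ∈ O, W x = V x * normSq (g x)) →
      ∀ x ∈ O, Real.log (V x + W x) - Real.log (V x) = Real.log (1 + normSq (g x)) :=
    fun h1 h2 x hx => by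
      rw [h2 x hx, ← mul_one_add, Real.log_mul ((h1 x).2 hx)
        (add_pos_of_pos_of_nonneg one_pos (normSq_nonneg _)).ne', add_sub_cancel_left]
  obtain ⟨_, _, Q₁, _, g, g1, g2, g3⟩ := hK 1 one_pos
  obtain ⟨V₁, W₁, _, _, -, -, P₁, o₁, w₁, -⟩ :=
    hB _ Q₁ _ _ g.rc.kae g.rc.frm g.rc.nn g.rc.ric g.sm g1 g2 g3
  have mq : Measurable fun x => δ * (Real.log (V₁ x + W₁ x) - Real.log (V₁ x)) :=
    (((P₁.sV.add P₁.sW).continuous.measurable.log).sub
      P₁.sV.continuous.measurable.log).const_mul δ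
  obtain ⟨L₂, hL⟩ := VOL.tail (M.mu D.H) mq (ENNReal.ofReal_pos.2 c0)
  obtain ⟨L, L0, L1⟩ : ∃ L : ℝ, 0 ≤ L ∧ L₂ + L₁ + C₁ ≤ L :=
    ⟨max 0 _, le_max_left _ _, le_max_right _ _⟩
  refine ⟨δ, α, max A (L + 3), δ0, α0, fun ε ε0 K hc hO => ?_⟩
  obtain ⟨β, a, Q, _, h, h1, h2, h3⟩ := hK ε ε0
  have a1 := h.rc.kae
  have a6 := h.sm.add (sm_const (-C₁))
  have a7 : ∀ x, a x + -C₁ ≤ 0 := fun x => by linarith [h.ub x]
  have := (mMU n M _ a1.toMet).2.1
  obtain ⟨V, W, C', l, b1, b2, P, o, w, b3⟩ :=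
    hB _ Q _ _ a1 h.rc.frm h.rc.nn h.rc.ric h.sm h1 h2 h3
  obtain ⟨u, u1, u2, ⟨x₀, u3⟩, u4⟩ := DK.dMVU DK.dVOL (dMAX hA) n M _ l (B * (n + 1)) C' δ L V W
    (fun x => B * M.tr (β + M.hs a) Q x) _ D.pos a1 P b1 b2 δ0.le
    (continuous_const.mul (tr_c a1.toMet h.rc.frm.toTen))
    (fun x => mul_nonneg B0 (a1.toMet.tr_nonneg h.rc.nn x)) b3 (by positivity)
    (by rw [integral_const_mul, mul_assoc]; exact mul_le_mul_of_nonneg_left h.rc.int B0) δ1
    a6.continuous a7 L0 (by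
      have ae : ∀ᵐ x ∂M.mu (β + M.hs a), V x ≠ 0 := by simpa only [ae_iff, not_not] using P.nul
      have k := h.sml _ (measurableSet_lt measurable_const mq)
        (ENNReal.toReal_le_of_le_ofReal c0.le hL)
      rw [one_div_mul_eq_div] at k
      refine le_trans (ENNReal.toReal_mono (measure_ne_top _ _)
        (measure_mono_ae (ae.mono fun x hx k => by_contra fun k' => ?_))) k
      have k1 : ¬a x < -L₁ := fun e => k' (Or.inl e)
      have k2 : ¬(L₂ : ℝ) < δ * (Real.log (V₁ x + W₁ x) - Real.log (V₁ x)) := fun e => k' (Or.inr e)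
      have k3 : L < δ * (Real.log (V x + W x) - Real.log (V x)) - (a x + -C₁) := k
      rw [lg o w x ((o x).1 hx), ← lg o₁ w₁ x ((o x).1 hx)] at k3
      linarith)
    K hc fun x hx => (o x).2 (hO hx)
  obtain ⟨y, hy⟩ := (u1.add h.sm).exists_max
  have sa := (u1.add h.sm).add (sm_const (-(u y + a y)))
  have l4 : M.Met (β + M.hs fun x => u x + a x + -(u y + a y)) := u2.toMet.congr fun e he z hz => by
    simp only [Pi.add_apply, hs_add_const (u1.add h.sm) _ e he z hz,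
      ((mLAP n M _ _ u1 h.sm).1 0 e he z hz).2.1]
    abel
  have n0 : ∀ x, u x + a x + -(u y + a y) ≤ 0 := fun x => by linarith [hy x]
  refine ⟨_, sa, (h.up _ sa l4).nonneg, n0, (hS _ sa (ZK48.le_psh h.le l4.nonneg) n0
    ⟨y, add_neg_cancel _⟩).trans (le_max_left _ _), fun x hx => ?_⟩
  have := u4 x hx
  rw [lg o w x (hO hx)] at this
  exact le_max_of_le_right (by linarith [hy x₀, a7 x])

end Pool.Agent.Lib.KX
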