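import Pool.Agent.Lib.KX.Blue
import Pool.Agent.Lib.RAA.T_EM3
import Pool.Agent.Lib.S3K.Sko

/-! Project kx: the density of a pair. -/

open scoped Classical Topology ContDiff ComplexOrder ENNReal
open Set MeasureTheory Complex Filter

noncomputable section

namespace Pool.Agent.Lib.KX

open Pool.Agent.Lib.SV (E)
open Pool.Agent.Lib.HS32 Pool.Agent.Lib.HS32.Mf
open Pool.Agent.Lib.KH (SmK OnK Jo)
open Pool.Agent.Lib.DX (Sg fl)

namespace DNS

variable {n : ℕ} {M : Mf n}

theorem hsum {ι : Type} {s : Finset ι} {f : ι → E n → ℝ} {z : E n}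
    (hf : ∀ a, ContDiffAt ℝ ∞ (f a) z) :
    hess (fun w => ((∑ a ∈ s, f a w : ℝ) : ℂ)) z = ∑ a ∈ s, hess (fun w => (f a w : ℂ)) z := by
  ext i j
  have h := fun a => cd_ofReal (hf a)
  simp only [ofReal_sum]
  rw [Matrix.sum_apply, hess_apply,
    dzb_congr (g := fun w => ∑ a ∈ s, dz j (fun w => (f a w : ℂ)) w)
    (((eventually_all_finset s).2 fun a _ => cd_ev_diff (h a)).mono fun w hw => dz_sum hw),
    dzb_sum fun a _ => cd_diff (cd_dz (h a) j)]
  rfl

theorem one {Θ : M.Fam (Mat n)} {σ : M.X → ℝ} (h : Sg M Θ σ) {κ : ℝ} {e : M.Ch} (he : e ∈ M.C)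
    {z : E n} (hz : z ∈ e.target) (h0 : κ ≠ 0 → 0 < σ (e.symm z)) :
    ContDiffAt ℝ ∞ (fun w => κ * Real.log (σ (e.symm w))) z ∧
      hess (fun w => ((κ * Real.log (σ (e.symm w)) : ℝ) : ℂ)) z = -(κ • Θ e z) := by
  by_cases hκ : κ = 0
  · simp [hκ, contDiffAt_const]
  have p := (h0 hκ).ne'
  have s := h.sm e he z hz
  have l : ContDiffAt ℝ ∞ (fun w => Real.log (σ (e.symm w))) z := s.log p
  refine ⟨contDiffAt_const.mul l, ?_⟩
  simp only [ofReal_mul]
  rw [hess_const_mul _ (cd_ofReal l), Complex.coe_smul, ← smul_neg]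
  refine congrArg _ ((RAA.EM3.hess_log s p).trans ?_)
  have := h.eq e he z hz
  change σ (e.symm z) • RAA.hr (σ ∘ e.symm) z + _ = dd (fun w => ((σ ∘ e.symm) w : ℂ))
    (fun w => ((σ ∘ e.symm) w : ℂ)) z at this
  rw [← this, smul_add, smul_smul, smul_smul, Function.comp_apply, ← mul_pow, inv_mul_cancel₀ p,
    sq, mul_assoc, inv_mul_cancel₀ p, mul_one, one_pow, one_smul, sub_add_cancel_left]

end DNS

open DNS in
theorem xDNS : St_DNS := by
  intro n M _ ι _ D O hO h0
  have lg : ∀ x ∈ O, D.w x = Real.exp (∑ i, D.κ i * Real.log (D.σ i x)) := fun x hx => by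
    rw [Real.exp_sum]
    refine Finset.prod_congr rfl fun i _ => ?_
    by_cases hκ : D.κ i = 0
    · simp [hκ]
    · rw [Real.rpow_def_of_pos (h0 x hx i hκ), mul_comm]
  have ev : OnK M O fun e z => (fun w => Real.log (D.w (e.symm w))) =ᶠ[𝓝 z]
      fun w => ∑ i, D.κ i * Real.log (D.σ i (e.symm w)) := fun e he z hz ho => by
    filter_upwards [e.continuousAt_symm hz (hO.mem_nhds ho)] with w hw
    rw [lg _ hw, Real.log_exp]
  have c := fun i => (D.sg i).sm.continuous
  refine ⟨fun x hx => lg x hx ▸ Real.exp_pos _, continuousOn_finsetProd _ fun i _ => ?_,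
    fun e he z hz ho => (ContDiffAt.sum fun i _ =>
      (one (D.sg i) he hz (h0 _ ho i)).1).congr_of_eventuallyEq (ev e he z hz ho),
    fun e he z hz ho => ?_, ?_⟩
  · refine (c i).continuousOn.rpow_const fun x hx => ?_
    by_cases hκ : D.κ i = 0
    · exact Or.inr hκ.ge
    · exact Or.inl (h0 x hx i hκ).ne'
  · refine (hess_congr ((ev e he z hz ho).mono fun w hw => congrArg ofReal hw)).trans
      ((hsum fun i => (one (D.sg i) he hz (h0 _ ho i)).1).trans ?_)
    rw [Finset.sum_congr rfl fun i _ => (one (D.sg i) he hz (h0 _ ho i)).2, Finset.sum_neg_distrib,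
      neg_eq_iff_add_eq_zero, ← add_assoc, add_comm _ (D.T e z)]
    exact D.adj e he z hz
  obtain ⟨q, δ, C, q1, -, hC⟩ := D.klt
  have d0 : ∀ j : ℕ, 0 < 1 / ((j : ℝ) + 1) := fun j => Nat.one_div_pos_of_nat
  have cg : ∀ j : ℕ, Continuous fun x =>
      Real.exp (q * ∑ i, D.κ i * fl (D.σ i) (1 / ((j : ℝ) + 1)) x) := fun j =>
    (continuous_const.mul (continuous_finsetSum _ fun i _ => continuous_const.mul
      (((c i).add continuous_const).log fun x =>
        (add_pos_of_nonneg_of_pos ((D.sg i).nn x) (d0 j)).ne'))).rexp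
  refine ⟨q, q1, ne_top_of_le_ne_top ENNReal.ofReal_ne_top (S3K.SKO.fatou
    (fun j => (cg j).aemeasurable) ((ae_restrict_mem hO.measurableSet).mono fun x hx => ?_)
    (fun j => ?_) (tendsto_const_nhds (x := ENNReal.ofReal C)))⟩
  · rw [lg x hx, ← Real.exp_mul, mul_comm]
    refine (Real.continuous_exp.tendsto _).comp ((tendsto_finsetSum _ fun i _ => ?_).const_mul q)
    by_cases hκ : D.κ i = 0
    · simp [hκ]
    · have t := (tendsto_one_div_add_atTop_nhds_zero_nat (𝕜 := ℝ)).const_add (D.σ i x)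
      rw [add_zero] at t
      exact (t.log (h0 x hx i hκ).ne').const_mul _
  · refine (setLIntegral_le_lintegral _ _).trans ?_
    rw [← ofReal_integral_eq_lintegral_ofReal ((mMU n M D.H D.kae.toMet).2.2.2.2.1 _ _ (cg j))
      (.of_forall fun x => (Real.exp_pos _).le)]
    exact ENNReal.ofReal_le_ofReal (hC _ ⟨d0 j, (div_le_one (by positivity)).2
      (le_add_of_nonneg_left j.cast_nonneg)⟩).1

end Pool.Agent.Lib.KX
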