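import Pool.Agent.Lib.KX.Blue

/-! Project kx, row DOM: domination of tame functions. -/

open scoped Classical Topology ContDiff ComplexOrder Matrix ENNReal
open Set MeasureTheory Complex Metric Filter

set_option linter.unusedVariables false

noncomputable section

namespace Pool.Agent.Lib.KX

open Pool.Agent.Lib.HS32 Pool.Agent.Lib.HLK
open Pool.Agent.Lib.KT (Bd)
open Pool.Agent.Lib.RBR (Tm)

namespace DOM

variable {n : ℕ} {M : Mf n}

theorem pw {H : M.Fam (Mat n)} {K : Set (M.X → ℝ)} (cl : Cl H K) {p : M.X → ℝ} (hp : p ∈ K)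
    (j : ℕ) : (fun x => p x ^ j) ∈ K := by
  induction j with
  | zero => simpa only [pow_zero] using cl.one
  | succ j ih => simpa only [pow_succ] using cl.mul _ ih _ hp

theorem op {p : M.X → ℝ} (h : ∀ x, 0 ≤ p x) (j : ℕ) : Op (fun x => p x ^ (j + 1)) = Op p := by
  ext x
  exact ⟨fun hx => (h x).lt_of_ne fun e => by
    have h2 : 0 < p x ^ (j + 1) := hx
    rw [← e, zero_pow (Nat.succ_ne_zero j)] at h2
    exact lt_irrefl _ h2, fun hx => pow_pos (a := p x) hx _⟩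

theorem bd [M.Cpt] {p : M.X → ℝ} (h : Lc p) {g : M.X → ℂ} (hg : Tm p g) :
    ∃ j : ℕ, Bd (Op p) (fun x => p x ^ (j + 1)) g := by
  obtain ⟨g1, s, C, g2⟩ := hg
  obtain ⟨A, hA⟩ := (isCompact_range h.sm.continuous).bddAbove
  refine ⟨s, g1, |C| * |A|, fun x hx => ?_⟩
  have a1 : p x ≤ |A| := (hA ⟨x, rfl⟩).trans (le_abs_self A)
  have a2 := (g2 x hx).trans (le_abs_self C)
  calc normSq (g x) * p x ^ (s + 1) = normSq (g x) * p x ^ s * p x := by ring
    _ ≤ |C| * |A| := mul_le_mul a2 a1 (h.nn x) (abs_nonneg C)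

end DOM

theorem xDOM (hZCL : St_ZCL) (hPAZ : St_PAZ) (hDMZ : St_DMZ) (hAVG : DK.St_AVG) : St_DOM := by
  intro n M _ ι _ D p κ _ _ g hp hg
  have hm := D.kae.toMet
  have cl := hZCL n M D.H D.T D.P hm
  refine hAVG n M _ _ _ κ _ hm (fun i x => normSq_nonneg _) fun i => ?_
  obtain ⟨j, hj⟩ := DOM.bd (cl.lc _ hp) (hg i)
  have e := DOM.op (cl.lc _ hp).nn j
  have t := hPAZ n M D.H D.T D.P _ (g i) hm (DOM.pw cl hp (j + 1)) (by rw [e]; exact hj)
  rw [e] at t
  exact hDMZ n M ι D _ _ t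

end Pool.Agent.Lib.KX
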