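import Pool.Agent.Lib.KX.Blue
import Pool.Agent.Lib.HS32.MAll

/-! Project kx: a decreasing sequence of potentials. -/

open scoped Classical Topology ContDiff ComplexOrder Matrix ENNReal
open Set MeasureTheory Complex Metric Filter

noncomputable section

namespace Pool.Agent.Lib.KX

open Pool.Agent.Lib.HS32

theorem xENV (hZE : ZE.St_ZE) : St_ENV := by
  intro n M _ ι _ D
  obtain ⟨a, h1, h2, h3⟩ := hZE n M ι D
  have e0 : ∀ i : ℕ, (0 : ℝ) < (1 / 2) ^ i := fun i => by positivity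
  have e1 : ∀ i : ℕ, ((1 : ℝ) / 2) ^ i ≤ 1 := fun i => pow_le_one₀ (by norm_num) (by norm_num)
  have hm : ∀ i : ℕ, ((1 : ℝ) / 2) ^ i ∈ Ioc (0 : ℝ) 1 := fun i => ⟨e0 i, e1 i⟩
  have hs : ∀ i : ℕ, M.Sm fun x => a ((1 / 2) ^ i) x + (2 * (1 / 2) ^ i - 2) := fun i =>
    (h1 _ (hm i)).sm.add (Mf.sm_const _)
  refine ⟨fun i => (1 / 2) ^ i, fun i x => a ((1 / 2) ^ i) x + (2 * (1 / 2) ^ i - 2), e0,
    tendsto_pow_atTop_nhds_zero_of_lt_one (by norm_num) (by norm_num), hs, fun i x => ?_,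
    fun i x => ?_, fun i e he z hz => ?_, fun t ht => ?_⟩
  · linarith [(h1 _ (hm i)).np x, e1 i]
  · have s : ((1 : ℝ) / 2) ^ (i + 1) = (1 / 2) ^ i / 2 := by rw [pow_succ]; ring
    have := h2 _ (hm i) ((1 / 2) ^ (i + 1)) ⟨e0 _, by rw [s]; linarith [e0 i]⟩ x
    show a ((1 / 2) ^ (i + 1)) x + (2 * (1 / 2) ^ (i + 1) - 2) ≤
      a ((1 / 2) ^ i) x + (2 * (1 / 2) ^ i - 2)
    linarith
  · have h := (mLAP n M (a ((1 / 2) ^ i)) (fun _ => 2 * (1 / 2) ^ i - 2) (h1 _ (hm i)).sm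
      (Mf.sm_const _)).1 (2 * (1 / 2) ^ i - 2) e he z hz
    have k := ((h1 _ (hm i)).kae.toMet.pos e he z hz).posSemidef
    simp only [Pi.add_apply, Pi.zero_apply, sub_zero] at k ⊢
    rw [h.2.1, h.1, add_zero]
    exact k
  · obtain ⟨C, hC⟩ := h3 t ht
    refine ⟨Real.exp (2 * t) * C, fun i => ?_⟩
    have hi := (mMU n M D.H D.kae.toMet).2.2.2.2.1
    have c1 : Continuous fun x => Real.exp (-(t * a ((1 / 2) ^ i) x)) :=
      Real.continuous_exp.comp (continuous_const.mul (h1 _ (hm i)).sm.continuous).neg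
    have c2 : Continuous fun x =>
        Real.exp (-(t * (a ((1 / 2) ^ i) x + (2 * (1 / 2) ^ i - 2)))) :=
      Real.continuous_exp.comp (continuous_const.mul (hs i).continuous).neg
    unfold KH.Jo
    rw [Measure.restrict_univ, ← ofReal_integral_eq_lintegral_ofReal (hi ℝ _ c2)
      (.of_forall fun x => (Real.exp_pos _).le)]
    refine ENNReal.ofReal_le_ofReal ((integral_mono (hi ℝ _ c2)
      ((hi ℝ _ c1).const_mul (Real.exp (2 * t))) fun x => ?_).trans ?_)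
    · show Real.exp _ ≤ Real.exp _ * Real.exp _
      rw [← Real.exp_add]
      exact Real.exp_le_exp.2 (by nlinarith [mul_pos ht (e0 i)])
    · rw [integral_const_mul]
      exact mul_le_mul_of_nonneg_left (hC _ (hm i)) (Real.exp_pos _).le

end Pool.Agent.Lib.KX
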