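import Pool.Agent.Lib.KX.Blue

/-! Project kx, row EXD: the equations of the divisors. -/

open scoped Classical Topology ContDiff ComplexOrder Matrix ENNReal
open Set MeasureTheory Complex Metric Filter

set_option linter.unusedVariables false

noncomputable section

namespace Pool.Agent.Lib.KX

open Pool.Agent.Lib.HS32 Pool.Agent.Lib.HS32.Mf
open Pool.Agent.Lib.K3S.TW (sm2 wmu)
open Pool.Agent.Lib.K3E (triv)

namespace EXD

variable {n : ℕ} {M : Mf n} {ι : Type}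

theorem prd {L : ι → M.Co} {φ : ι → M.Fam ℝ} (h : ∀ k, M.WtC (L k) (φ k)) (a : ι → ℕ)
    (s : Finset ι) : ∃ P : M.Co, M.WtC P (∑ k ∈ s, (a k : ℝ) • φ k) ∧
      (∀ e e' x, P.c e e' x = ∏ k ∈ s, (L k).c e e' x ^ a k) ∧
      M.All fun e z => M.hw (∑ k ∈ s, (a k : ℝ) • φ k) e z =
        ∑ k ∈ s, (a k : ℝ) • M.hw (φ k) e z := by
  induction s using Finset.induction_on with
  | empty =>
    refine ⟨triv M, ⟨fun e _ z _ => contDiffAt_const, fun e _ e' _ x _ _ => by simp [triv]⟩,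
      fun _ _ _ => rfl, fun e _ z _ => ?_⟩
    simp only [Mf.hw, Pi.zero_apply, hess_const, Finset.sum_empty]
  | insert k s hk ih =>
    obtain ⟨P, p1, p2, p3⟩ := ih
    obtain ⟨q1, q2⟩ := (h k).pw (a k)
    rw [Finset.sum_insert hk]
    refine ⟨_, wmu q1 p1, fun e e' x => ?_, fun e he z hz => ?_⟩
    · rw [Finset.prod_insert hk, ← p2]
      rfl
    · beta_reduce
      rw [hw_add (q1.sm e he z hz) (p1.sm e he z hz), q2 e he z hz, p3 e he z hz,
        Finset.sum_insert hk]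

variable [Fintype ι]

theorem gen (D : Pp M ι) (b : ι → ℕ) : ∃ (P : M.Co) (χ : M.Fam ℝ), M.WtC P χ ∧
    (∀ e e' x, P.c e e' x = ∏ i, (D.Lk i).c e e' x ^ b i) ∧
    M.HSecC P (fun e z => ∏ i, D.f i e z ^ b i) ∧
    ((fun x => ∏ i, D.σ i x ^ b i) = M.nrC χ fun e z => ∏ i, D.f i e z ^ b i) ∧
    (M.All fun e z => M.hw χ e z = ∑ i, (b i : ℝ) • D.Θ i e z) ∧
    ∃ x, M.nrC χ (fun e z => ∏ i, D.f i e z ^ b i) x ≠ 0 := by
  obtain ⟨P, p1, p2, p3⟩ := prd D.wt b Finset.univ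
  have e1 : (fun x => ∏ i, D.σ i x ^ b i) =
      M.nrC (∑ k, (b k : ℝ) • D.φk k) fun e z => ∏ i, D.f i e z ^ b i := by
    funext x
    simp only [D.hσ, Mf.nrC, Mf.ev, map_prod, map_pow, mul_pow, Finset.prod_mul_distrib,
      Finset.sum_apply, Pi.smul_apply, smul_eq_mul]
    congr 1
    rw [← Finset.sum_neg_distrib, Real.exp_sum]
    refine Finset.prod_congr rfl fun i _ => ?_
    rw [← Real.exp_nat_mul, mul_neg]
  refine ⟨P, _, p1, p2, ⟨⟨fun e he z hz => ?_, fun e he e' he' x hx hx' => ?_⟩,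
    fun e he z hz => ?_⟩, e1, fun e he z hz => ?_, ?_⟩
  · exact contDiffAt_prod fun i _ => ((D.hol i).sm e he z hz).pow _
  · have h2 := fun i => (D.hol i).cmp e he e' he' x hx hx'
    beta_reduce at h2 ⊢
    simp only [h2, p2, mul_pow, Finset.prod_mul_distrib]
  · exact (HasFDerivAt.finsetProd fun i _ =>
      (((D.hol i).hol e he z hz).fun_pow _).hasFDerivAt).differentiableAt
  · beta_reduce
    rw [p3 e he z hz]
    simp only [D.hΘ]
  · have h0 : M.mu D.H ≠ 0 := fun h => by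
      have := D.vol
      rw [h, integral_zero_measure] at this
      exact lt_irrefl _ this
    haveI := ae_neBot.2 h0
    have h1 : ∀ᵐ x ∂M.mu D.H, ∀ i, D.σ i x ≠ 0 := by
      refine eventually_all.2 fun i => ?_
      rw [ae_iff]
      simpa using (D.sg i).nul D.H D.kae.toMet
    obtain ⟨x, hx⟩ := h1.exists
    refine ⟨x, ?_⟩
    rw [← e1]
    exact Finset.prod_ne_zero_iff.2 fun i _ => pow_ne_zero _ (hx i)

theorem cast_a (D : Pp M ι) (i : ι) : (((D.a i).toNat : ℕ) : ℝ) = D.c * max (D.κ i) 0 := by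
  have h1 : (((D.a i).toNat : ℕ) : ℝ) = (((D.a i).toNat : ℤ) : ℝ) := (Int.cast_natCast _).symm
  rw [h1, Int.ofNat_toNat, Int.cast_max, ← D.hκ, mul_max_of_nonneg _ _ (Nat.cast_nonneg _),
    mul_zero, mul_comm, Int.cast_zero]

end EXD

open EXD in
theorem xEXD (hCK : St_CK) (hZMO : St_ZMO) (hZCL : St_ZCL) : St_EXD := by
  intro n M _ ι _ D
  have hm := D.kae.toMet
  obtain ⟨P, χ, p1, p2, p3, p4, p5, p6⟩ := gen D fun i => (D.a i).toNat
  obtain ⟨P', χ', q1, -, q3, q4, -, q6⟩ := gen D fun i => (-D.a i).toNat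
  have c1 : (1 : ℝ) ≤ D.c := Nat.one_le_cast.2 D.c0
  have hs : D.s ∈ Kz D.H (M.hw χ') (M.hw χ') := by
    have : D.s = _ := q4
    rw [this]
    exact (hZMO n M _ _ _ hm).2.2 P' χ' _ q1 ⟨1, 0, zero_le_one, le_rfl, fun e _ z _ => by simp⟩ q3 q6
  have cl := hZCL n M D.H (M.hw χ') (M.hw χ') hm
  have sn : ∀ x, D.s x ≠ 0 → ∀ i, D.a i < 0 → D.σ i x ≠ 0 := fun x hx i hi h =>
    Finset.prod_ne_zero_iff.1 hx i (Finset.mem_univ i) (by
      rw [h]
      exact zero_pow (by omega))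
  refine ⟨?_, cl.lc _ hs, ((hCK n M _ _ cl).1 _ hs).1, ?_, ?_, P, χ, p1, p2, p3, p4⟩
  · have : D.ex = _ := p4
    rw [this]
    refine (hZMO n M _ _ _ hm).2.2 P χ _ p1 ⟨0, D.c, le_rfl, Nat.cast_nonneg _,
      fun e he z hz => ?_⟩ p3 p6
    beta_reduce
    rw [p5 e he z hz]
    simp only [cast_a, Pp.P, Finset.sum_apply, Pi.smul_apply, zero_smul, zero_add, Finset.smul_sum,
      smul_smul]
  · have hb : ∀ i, ∃ B : ℝ, ∀ x, D.σ i x ≤ B := fun i => by
      obtain ⟨B, hB⟩ := (isCompact_range (D.sg i).sm.continuous).bddAbove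
      exact ⟨B, fun x => hB ⟨x, rfl⟩⟩
    choose B hB using hb
    refine ⟨∏ i, B i ^ ((((D.a i).toNat : ℕ) : ℝ) - D.κ i), fun x hx => ?_⟩
    unfold Pp.ex Pp.w
    rw [← Finset.prod_mul_distrib]
    refine Finset.prod_le_prod (fun i _ => pow_nonneg ((D.sg i).nn x) _) fun i _ => ?_
    have s0 := (D.sg i).nn x
    have u0 : 0 ≤ (((D.a i).toNat : ℕ) : ℝ) - D.κ i := by
      rw [cast_a]
      nlinarith [le_max_left (D.κ i) 0, le_max_right (D.κ i) 0]
    have e1 : D.σ i x ^ (D.a i).toNat =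
        D.σ i x ^ ((((D.a i).toNat : ℕ) : ℝ) - D.κ i) * D.σ i x ^ D.κ i := by
      rcases s0.eq_or_lt with h | h
      · have h1 : 0 ≤ D.a i := not_lt.1 fun h' => sn x hx i h' h.symm
        have h2 : 0 ≤ D.κ i := by
          have h3 : (0 : ℝ) ≤ D.κ i * D.c := by
            rw [D.hκ]
            exact_mod_cast h1
          exact nonneg_of_mul_nonneg_left h3 (by linarith)
        rw [← Real.rpow_add_of_nonneg s0 u0 h2, sub_add_cancel, Real.rpow_natCast]
      · rw [← Real.rpow_add h, sub_add_cancel, Real.rpow_natCast]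
    rw [e1]
    exact mul_le_mul_of_nonneg_right (Real.rpow_le_rpow s0 (hB i x) u0) (Real.rpow_nonneg s0 _)
  · intro x hx hx' i hi
    refine lt_of_le_of_ne ((D.sg i).nn x) (Ne.symm ?_)
    have h1 : D.a i ≠ 0 := fun h => by
      have h2 := D.hκ i
      rw [h, Int.cast_zero] at h2
      exact mul_ne_zero hi (by linarith) h2
    rcases lt_or_gt_of_ne h1 with h | h
    · exact sn x hx i h
    · intro h0
      refine Finset.prod_ne_zero_iff.1 hx' i (Finset.mem_univ i) ?_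
      rw [h0]
      exact zero_pow (by omega)

end Pool.Agent.Lib.KX
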