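import Pool.Agent.Lib.KX.Blue
import Pool.Agent.Lib.SIE.Gen
import Pool.Agent.Lib.HS32.MKit

/-! Project kx: the fibration. -/

open scoped Classical Topology ComplexOrder
open Set Complex Filter

noncomputable section

namespace Pool.Agent.Lib.KX

open Pool.Agent.Lib.SV (E nsq)
open Pool.Agent.Lib.HS32
open Pool.Agent.Lib.KT (Bd)
open Pool.Agent.Lib.FI (qf)

namespace FB

variable {n : ℕ} {M : Mf n} {O : Set M.X} {w : M.X → ℝ} {A : ℝ}

theorem cst (hA : ∀ x, w x ≤ A) (c : ℂ) : Bd O w fun _ => c :=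
  ⟨fun _ _ _ _ _ => Eventually.of_forall fun _ => differentiableAt_const c,
    _, fun x _ => mul_le_mul_of_nonneg_left (hA x) (normSq_nonneg c)⟩

theorem sub (h0 : ∀ x, 0 ≤ w x) (hA : ∀ x, w x ≤ A) {f : M.X → ℂ} (h : Bd O w f) (c : ℂ) :
    Bd O w fun x => f x - c := by
  obtain ⟨h1, C, hC⟩ := h
  refine ⟨fun e he z hz hO => (h1 e he z hz hO).mono fun _ h => h.sub_const c,
    2 * C + 2 * (normSq c * A), fun x hx => ?_⟩
  have : normSq (f x - c) ≤ 2 * normSq (f x) + 2 * normSq c := by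
    simp only [normSq_apply, sub_re, sub_im]
    nlinarith [sq_nonneg ((f x).re + c.re), sq_nonneg ((f x).im + c.im)]
  nlinarith [mul_le_mul_of_nonneg_right this (h0 x), hC x hx,
    mul_le_mul_of_nonneg_left (hA x) (normSq_nonneg c)]

theorem up {H X : M.Fam (Mat n)} {C : ℝ} (h : M.Le 0 (C • H + X)) : M.Le H ((C + 1) • H + X) :=
  fun e he z hz => by
    have : ((C + 1) • H + X) e z - H e z = (C • H + X) e z - (0 : M.Fam (Mat n)) e z := by
      simp only [Pi.add_apply, Pi.smul_apply, Pi.zero_apply, add_smul, one_smul]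
      abel
    exact (congrArg Matrix.PosSemidef this).mpr (h e he z hz)

end FB

open FB in
theorem xFB (hKIT : St_KIT) : St_FB := by
  intro n k M _ H K p p₀ z θ m D hH cl fr k0
  obtain ⟨ε, ε0, hp⟩ := fr.sq
  have pK : p ∈ K := (funext hp : p = _) ▸ cl.scl _ (cl.mul _ fr.mem _ fr.mem) ε ε0
  have l0 := cl.lc _ fr.mem
  have l1 := cl.lc _ pK
  obtain ⟨-, -, -, ⟨A, -, hA⟩, -⟩ := hKIT n M H p₀ cl.met l0
  obtain ⟨-, dn, -, ⟨B, -, hB⟩, -⟩ := hKIT n M H p cl.met l1
  have op : ∀ x, 0 < p x → 0 < p₀ x := fun x hx => (l0.nn x).lt_of_ne fun h => by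
    simp [hp x, ← h] at hx
  have bz : ∀ i, Bd (Op p) p fun x => z x i := fun i => by
    obtain ⟨h1, C, hC⟩ := fr.bz i
    refine ⟨fun e he w hw hO => h1 e he w hw (op _ hO), ε * (A * |C|), fun x hx => ?_⟩
    rw [hp x, mul_left_comm, mul_left_comm (normSq _)]
    exact mul_le_mul_of_nonneg_left (mul_le_mul (hA x) ((hC x (op x hx)).trans (le_abs_self C))
      (mul_nonneg (normSq_nonneg _) (l0.nn x)) ((l0.nn x).trans (hA x))) ε0.le
  have sq : ∀ R y, M.Sm (qf p z R y) := fun R y => by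
    obtain ⟨_, h⟩ := cl.pol _ fr.mem
    obtain ⟨u, us, -, hu, -⟩ := h (Fin k) (fun i x => z x i - y i)
      fun i => sub l0.nn hA (fr.bz i) _
    have : qf p z R y = fun x => p x * R + ε * (p₀ x * u x) := funext fun x => by
      rw [qf, hp x]
      rcases (l0.nn x).eq_or_lt with h | h
      · simp [← h]
      · rw [hu x h]
        change _ = _ + ε * (p₀ x * (p₀ x * nsq (z x - y)))
        ring
    rw [this]
    exact fun e he w hw => ((l1.sm e he w hw).mul contDiffAt_const).add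
      (contDiffAt_const.mul ((l0.sm e he w hw).mul (us e he w hw)))
  obtain ⟨C, hC⟩ := cl.pol _ pK
  have key : ∀ (ι : Type) [Fintype ι] (f : ι → M.X → ℂ) (v : M.X → ℝ), (∀ i, Bd (Op p) p (f i)) →
      M.Sm v → (∀ x, v x = p x * nsq (f · x)) → ∀ d > (0 : ℝ),
      M.Le H ((C + 1) • H + M.hs fun x => Real.log (v x + d)) := fun ι _ f v hf hv he d d0 => by
    obtain ⟨u, us, -, hu, h⟩ := hC ι f hf
    rw [hv.continuous.ext_on dn us.continuous fun x hx => (he x).trans (hu x hx).symm]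
    exact up (h d d0)
  have pp := key Unit (fun _ _ => 1) p (fun _ => cst hB 1) l1.sm fun x => by simp [nsq]
  obtain ⟨x, hx⟩ := fr.rk
  refine ⟨C + 1, ⟨hH, k0, SIE.rk_le hx, l1.sm, l1.nn, fun e he w hw hO => ?_, sq, pp,
    fun R y d R0 d0 => key (Option (Fin k))
      (fun i x => i.elim (√R : ℝ) fun i => z x i - y i) _ (fun i => ?_) (sq R y) (fun x => ?_) d d0⟩,
    fun d d0 e he w hw => ?_⟩
  · exact (eventually_all.2 fun i => (bz i).1 e he w hw hO).mono fun _ h => differentiableAt_pi.2 h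
  · cases i with
    | none => exact cst hB _
    | some i => exact sub l1.nn hB (bz i) _
  · simp [qf, nsq, Fintype.sum_option, Real.mul_self_sqrt R0.le]
  · simpa using (pp d d0 e he w hw).add (cl.met.pos e he w hw).posSemidef

end Pool.Agent.Lib.KX
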