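import Pool.Agent.Lib.KX.Blue
import Pool.Agent.Lib.SIE.Sch
import Pool.Agent.Lib.SV.B_SIE
import Pool.Agent.Lib.SV.B_JET
import Pool.Agent.Lib.SV.B_SMO

/-! Project kx, row FD: bounded quotients form a space of finite dimension. -/

open scoped Classical Topology
open Set Metric Filter

noncomputable section

namespace Pool.Agent.Lib.KX

open Pool.Agent.Lib.SV (E)
open Pool.Agent.Lib.HS32 Pool.Agent.Lib.SIE

namespace FD

variable {n : ℕ} {M : Mf n} {p : M.X → ℝ} {σ : Type} [Fintype σ] {q : M.Fam (σ → ℂ)}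

theorem dn (h : Lq p q) : Dn M q := ⟨h.hol, fun e he e' he' x hx hx' => by
  obtain ⟨C, C0, hC⟩ := h.cmp e he _ (e.map_source hx)
  obtain ⟨C', C0', hC'⟩ := h.cmp e' he' _ (e'.map_source hx')
  refine ⟨C * C' + 1, ?_⟩
  filter_upwards [(e.continuousAt hx).eventually hC, (e'.continuousAt hx').eventually hC',
    e.open_source.mem_nhds hx, e'.open_source.mem_nhds hx'] with y h1 h2 h3 h4
  rw [e.left_inv h3] at h1
  rw [e'.left_inv h4] at h2
  have h5 := mul_pos C0 C0'
  refine le_of_sq_le_sq ?_ (by positivity)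
  refine h1.2.trans ((mul_le_mul_of_nonneg_left h2.1 C0.le).trans ?_)
  rw [mul_pow, ← mul_assoc]
  exact mul_le_mul_of_nonneg_right (by nlinarith) (sq_nonneg _)⟩

theorem oo (h : Lq p q) {x : M.X} (hx : 0 < p x) : x ∈ Oo M q := fun e he hs c => by
  obtain ⟨C, -, hC⟩ := h.cmp e he _ (e.map_source hs)
  have := hC.self_of_nhds.1
  rw [e.left_inv hs, c, norm_zero] at this
  linarith

variable (p q) in
/-- The quotients with the denominator `q` that vanish off the open set. -/
def sp : Submodule ℂ (M.X → ℂ) where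
  carrier := {F | (∃ c, Mu M q F c) ∧ ∀ x, ¬0 < p x → F x = 0}
  add_mem' := fun ⟨⟨c, h⟩, k⟩ ⟨⟨c', h'⟩, k'⟩ => ⟨⟨c + c', fun e he z hz =>
    ⟨((h e he z hz).1.and (h' e he z hz).1).mono fun _ l => l.1.add l.2, fun l => by
      simp only [Pi.add_apply, (h e he z hz).2 l, (h' e he z hz).2 l, add_smul]⟩⟩,
    fun x hx => by rw [Pi.add_apply, k x hx, k' x hx, add_zero]⟩
  zero_mem' := ⟨⟨0, fun _ _ _ _ => ⟨.of_forall fun _ => differentiableAt_const _,
    fun _ => (zero_smul ℂ _).symm⟩⟩, fun _ _ => rfl⟩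
  smul_mem' := fun a _ ⟨⟨c, h⟩, k⟩ => ⟨⟨a • c, fun e he z hz =>
    ⟨(h e he z hz).1.mono fun _ l => l.const_smul a, fun l => by
      simp only [Pi.smul_apply, (h e he z hz).2 l, smul_assoc]⟩⟩,
    fun x hx => by rw [Pi.smul_apply, k x hx, smul_zero]⟩

theorem fin [M.Cpt] (h : Lq p q) (h0 : ∃ x, 0 < p x) : FiniteDimensional ℂ (sp p q) := by
  have hB := dn h
  have hO := hB.dense (h0.imp fun x hx => oo h hx)
  obtain ⟨V⟩ := exists_cv M
  obtain ⟨m, hm⟩ := hB.unif V
  choose c hc using fun F : sp p q => F.2.1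
  have ct : ∀ F a, ∀ w ∈ (V.e a).target, ContinuousAt (c F (V.e a)) w := fun F a w hw =>
    (hc F _ (V.mem a) w hw).1.self_of_nhds.continuousAt
  have fr : ∀ a, ∀ w ∈ (V.e a).target, ∃ᶠ v in 𝓝 w, (V.e a).symm v ∈ Oo M q ∧
      ∀ F, c F (V.e a) v = F.1 ((V.e a).symm v) • q (V.e a) v := fun a w hw =>
    ((fr_dense hO hw).and_eventually ((V.e a).open_target.mem_nhds hw)).mono fun v l =>
      ⟨l.1, fun F => (hc F _ (V.mem a) v l.2).2 ((hB.mem' (V.mem a) l.2).1 l.1)⟩
  have s1 : ∀ a, ∀ {t : ℝ}, t ≤ 4 → ball (V.c a) (t * V.ρ a) ⊆ closedBall (V.c a) (4 * V.ρ a) :=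
    fun a t ht => ball_subset_closedBall.trans (closedBall_subset_closedBall
      (mul_le_mul_of_nonneg_right ht (V.pos a).le))
  have s2 := fun a => (s1 a (t := 2) (by norm_num)).trans (V.sub a)
  let r : Fin V.r × σ → sp p q →ₗ[ℂ] E n → ℂ := fun j =>
    { toFun := fun F w => if w ∈ (V.e j.1).target then c F (V.e j.1) w j.2 else 0
      map_add' := fun F G => funext fun w => by
        simp only [Pi.add_apply]
        split_ifs with hw
        · exact congrFun (tendsto_nhds_unique_of_frequently_eq (ct _ _ w hw)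
            ((ct F _ w hw).add (ct G _ w hw)) ((fr _ w hw).mono fun v l => by
              simp only [l.2, Submodule.coe_add, Pi.add_apply, add_smul])) j.2
        · rw [add_zero]
      map_smul' := fun a F => funext fun w => by
        simp only [Pi.smul_apply, RingHom.id_apply]
        split_ifs with hw
        · exact congrFun (tendsto_nhds_unique_of_frequently_eq (ct _ _ w hw)
            ((ct F _ w hw).const_smul a) ((fr _ w hw).mono fun v l => by
              simp only [l.2, Submodule.coe_smul, Pi.smul_apply, smul_assoc])) j.2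
        · rw [smul_zero] }
  have er : ∀ j F, ∀ w ∈ (V.e j.1).target, r j F w = c F (V.e j.1) w j.2 := fun j F w hw =>
    if_pos hw
  obtain ⟨Φ, hΦ⟩ := SV.stSIE (SV.stJET SV.stSMO) n (m + 2) _ _ r (fun j => V.c j.1)
    (fun j => V.ρ j.1) (2 ^ m) (fun j => V.pos j.1) (by positivity)
    (by rw [pow_add]; linarith [pow_pos (two_pos (α := ℝ)) m])
    (fun j F => DifferentiableOn.congr (fun w hw => (holN_i (hc F _ (V.mem j.1) w
      (s2 _ hw)).1 j.2).self_of_nhds.differentiableWithinAt) fun w hw => er j F w (s2 _ hw))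
    fun F s s0 hs j u hu => by
      rw [er j F u (s2 _ hu)]
      refine (norm_le_pi_norm _ _).trans (le_of_not_gt fun l => ?_)
      obtain ⟨v, ⟨v1, v2⟩, v3⟩ := (((fr _ u (s2 _ hu)).and_eventually
        (isOpen_ball.eventually_mem hu)).and_eventually (continuousAt_const.eventually_lt
          (ct F _ u (s2 _ hu)).norm l)).exists
      obtain ⟨b, b1, b2⟩ := V.cov ((V.e j.1).symm v)
      have b3 := s1 b (t := 1) (by norm_num) (by rwa [one_mul])
      have k := hm j.1 b _ ⟨v, s1 _ (by norm_num) v2, rfl⟩ ⟨_, b3, (V.e b).left_inv b1⟩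
      have k2 : ‖c F (V.e b) (V.e b ((V.e j.1).symm v))‖ ≤ s :=
        (pi_norm_le_iff_of_nonneg s0).2 fun i => er (b, i) F _ (V.sub b b3) ▸ hs (b, i) _ b2
      rw [(V.e j.1).right_inv (s2 _ v2)] at k
      rw [(hc F _ (V.mem b) _ (V.sub b b3)).2 (v1.1 _ (V.mem b) b1), (V.e b).left_inv b1,
        norm_smul] at k2
      rw [v1.2, norm_smul] at v3
      refine v3.not_ge ((mul_le_mul_of_nonneg_left k (norm_nonneg _)).trans ?_)
      rw [mul_left_comm]
      exact mul_le_mul_of_nonneg_left k2 (by positivity)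
  refine Module.Finite.of_injective Φ ((injective_iff_map_eq_zero Φ).2 fun F hF =>
    Subtype.ext (funext fun x => by_contra fun l => l (F.2.2 x fun hx => ?_)))
  obtain ⟨b, b1, b2⟩ := V.cov x
  have t := (V.e b).map_source b1
  have k := (hc F _ (V.mem b) _ t).2 (oo h hx _ (V.mem b) b1)
  rw [(V.e b).left_inv b1, show c F (V.e b) (V.e b x) = 0 from funext fun i =>
    (er (b, i) F _ t).symm.trans (hΦ F hF (b, i) _
      (ball_subset_ball (by linarith [V.pos b]) b2))] at k
  exact smul_ne_zero l (oo h hx _ (V.mem b) b1) k.symm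

end FD

theorem xFD (hMR : St_MR) : St_FD := fun n M _ p hp => by
  obtain ⟨σ, _, q, h⟩ := hp.loc
  exact ⟨FD.sp p q, FD.fin h hp.ne, fun F hF => ⟨(hMR n M p F hp hF.1).2.1 σ q h, hF.2⟩⟩

end Pool.Agent.Lib.KX
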