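import Pool.Agent.Lib.KX.Blue

/-! Project kx, row FLD: the field of quotients with a denominator in a class. -/

open scoped Classical Topology ContDiff ComplexOrder Matrix ENNReal
open Set MeasureTheory Complex Metric Filter

noncomputable section

namespace Pool.Agent.Lib.KX

open Pool.Agent.Lib.HS32

theorem xFLD (hCK : St_CK) : St_FLD := by
  intro n M _ H K hK
  obtain ⟨-, c1, c2, -, -, c3⟩ := hCK n M H K hK
  let A : Subalgebra ℂ (M.X → ℂ) :=
    { carrier := {f | Mer K f}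
      mul_mem' := fun hf hg => (c2 _ _ hf hg).2
      add_mem' := fun hf hg => (c2 _ _ hf hg).1
      algebraMap_mem' := fun c => c1 c }
  let I : Ideal A :=
    { carrier := {f | ∃ p ∈ K, ∀ x ∈ Op p, f.1 x = 0}
      add_mem' := fun {f g} ⟨p, hp, h1⟩ ⟨q, hq, h2⟩ => ⟨_, hK.mul p hp q hq, fun x hx => by
        have h := (mul_pos_iff.1 (show 0 < p x * q x from hx)).resolve_right
          fun k => k.1.not_ge ((hK.lc p hp).nn x)
        exact (congrArg₂ (· + ·) (h1 x h.1) (h2 x h.2)).trans (add_zero 0)⟩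
      zero_mem' := ⟨_, hK.one, fun _ _ => rfl⟩
      smul_mem' := fun g f ⟨p, hp, h⟩ => ⟨p, hp, fun x hx =>
        (congrArg (g.1 x * ·) (h x hx)).trans (mul_zero _)⟩ }
  have hI : I.IsMaximal := Ideal.isMaximal_iff.2 ⟨fun ⟨p, hp, h⟩ => by
    obtain ⟨x, hx⟩ := (hK.lc p hp).ne
    exact one_ne_zero (α := ℂ) (h x hx), fun J f hJ hf hfJ => by
    obtain ⟨h1, ρ, hρ, h2⟩ := c3 f.1 f.2 fun p hp => by
      by_contra h
      exact hf ⟨p, hp, fun x hx => by_contra fun k => h ⟨x, hx, k⟩⟩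
    have h3 : 1 - (⟨f.1⁻¹, h1⟩ : A) * f ∈ I :=
      ⟨ρ, hρ, fun x hx => sub_eq_zero.2 (inv_mul_cancel₀ (h2 x hx)).symm⟩
    simpa using J.add_mem (hJ h3) (J.mul_mem_left ⟨f.1⁻¹, h1⟩ hfJ)⟩
  let := Ideal.Quotient.field I
  exact ⟨A, A ⧸ I, this, inferInstance, Ideal.Quotient.mkₐ ℂ I,
    fun _ => Iff.rfl, fun _ => Ideal.Quotient.eq_zero_iff_mem, Ideal.Quotient.mkₐ_surjective ℂ I⟩

end Pool.Agent.Lib.KX
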