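import Pool.Agent.Lib.KX.Blue
import Pool.Agent.Lib.SIE.Main

/-! Project kx, row FN: the generators on the open set. -/

open scoped Classical Topology ContDiff ComplexOrder Matrix ENNReal
open Set MeasureTheory Complex Metric Filter

set_option linter.unusedVariables false

noncomputable section

namespace Pool.Agent.Lib.KX

open Pool.Agent.Lib.SV (E nsq)
open Pool.Agent.Lib.HS32
open Pool.Agent.Lib.KH (HoK OnK)
open Pool.Agent.Lib.KT (Bd)
open Pool.Agent.Lib.RB9 (Pz ev)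
open Pool.Agent.Lib.RBR (Tm)

namespace FN

variable {n k : ℕ} {M : Mf n} {O : Set M.X}

theorem hk_const (c : ℂ) : HoK M O fun _ => c := fun e he w hw hO =>
  Eventually.of_forall fun u => differentiableAt_const c

theorem hk_add {f g : M.X → ℂ} (hf : HoK M O f) (hg : HoK M O g) :
    HoK M O fun x => f x + g x := fun e he w hw hO => by
  filter_upwards [hf e he w hw hO, hg e he w hw hO] with u h1 h2 using h1.add h2

theorem hk_mul {f g : M.X → ℂ} (hf : HoK M O f) (hg : HoK M O g) :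
    HoK M O fun x => f x * g x := fun e he w hw hO => by
  filter_upwards [hf e he w hw hO, hg e he w hw hO] with u h1 h2 using h1.mul h2

theorem hk_pow {f : M.X → ℂ} (hf : HoK M O f) (j : ℕ) : HoK M O fun x => f x ^ j := by
  induction j with
  | zero => simpa only [pow_zero] using hk_const (M := M) (O := O) 1
  | succ j ih => simpa only [pow_succ] using hk_mul ih hf

theorem hk_mv {z : M.X → E k} (hz : ∀ i, HoK M O fun x => z x i) (Q : MvPolynomial (Fin k) ℂ) :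
    HoK M O fun x => MvPolynomial.eval (z x) Q := by
  induction Q using MvPolynomial.induction_on with
  | C a => simpa only [MvPolynomial.eval_C] using hk_const (M := M) (O := O) a
  | add p q hp hq => simpa only [map_add] using hk_add hp hq
  | mul_X p i hp => simpa only [map_mul, MvPolynomial.eval_X] using hk_mul hp (hz i)

theorem hk_ev {z : M.X → E k} {θ : M.X → ℂ} (hz : ∀ i, HoK M O fun x => z x i) (hθ : HoK M O θ)
    (R : Pz k) : HoK M O fun x => ev R (z x) (θ x) := by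
  induction R using Polynomial.induction_on' with
  | add p q hp hq => simpa only [ev, Polynomial.eval₂_add] using hk_add hp hq
  | monomial j a =>
    simpa only [ev, Polynomial.eval₂_monomial] using hk_mul (hk_mv hz a) (hk_pow hθ j)

end FN

theorem xFN (hKIT : St_KIT) (hCK : St_CK) : St_FN := by
  intro n k M _ H K p p₀ z θ m D hK hF hp
  obtain ⟨ε, hε, hsq⟩ := hF.sq
  have l0 := hK.lc p₀ hF.mem
  obtain ⟨-, -, -, ⟨C0, hC0, hle⟩, -⟩ := hKIT n M H p₀ hK.met l0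
  obtain ⟨oP, dP, -⟩ := hKIT n M H p hK.met (hK.lc p hp)
  obtain ⟨-, -, -, -, c5, c6⟩ := hCK n M H K hK
  have hO : Op p = Op p₀ := by
    ext x
    simp only [mem_ofPred_eq, hsq x]
    refine ⟨fun h => ?_, fun h => by positivity⟩
    refine (l0.nn x).lt_of_ne' fun h0 => ?_
    simp [h0] at h
  have hb : ∀ f : M.X → ℂ, Bd (Op p₀) p₀ f → Bd (Op p) p f := fun f hf => by
    obtain ⟨h1, C, hC⟩ := hf
    refine ⟨hO ▸ h1, ε * (C * C0), fun x hx => ?_⟩
    have hx0 : x ∈ Op p₀ := hO ▸ hx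
    have h2 := hC x hx0
    have h3 : 0 ≤ normSq (f x) * p₀ x := mul_nonneg (normSq_nonneg _) (l0.nn x)
    have h4 : normSq (f x) * p₀ x * p₀ x ≤ C * C0 :=
      mul_le_mul h2 (hle x) (l0.nn x) (h3.trans h2)
    calc normSq (f x) * p x = ε * (normSq (f x) * p₀ x * p₀ x) := by rw [hsq x]; ring
      _ ≤ ε * (C * C0) := mul_le_mul_of_nonneg_left h4 hε.le
  have hz : ∀ i, HoK M (Op p) fun x => z x i := fun i => (hb _ (hF.bz i)).1
  have hθ : HoK M (Op p) θ := (hb _ hF.bθ).1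
  have idn : ∀ ρ ∈ K, ∀ f g : M.X → ℂ, HoK M (Op p) f → HoK M (Op p) g →
      (∀ y ∈ Op ρ, f y = g y) → ∀ y, 0 < p y → f y = g y := fun ρ hρ f g hf hg h y hy =>
    (hKIT n M H ρ hK.met (hK.lc ρ hρ)).2.2.2.2.2.2.1 (Op p) f g oP hf hg (fun u hu => h u hu.2) y hy
  refine ⟨hO, fun i => ?_, hb _ hF.bθ, ?_, fun Q hQ => ?_, fun F hT => ?_, fun F hT hN => ?_⟩
  · obtain ⟨h1, C, hC⟩ := hb _ (hF.bz i)
    exact ⟨h1, 1, C, fun x hx => by rw [pow_one]; exact hC x hx⟩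
  · obtain ⟨ρ, hρ, h⟩ := hF.rt
    exact idn ρ hρ _ (fun _ => 0) (FN.hk_ev hz hθ m) (FN.hk_const 0) h
  · by_contra hn
    obtain ⟨x, hx⟩ := hF.rk
    refine hQ (SIE.ind hx ((mem_closure_iff_frequently.1 (dP x)).mono fun y hy => ?_))
    filter_upwards [oP.mem_nhds hy] with u hu
    by_contra h0
    exact hn ⟨u, hu, h0⟩
  · obtain ⟨Q, R, hQ, ρ, hρ, h⟩ := hF.fn F (c5 p hp F hT).1
    exact ⟨Q, R, hQ, idn ρ hρ _ _ (FN.hk_mul (FN.hk_mv hz Q) hT.1) (FN.hk_ev hz hθ R) h⟩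
  · obtain ⟨hm, -, h3⟩ := c5 p hp F hT
    obtain ⟨ρ, hρ, hO'⟩ := h3 hN
    have oρ := (hKIT n M H ρ hK.met (hK.lc ρ hρ)).1
    have hne : ∀ p' ∈ K, ∃ x ∈ Op p', F x ≠ 0 := fun p' hp' => by
      have d' := (hKIT n M H p' hK.met (hK.lc p' hp')).2.1
      obtain ⟨x, hx1, hx2⟩ := d'.inter_open_nonempty (Op ρ) oρ (hK.lc ρ hρ).ne
      rw [hO'] at hx1
      exact ⟨x, hx2, hx1.2⟩
    obtain ⟨Q, R, hQ, ρ', hρ', h⟩ := hF.fn F⁻¹ (c6 F hm hne).1
    refine ⟨Q, R, hQ, idn _ (hK.mul ρ hρ ρ' hρ') _ _ (FN.hk_mv hz Q)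
      (FN.hk_mul hT.1 (FN.hk_ev hz hθ R)) fun y hy => ?_⟩
    have h1 : 0 < ρ y * ρ' y := hy
    have n1 := (hK.lc ρ hρ).nn y
    have n2 := (hK.lc ρ' hρ').nn y
    have h2 : y ∈ Op ρ := n1.lt_of_ne' fun h0 => by simp [h0] at h1
    have h3 : y ∈ Op ρ' := n2.lt_of_ne' fun h0 => by simp [h0] at h1
    rw [hO'] at h2
    have h4 : F y ≠ 0 := h2.2
    rw [← h y h3, Pi.inv_apply, mul_left_comm, mul_inv_cancel₀ h4, mul_one]

end Pool.Agent.Lib.KX
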