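import Pool.Agent.Lib.KX.Blue
import Pool.Agent.Lib.SIE.Main

/-! Project kx, row FRA: the adapted denominator. -/

open scoped Classical Topology
open Set Complex Filter

noncomputable section

namespace Pool.Agent.Lib.KX

open Pool.Agent.Lib.SV (E)
open Pool.Agent.Lib.HS32
open Pool.Agent.Lib.KT (Bd Iv)

namespace FRA

variable {n : ℕ} {M : Mf n} {p q : M.X → ℝ} {C : ℝ}

theorem sub (hq : ∀ x, 0 ≤ q x) (h : ∀ x, p x ≤ C * q x) : Op p ⊆ Op q := fun x hx =>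
  (hq x).lt_of_ne fun l => by
    have := h x
    rw [← l, mul_zero] at this
    exact absurd hx (not_lt.2 this)

theorem bd (hq : ∀ x, 0 ≤ q x) (hC : 0 ≤ C) (h : ∀ x, p x ≤ C * q x) {f : M.X → ℂ}
    (hf : Bd (Op q) q f) : Bd (Op p) p f := by
  obtain ⟨h1, B, hB⟩ := hf
  refine ⟨fun e he w hw hx => h1 e he w hw (sub hq h hx), C * B, fun x hx => ?_⟩
  calc normSq (f x) * p x ≤ normSq (f x) * (C * q x) :=
        mul_le_mul_of_nonneg_left (h x) (normSq_nonneg _)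
    _ = C * (normSq (f x) * q x) := by ring
    _ ≤ C * B := mul_le_mul_of_nonneg_left (hB x (sub hq h hx)) hC

theorem iv (hq : ∀ x, 0 ≤ q x) (hC : 0 ≤ C) (h : ∀ x, p x ≤ C * q x) {k : ℕ}
    {z : Fin k → M.X → ℂ} (hz : Iv (Op q) q z) : Iv (Op p) p z := by
  refine ⟨fun x hx => hz.1 x (sub hq h hx), fun e he w hw => ?_⟩
  obtain ⟨B, hB⟩ := hz.2 e he w hw
  refine ⟨C * B, hB.mono fun v hv hx a => ?_⟩
  calc ‖a‖ ^ 2 * p (e.symm v) ≤ ‖a‖ ^ 2 * (C * q (e.symm v)) :=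
        mul_le_mul_of_nonneg_left (h _) (sq_nonneg _)
    _ = C * (‖a‖ ^ 2 * q (e.symm v)) := by ring
    _ ≤ _ := (mul_le_mul_of_nonneg_left (hv (sub hq h hx) a) hC).trans_eq (mul_assoc _ _ _).symm

end FRA

theorem xFRA (hKIT : St_KIT) (hCK : St_CK) : St_FRA := by
  intro n k M _ H K z θ m D ρ cl g hρ
  obtain ⟨-, c2, c3, -, -, c6⟩ := hCK n M H K cl
  have kit := fun p hp => hKIT n M H p cl.met (cl.lc p hp)
  have nn := fun p hp => (cl.lc p hp).nn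
  have dom : ∀ u ∈ K, ∀ v ∈ K, ∀ w : M.X → ℝ, (∀ x, w x = u x * v x) →
      ∃ C, 0 ≤ C ∧ ∀ x, w x ≤ C * v x := fun u hu v hv w hw => by
    obtain ⟨-, -, -, ⟨A, A0, hA⟩, -⟩ := kit u hu
    exact ⟨A, A0.le, fun x => (hw x).trans_le (mul_le_mul_of_nonneg_right (hA x) (nn v hv x))⟩
  have mer : ∀ Q : MvPolynomial (Fin k) ℂ, Mer K fun x => MvPolynomial.eval (z x) Q := fun Q => by
    induction Q using MvPolynomial.induction_on with
    | C a => simpa only [MvPolynomial.eval_C] using c2 a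
    | add P Q hP hQ =>
      simp only [map_add]
      exact (c3 _ _ hP hQ).1
    | mul_X P i hP =>
      simp only [map_mul, MvPolynomial.eval_X]
      exact (c3 _ _ hP (g.hz i)).2
  obtain ⟨a, ha, bz, iv⟩ := cl.wed k (fun i x => z x i) g.hz g.rk
  obtain ⟨b, hb, bθ⟩ := g.hθ
  obtain ⟨-, c, hc, dz⟩ := c6 _ (mer D) fun p hp => by
    by_contra! l
    obtain ⟨x, hx⟩ := g.rk
    obtain ⟨o, d, -⟩ := kit p hp
    exact g.d0 (SIE.ind hx ((mem_closure_iff_frequently.1 (d x)).mono fun y hy =>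
      (o.eventually_mem hy).mono fun u hu => l u hu))
  have m0 := cl.mul _ ha _ (cl.mul _ hb _ (cl.mul _ hc _ hρ))
  obtain ⟨Ca, Ca0, da⟩ := dom _ (cl.mul _ hb _ (cl.mul _ hc _ hρ)) a ha
    (fun x => a x * (b x * (c x * ρ x))) fun x => by ring
  obtain ⟨Cb, Cb0, db⟩ := dom _ (cl.mul _ ha _ (cl.mul _ hc _ hρ)) b hb
    (fun x => a x * (b x * (c x * ρ x))) fun x => by ring
  obtain ⟨Cc, -, dc⟩ := dom _ (cl.mul _ ha _ (cl.mul _ hb _ hρ)) c hc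
    (fun x => a x * (b x * (c x * ρ x))) fun x => by ring
  obtain ⟨-, -, -, ⟨A, A0, hA⟩, -⟩ := kit _ (cl.mul _ m0 _ m0)
  have A1 := inv_pos.2 A0
  obtain ⟨Cr, -, dr⟩ := dom _
    (cl.scl _ (cl.mul _ m0 _ (cl.mul _ ha _ (cl.mul _ hb _ hc))) _ A1) ρ hρ
    (fun x => A⁻¹ * (a x * (b x * (c x * ρ x)) * (a x * (b x * (c x * ρ x))))) fun x => by ring
  exact ⟨_, _, ⟨g, m0, ⟨A⁻¹, A1, fun x => rfl⟩, fun i => FRA.bd (nn a ha) Ca0 da (bz i),
    FRA.bd (nn b hb) Cb0 db bθ, FRA.iv (nn a ha) Ca0 da iv,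
    fun x hx => dz x (FRA.sub (nn c hc) dc hx)⟩, cl.scl _ (cl.mul _ m0 _ m0) _ A1,
    fun x => (inv_mul_le_one₀ A0).2 (hA x), Cr, dr⟩

end Pool.Agent.Lib.KX
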