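import Pool.Agent.Lib.KX.Blue

/-! Project kx, row FRM: the frame. -/

open scoped Classical Topology ContDiff ComplexOrder Matrix ENNReal
open Set MeasureTheory Complex Metric Filter

noncomputable section

namespace Pool.Agent.Lib.KX

open Pool.Agent.Lib.SV (E nsq)
open Pool.Agent.Lib.HS32
open Pool.Agent.Lib.FI (Fb Jc dn)
open Pool.Agent.Lib.RBR (Tm Bq Oz Frm)

theorem xFRM (hKIT : St_KIT) (hCK : St_CK) (hFB : St_FB) (hDLO : St_DLO) (hFN : St_FN)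
    (hAL : St_AL) (hLOC : St_LOC) (hBDL : St_BDL) (hRIE : St_RIE) (hFD : St_FD) (hLGT : St_LGT) :
    St_FRM := by
  intro n k M _ H K Λ ψ τ c d p p₀ σ z θ m D hn hH cl b fr lσ pσ
  have lp := cl.lc p b.mem
  obtain ⟨op, -, -, -, -, kpw, -⟩ := hKIT n M H p cl.met lp
  obtain ⟨ck1, -, -, -, ck5, -⟩ := hCK n M H K cl
  obtain ⟨a, c', hc', dlo⟩ := hDLO n k M H K p p₀ z θ m D cl fr
  obtain ⟨-, f1, f2, -, f4, f5, -⟩ := hFN n k M H K p p₀ z θ m D cl fr b.mem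
  obtain ⟨T0, Tc, -⟩ := hLGT n M (Op p) Λ ψ τ op b.wt b.ms
  obtain ⟨C, hC⟩ : ∃ C, 0 < k → Fb H p z C ∧ Jc H p z p C := by
    by_cases hk : 0 < k
    · obtain ⟨C, h1, h2⟩ := hFB n k M H K p p₀ z θ m D hH cl fr hk
      exact ⟨C, fun _ => ⟨h1, lp.sm, lp.nn, fun x => ⟨fun h => ⟨h, (mul_pos_iff_of_pos_left hc').1
        ((pow_pos h a).trans_le (dlo x h))⟩, fun h => h.1⟩, h2⟩⟩
    · exact ⟨0, fun h => absurd h hk⟩
  refine ⟨C, hn, hH, (ck1 p b.mem).1, b.le1, lp.ne, pσ, lσ.ne.imp fun x h => h.ne', hC,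
    ⟨a, c', dlo⟩, hAL n k M H K Λ ψ τ c d p p₀ z θ m D cl b fr,
    ⟨1, b.low.imp fun C h x hx => (pow_one _).trans_le (h x hx)⟩, f1,
    ⟨f2.1, 1, f2.2.imp fun C h x hx => by rw [pow_one]; exact h x hx⟩, f4,
    hLOC n M Λ ψ τ p θ lp b.wt b.ms f2 b.tb, fun g hg => (ck5 p b.mem g hg).2.1,
    ⟨1, fun g hg hg0 j s F hF hJ => ?_⟩, fun s => ?_, f5⟩
  · obtain ⟨ρ, hρ, e⟩ := (ck5 p b.mem g hg).2.2 hg0
    have lρ := cl.lc ρ hρ
    have l2 := (hKIT n M H ρ cl.met lρ).2.2.2.2.1 σ lσ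
    have e2 : Op (fun x => ρ x * σ x) = Oz p σ g := Set.ext fun x =>
      ⟨fun h => by
        have h1 : 0 < ρ x * σ x := h
        have h2 : x ∈ Op p ∩ {x | g x ≠ 0} :=
          e ▸ (lρ.nn x).lt_of_ne' (left_ne_zero_of_mul h1.ne')
        exact ⟨h2.1, right_ne_zero_of_mul h1.ne', h2.2⟩, fun h => by
        have h2 : x ∈ Op ρ := e ▸ ⟨h.1, h.2.2⟩
        exact mul_pos h2 ((lσ.nn x).lt_of_ne' h.2.1)⟩
    have sub : Op (fun x => ρ x * σ x) ⊆ Op p := fun x hx => (e2 ▸ hx : x ∈ Oz p σ g).1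
    have h1 := hBDL n M H Λ ψ τ p _ j s F cl.met lp l2 sub b.wt b.ms (e2 ▸ hF) (e2 ▸ hJ)
    obtain ⟨F', ⟨h2, A, h3⟩, h4⟩ := hRIE n M (Op p) _ (fun x => M.nrC ψ τ x ^ j * p x ^ s) F l2 op
      ((Tc.pow j).mul (lp.sm.continuous.pow s).continuousOn)
      (fun y hy => mul_pos (pow_pos (T0 y hy) j) (pow_pos hy s))
      ((inter_eq_right.2 sub).symm ▸ h1)
    refine ⟨F', ⟨h2, A, fun x hx => le_trans ?_ (h3 x hx)⟩, fun x hx =>
      h4 x ⟨hx.1, e2.symm ▸ hx⟩⟩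
    refine mul_le_mul_of_nonneg_left (mul_le_mul_of_nonneg_left ?_ (pow_pos (T0 x hx) j).le)
      (normSq_nonneg _)
    exact pow_le_pow_of_le_one hx.le (b.le1 x) (by omega)
  · have e : Op (fun x => p x ^ (s + 1)) = Op p := Set.ext fun x =>
      ⟨fun h => (lp.nn x).lt_of_ne' fun h0 => by
        have h1 : 0 < p x ^ (s + 1) := h
        rw [h0, zero_pow s.succ_ne_zero] at h1
        exact h1.false, fun h => (pow_pos h _ : 0 < p x ^ (s + 1))⟩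
    obtain ⟨V, hV, hs⟩ := hFD n M _ (kpw (s + 1))
    refine ⟨V, hV, fun F hF => hs ⟨?_, fun x hx => hF.2 x fun h => hx (pow_pos h _)⟩⟩
    obtain ⟨h1, A, h2⟩ := hF.1
    rw [e]
    refine ⟨h1, A, fun x hx => le_trans ?_ (h2 x hx)⟩
    rw [pow_zero, one_mul]
    exact mul_le_mul_of_nonneg_left (pow_le_pow_of_le_one hx.le (b.le1 x) (by omega))
      (normSq_nonneg _)

end Pool.Agent.Lib.KX
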