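import Pool.Agent.Lib.KX.Blue
import Pool.Agent.Lib.SIE.Gen
import Pool.Agent.Lib.DK.B_PAI

/-! Project kx, row KIT: the kit for denominators. -/

open scoped Classical Topology
open Set MeasureTheory Complex Metric Filter

noncomputable section

namespace Pool.Agent.Lib.KX

open Pool.Agent.Lib.SV (E)
open Pool.Agent.Lib.HS32

namespace KIT

variable {n : ℕ} {M : Mf n} {p p' : M.X → ℝ} {σ σ' : Type} [Fintype σ] [Fintype σ']
  {q : M.Fam (σ → ℂ)}

theorem zs (h : Lq p q) : M.All fun e z => 0 < p (e.symm z) ↔ q e z ≠ 0 := fun e he z hz => by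
  obtain ⟨C, C0, hC⟩ := h.cmp e he z hz
  obtain ⟨a, b⟩ := hC.self_of_nhds
  refine ⟨fun k l => ?_, fun k => ?_⟩
  · rw [l, norm_zero, zero_pow two_ne_zero, mul_zero] at a
    exact k.not_ge a
  · exact pos_of_mul_pos_left ((pow_pos (norm_pos_iff.2 k) 2).trans_le (b.trans_eq (mul_comm _ _)))
      C0.le

theorem dn (h : Lq p q) : SIE.Dn M q := ⟨h.hol, fun e he e' he' x hx hx' => by
  obtain ⟨C, C0, hC⟩ := h.cmp e he _ (e.map_source hx)
  obtain ⟨C', C0', hC'⟩ := h.cmp e' he' _ (e'.map_source hx')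
  refine ⟨Real.sqrt (C * C'), ?_⟩
  filter_upwards [(e.continuousAt hx).eventually hC, (e'.continuousAt hx').eventually hC',
    e.open_source.eventually_mem hx, e'.open_source.eventually_mem hx'] with y a b c d
  rw [e.left_inv c] at a
  rw [e'.left_inv d] at b
  refine (pow_le_pow_iff_left₀ (norm_nonneg _) (by positivity) two_ne_zero).1 ?_
  rw [mul_pow, Real.sq_sqrt (mul_pos C0 C0').le, mul_assoc]
  exact a.2.trans (mul_le_mul_of_nonneg_left b.1 C0.le)⟩

theorem oo (h : Lq p q) : SIE.Oo M q = Op p := Set.ext fun x => by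
  obtain ⟨e, he, hx⟩ := M.cov x
  have hz := e.map_source hx
  have := ((dn h).mem' he hz).trans (zs h e he _ hz).symm
  rwa [e.left_inv hx] at this

theorem opn (h : Lc p) : IsOpen (Op p) := isOpen_lt continuous_const h.sm.continuous

theorem den [M.Cpt] (h : Lc p) : Dense (Op p) := by
  obtain ⟨σ, _, q, hq⟩ := h.loc
  rw [← oo hq]
  exact (dn hq).dense (by rw [oo hq]; exact h.ne)

theorem nrm (a : σ → ℂ) (b : σ' → ℂ) : ‖fun i : σ × σ' => a i.1 * b i.2‖ = ‖a‖ * ‖b‖ := by
  refine le_antisymm ((pi_norm_le_iff_of_nonneg (by positivity)).2 fun i => ?_) ?_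
  · rw [norm_mul]
    exact mul_le_mul (norm_le_pi_norm a _) (norm_le_pi_norm b _) (norm_nonneg _) (norm_nonneg _)
  · rw [mul_comm, ← norm_norm b, ← norm_smul]
    refine (pi_norm_le_iff_of_nonneg (norm_nonneg _)).2 fun i => ?_
    rw [Pi.smul_apply, norm_smul, norm_norm, mul_comm, ← norm_smul]
    exact (pi_norm_le_iff_of_nonneg (norm_nonneg _)).2 fun j =>
      norm_le_pi_norm (fun i : σ × σ' => a i.1 * b i.2) (i, j)

theorem mul [M.Cpt] (h : Lc p) (h' : Lc p') : Lc fun x => p x * p' x := by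
  obtain ⟨σ, _, q, hq⟩ := h.loc
  obtain ⟨σ', _, q', hq'⟩ := h'.loc
  obtain ⟨x, x1, x2⟩ := (den h').inter_open_nonempty _ (opn h) h.ne
  refine ⟨h.sm.mul h'.sm, fun x => mul_nonneg (h.nn x) (h'.nn x), ⟨x, mul_pos x1 x2⟩, σ × σ',
    inferInstance, fun e w i => q e w i.1 * q' e w i.2, fun e he z hz => ?_, fun e he z hz => ?_⟩
  · filter_upwards [hq.hol e he z hz, hq'.hol e he z hz] with w a b
    exact differentiableAt_pi.2 fun i =>
      (differentiableAt_pi.1 a i.1).fun_mul (differentiableAt_pi.1 b i.2)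
  obtain ⟨C, C0, hC⟩ := hq.cmp e he z hz
  obtain ⟨C', C0', hC'⟩ := hq'.cmp e he z hz
  refine ⟨C * C', mul_pos C0 C0', ?_⟩
  filter_upwards [hC, hC'] with w a b
  rw [nrm, mul_pow, mul_mul_mul_comm, mul_mul_mul_comm C C']
  exact ⟨mul_le_mul a.1 b.1 (h'.nn _) (by positivity),
    mul_le_mul a.2 b.2 (sq_nonneg _) (mul_nonneg C0.le (h.nn _))⟩

theorem pw [M.Cpt] (h : Lc p) : ∀ j : ℕ, Lc fun x => p x ^ j
  | 0 => ⟨h.sm.pow 0, fun x => pow_nonneg (h.nn x) 0, h.ne.imp fun _ k => pow_pos k 0, Unit,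
      inferInstance, fun _ _ _ => 1, fun _ _ _ _ => .of_forall fun _ => differentiableAt_const _,
      fun _ _ _ _ => ⟨1, one_pos, .of_forall fun _ => by
        rw [pi_norm_const, norm_one, pow_zero, one_pow, mul_one]
        exact ⟨le_rfl, le_rfl⟩⟩⟩
  | j + 1 => by
    simp only [pow_succ]
    exact mul (pw h j) h

end KIT

open KIT in
theorem xKIT : St_KIT := by
  intro n M _ H p hH h
  refine ⟨opn h, den h, ?_, ?_, fun _ => mul h, pw h, fun O f g hO hf hg k y hy => ?_,
    fun σ _ q hq => ⟨dn hq, oo hq, zs hq⟩⟩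
  · obtain ⟨σ, _, q, hq⟩ := h.loc
    refine DK.PAI.nul hH (opn h).measurableSet.compl fun e he z hz => ?_
    have : ∃ i, ∃ᶠ u in 𝓝 z, q e u i ≠ 0 := by
      by_contra k
      refine SIE.fr_dense (den h) hz ?_
      filter_upwards [eventually_all.2 fun i => not_frequently.1 (not_exists.1 k i),
        e.open_target.eventually_mem hz] with u l1 l2 l3
      exact (zs hq e he u l2).1 l3 (funext fun i => not_not.1 (l1 i))
    obtain ⟨i, hi⟩ := this
    exact ⟨_, fun w hw => (SIE.holN_i (hq.hol e he w hw) i).self_of_nhds.differentiableWithinAt, hi,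
      fun w hw l => congrFun (by_contra fun k => l ((zs hq e he w hw).2 k) : q e w = 0) i⟩
  · obtain ⟨C, C0, hC⟩ := h.sm.exists_bound
    exact ⟨C, C0, fun x => (le_abs_self _).trans (hC x)⟩
  obtain ⟨e, he, hx⟩ := M.cov y
  have hz := e.map_source hx
  have hy' : e.symm (e y) ∈ O := by rwa [e.left_inv hx]
  have := tendsto_nhds_unique_of_frequently_eq (hf e he _ hz hy').self_of_nhds.continuousAt
    (hg e he _ hz hy').self_of_nhds.continuousAt (((SIE.fr_dense (den h) hz).and_eventually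
      ((SIE.up hx).1 (hO.eventually_mem hy))).mono fun w l => k _ ⟨l.2, l.1⟩)
  simpa only [Function.comp_apply, e.left_inv hx] using this

end Pool.Agent.Lib.KX
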