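import Pool.Agent.Lib.KX.Blue

/-! Project kx, row LGT: the norm of a meromorphic section. -/

open scoped Classical Topology ContDiff
open Set Complex Filter

noncomputable section

namespace Pool.Agent.Lib.KX

open Pool.Agent.Lib.SV (E)
open Pool.Agent.Lib.HS32
open Pool.Agent.Lib.KH (OnK SmK)

theorem xLGT : St_LGT := by
  intro n M O Λ ψ τ hO hW hM
  have k : OnK M O fun e z => M.nrC ψ τ (e.symm z) = normSq (τ e z) * Real.exp (-ψ e z) :=
    fun e he z hz ho => by
      have s := e.map_target hz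
      have a := hM.law _ (Mf.ch_mem (e.symm z)) e he _ (Mf.mem_ch _) s ho
      have b := hW.cmp _ (Mf.ch_mem (e.symm z)) e he _ (Mf.mem_ch _) s
      have c := normSq_pos.2 (Λ.ne _ (Mf.ch_mem (e.symm z)) e he _ (Mf.mem_ch _) s)
      beta_reduce at a b c ⊢
      rw [e.right_inv hz] at a b
      rw [a, b, map_mul, neg_add, Real.exp_add, Real.exp_neg (Real.log _), Real.exp_log c,
        Mf.nrC, Mf.ev, Mf.ev]
      field_simp
  have ps : ∀ y ∈ O, 0 < M.nrC ψ τ y := fun y hy => by
    have s := Mf.mem_ch y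
    refine mul_pos (normSq_pos.2 (hM.hol _ (Mf.ch_mem y) _ ((M.ch y).map_source s) ?_).2)
      (Real.exp_pos _)
    rwa [(M.ch y).left_inv s]
  have key : OnK M O fun e z =>
      ContDiffAt ℝ ∞ (fun w => Real.log (normSq (τ e w))) z ∧
      hess (fun w => (Real.log (normSq (τ e w)) : ℝ)) z = 0 ∧
      ∀ᶠ w in 𝓝 z, Real.log (M.nrC ψ τ (e.symm w)) = Real.log (normSq (τ e w)) - ψ e w :=
    fun e he z hz ho => by
      obtain ⟨h1, h2⟩ := hM.hol e he z hz ho
      obtain ⟨a1, a2, -⟩ := ((mHOL n _ z).2.2 h1).2.2.2 h2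
      refine ⟨a1, a2, ?_⟩
      filter_upwards [e.open_target.mem_nhds hz,
        (e.continuousAt_symm hz).eventually (hO.mem_nhds ho)] with w w1 w2
      have := k e he w w1 w2
      beta_reduce at this
      rw [this, Real.log_mul (normSq_pos.2 (hM.hol e he w w1 w2).2).ne' (Real.exp_pos _).ne',
        Real.log_exp, sub_eq_add_neg]
  have sm : SmK M O fun y => Real.log (M.nrC ψ τ y) := fun e he z hz ho => by
    obtain ⟨a1, -, a4⟩ := key e he z hz ho
    exact (a1.sub (hW.sm e he z hz)).congr_of_eventuallyEq a4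
  refine ⟨ps, fun y hy => ?_, sm, fun e he z hz ho => ⟨k e he z hz ho, ?_⟩,
    fun e he z hz => ?_⟩
  · have s := Mf.mem_ch y
    have a := (sm _ (Mf.ch_mem y) _ ((M.ch y).map_source s)
      (by rwa [(M.ch y).left_inv s])).continuousAt
    have b : ContinuousAt (fun x => Real.log (M.nrC ψ τ x)) y :=
      (a.comp ((M.ch y).continuousAt s)).congr
        (Filter.mem_of_superset ((M.ch y).open_source.mem_nhds s) fun x hx => by
          simp only [mem_setOf_eq, Function.comp_apply, (M.ch y).left_inv hx])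
    exact (b.rexp.continuousWithinAt (s := O)).congr (fun x hx => (Real.exp_log (ps x hx)).symm)
      (Real.exp_log (ps y hy)).symm
  · obtain ⟨a1, a2, a4⟩ := key e he z hz ho
    have e1 : M.lc (fun y => Real.log (M.nrC ψ τ y)) e =ᶠ[𝓝 z]
        fun w => ((Real.log (normSq (τ e w)) : ℝ) : ℂ) - (ψ e w : ℂ) :=
      a4.mono fun w hw => by simp only [Mf.lc, hw, ofReal_sub]
    rw [Mf.hs, hess_congr e1, hess_sub (cd_ofReal a1) (cd_ofReal (hW.sm e he z hz)), a2, zero_sub,
      Mf.hw]
  · have c := (hW.sm e he z hz).continuousAt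
    refine ⟨Real.exp (|ψ e z| + 1), Real.exp_pos _, ?_⟩
    filter_upwards [e.open_target.mem_nhds hz, c.abs.eventually_lt_const (lt_add_one _)]
      with w w1 w2 w3
    have := k e he w w1 w3
    beta_reduce at this
    have h0 := normSq_nonneg (τ e w)
    have l := abs_lt.1 w2
    rw [this]
    constructor
    · rw [mul_comm]
      exact mul_le_mul_of_nonneg_right (Real.exp_le_exp.2 (by linarith [l.1])) h0
    · rw [mul_left_comm, ← Real.exp_add]
      exact le_mul_of_one_le_right h0 (Real.one_le_exp (by linarith [l.2]))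

end Pool.Agent.Lib.KX
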