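import Pool.Agent.Lib.KX.Blue

/-! Project kx: the local data of the frame. -/

open scoped Classical Topology ContDiff ComplexOrder Matrix ENNReal
open Set MeasureTheory Complex Metric Filter

noncomputable section

namespace Pool.Agent.Lib.KX

open Pool.Agent.Lib.SV (E)
open Pool.Agent.Lib.HS32
open Pool.Agent.Lib.KH (HoK)

namespace LOC

theorem cst {X : Type} [TopologicalSpace X] {B : Set X} (hB : IsCompact B) (R : ℝ → X → Prop)
    (mono : ∀ c c' x, c ≤ c' → R c x → R c' x) (loc : ∀ x ∈ B, ∃ c, ∀ᶠ y in 𝓝 x, R c y) :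
    ∃ c, 0 ≤ c ∧ ∀ x ∈ B, R c x := by
  refine hB.induction_on (p := fun S => ∃ c, 0 ≤ c ∧ ∀ x ∈ S, R c x)
    ⟨0, le_rfl, fun _ h => h.elim⟩ (fun s t hst ⟨c, c0, h⟩ => ⟨c, c0, fun x hx => h x (hst hx)⟩)
    (fun s t ⟨c, c0, h⟩ ⟨c', _, h'⟩ => ⟨max c c', le_max_of_le_left c0, fun x hx =>
      hx.elim (fun hx => mono _ _ x (le_max_left _ _) (h x hx))
        fun hx => mono _ _ x (le_max_right _ _) (h' x hx)⟩) fun x hx => ?_
  obtain ⟨c, hc⟩ := loc x hx
  exact ⟨_, mem_nhdsWithin_of_mem_nhds hc, max c 0, le_max_right _ _,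
    fun y hy => mono _ _ y (le_max_left _ _) hy⟩

theorem hok {n : ℕ} {M : Mf n} {e : M.Ch} (he : e ∈ M.C) {W : Set M.X} (hW : W ⊆ e.source)
    {u : E n → ℂ} (hu : ∀ w ∈ e.target, HolN u w) : HoK M W fun x => u (e x) :=
  fun e' he' z hz ho => by
    have o := e'.isOpen_inter_preimage_symm e.open_source
    filter_upwards [o.mem_nhds ⟨hz, hW ho⟩] with w hw
    exact DifferentiableAt.comp (g := u) (f := e ∘ e'.symm) w
      (hu _ (e.map_source hw.2)).self_of_nhds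
      ((M.hol e he e' he').differentiableAt (o.mem_nhds hw))

theorem comp {n : ℕ} {σ : Type} [Fintype σ] {g : E n → σ → ℂ} {w : E n} (h : HolN g w) (i : σ) :
    HolN (fun v => g v i) w := h.mono fun _ hv => differentiableAt_pi.1 hv i

theorem nsq_le {σ : Type} [Fintype σ] (v : σ → ℂ) (i : σ) : normSq (v i) ≤ ‖v‖ ^ 2 := by
  rw [normSq_eq_norm_sq]
  exact pow_le_pow_left₀ (norm_nonneg _) (norm_le_pi_norm v i) 2

end LOC

open LOC in
theorem xLOC (hEXC : St_EXC) (hMR : St_MR) (hLGT : St_LGT) : St_LOC := by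
  intro n M _ Λ ψ τ p θ hp hψ hτ hθ ⟨C₀, hC₀⟩ x₀
  obtain ⟨σ, _, q, hq⟩ := hp.loc
  obtain ⟨he, hx⟩ := (mTR n M).1 x₀
  set e := M.ch x₀
  have oP : IsOpen (Op p) := isOpen_lt continuous_const hp.sm.continuous
  have hT := (hLGT n M _ Λ ψ τ oP hψ hτ).2.2.2.2 e he
  have T0 : ∀ y, 0 ≤ M.nrC ψ τ y := fun y => mul_nonneg (normSq_nonneg _) (Real.exp_pos _).le
  have nz : ∀ z ∈ e.target, 0 < p (e.symm z) → q e z ≠ 0 := fun z hz h0 h => by
    obtain ⟨C, -, hC⟩ := hq.cmp e he z hz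
    have := hC.self_of_nhds.1
    rw [h, norm_zero] at this
    linarith
  obtain ⟨c, hc⟩ := (hMR n M p θ hp hθ).2.1 σ q hq
  have ex : ∀ I : σ, ∃ g : E n → ℂ, (∀ w ∈ e.target, HolN g w) ∧
      ∀ w ∈ e.target, 0 < p (e.symm w) → g w = q e w I * τ e w := fun I => by
    refine hEXC n M p e _ hp he (fun w hw h0 => ((comp (hq.hol e he w hw) I).and
      (hτ.hol e he w hw h0).1).mono fun _ h => h.1.mul h.2) (Or.inr fun w₀ hw => ?_)
    obtain ⟨A, A0, hA⟩ := hq.cmp e he w₀ hw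
    obtain ⟨B, B0, hB⟩ := hT w₀ hw
    refine ⟨A * B * C₀, (hA.and hB).mono fun w h h0 => ?_⟩
    rw [← normSq_eq_norm_sq, map_mul]
    calc normSq (q e w I) * normSq (τ e w) ≤ A * p (e.symm w) * (B * M.nrC ψ τ (e.symm w)) :=
          mul_le_mul ((nsq_le _ I).trans h.1.2) (h.2 h0).2 (normSq_nonneg _) (by positivity)
      _ = A * B * (M.nrC ψ τ (e.symm w) * p (e.symm w)) := by ring
      _ ≤ A * B * C₀ := mul_le_mul_of_nonneg_left (hC₀ _ h0) (by positivity)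
  choose g g1 g2 using ex
  refine ⟨e.source, e.open_source.mem_nhds hx, fun W B _ hW hB hBW => ?_⟩
  obtain ⟨a, a0, ha⟩ := cst hB (fun a x => ‖q e (e x)‖ ^ 2 ≤ a * p x ∧ (0 < p x →
      normSq (τ e (e x)) ≤ a * M.nrC ψ τ x ∧ M.nrC ψ τ x ≤ a * normSq (τ e (e x))))
    (fun a a' x h ⟨h1, h2⟩ => ⟨h1.trans (mul_le_mul_of_nonneg_right h (hp.nn x)), fun h0 =>
      ⟨(h2 h0).1.trans (mul_le_mul_of_nonneg_right h (T0 x)),
        (h2 h0).2.trans (mul_le_mul_of_nonneg_right h (normSq_nonneg _))⟩⟩) fun x hxB => by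
      have hs := hW (hBW hxB)
      obtain ⟨A, -, hA⟩ := hq.cmp e he _ (e.map_source hs)
      obtain ⟨A', -, hA'⟩ := hT _ (e.map_source hs)
      refine ⟨max A A', ?_⟩
      filter_upwards [(e.continuousAt hs).eventually (hA.and hA'), e.open_source.mem_nhds hs]
        with y h hy
      rw [e.left_inv hy] at h
      exact ⟨h.1.2.trans (mul_le_mul_of_nonneg_right (le_max_left _ _) (hp.nn y)), fun h0 =>
        ⟨(h.2 h0).2.trans (mul_le_mul_of_nonneg_right (le_max_right _ _) (T0 y)),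
          (h.2 h0).1.trans (mul_le_mul_of_nonneg_right (le_max_right _ _) (normSq_nonneg _))⟩⟩
  let ι := (Fintype.equivFin σ).symm
  refine ⟨⟨Fintype.card σ, fun i x => q e (e x) (ι i), fun i x => c e (e x) (ι i),
    fun i x => g (ι i) (e x), fun x => τ e (e x), a, 1, a0, fun i =>
      ⟨hok he hW fun w hw => comp (hq.hol e he w hw) _,
        hok he hW fun w hw => comp (hc e he w hw).1 _, hok he hW (g1 _)⟩,
    fun i x hxW h0 => ?_, fun i x hxB => ?_, fun x hxB h0 => ?_, fun x hxB h0 => (ha x hxB).2 h0,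
    one_pos⟩⟩
  · have hs := hW hxW
    have h1 : 0 < p (e.symm (e x)) := by rwa [e.left_inv hs]
    refine ⟨?_, g2 _ _ (e.map_source hs) h1⟩
    rw [(hc e he _ (e.map_source hs)).2 (nz _ (e.map_source hs) h1), e.left_inv hs, Pi.smul_apply,
      smul_eq_mul, mul_comm]
  · rw [pow_one]
    exact (nsq_le _ _).trans (ha x hxB).1
  · have hs := hW (hBW hxB)
    obtain ⟨I, hI⟩ := Function.ne_iff.1 (nz _ (e.map_source hs) (by rwa [e.left_inv hs]))
    exact ⟨ι.symm I, by rwa [ι.apply_symm_apply]⟩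

end Pool.Agent.Lib.KX
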