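import Pool.Agent.Lib.KX.Blue
import Pool.Agent.Lib.KT.B_MIN

/-! Project kx, row MN2: the minors of a matrix of covectors alternate. -/

open scoped Classical Matrix
open Matrix Finset

noncomputable section

namespace Pool.Agent.Lib.KX

open Pool.Agent.Lib.SV (E)
open Pool.Agent.Lib.HS32
open Pool.Agent.Lib.RAA (kp kq)
open Pool.Agent.Lib.KT.MIN

namespace MN2

variable {k m : ℕ}

theorem dif (L : Fin m → Fin (k + m)) :
    Differentiable ℂ fun a : Fin k → E (k + m) →L[ℂ] ℂ => dl a L := by
  simp only [dl, det_mx]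
  fun_prop

theorem hom (a : Fin k → E (k + m) →L[ℂ] ℂ) (c : Fin k → ℂ) :
    dl (fun i => c i • a i) = (∏ i, c i) • dl a := funext fun L => by
  simp only [dl, det_mx, Pi.smul_apply, smul_eq_mul, _root_.smul_apply,
    prod_mul_distrib, mul_sum]
  exact sum_congr rfl fun σ _ => by ring

theorem law (a a' : Fin k → E (k + m) →L[ℂ] ℂ) (J : Mat (k + m))
    (h : ∀ i v, a' i v = a i (J *ᵥ v)) : J.det • dl a = kp m J *ᵥ dl a' := funext fun L => by
  rw [Pi.smul_apply, smul_eq_mul, mul_comm, dl, ← det_mul]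
  refine Eq.trans (congrArg det (Matrix.ext fun r j => ?_)) (expand a' fun p => J (L p))
  refine Fin.addCases (fun r => ?_) (fun r => ?_) r
  · simp only [mx, mul_apply, of_apply, Fin.append_left, h, app, mulVec_single_one]
    rfl
  · simp [mx, mul_apply, Pi.single_apply]

theorem ne (a : Fin k → E (k + m) →L[ℂ] ℂ) :
    dl a ≠ 0 ↔ Function.Surjective (ContinuousLinearMap.pi a) := by
  refine ⟨fun h c => ?_, fun h h0 => ?_⟩
  · obtain ⟨L, hL⟩ := Function.ne_iff.1 h
    obtain ⟨v, hv⟩ := mulVec_surjective_iff_isUnit.2 ((isUnit_iff_isUnit_det _).2 (Ne.isUnit hL))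
      (Fin.append c 0)
    exact ⟨v, funext fun i => ((mv a _ v).1 i).symm.trans (by rw [hv, Fin.append_left])⟩
  · let T := (ContinuousLinearMap.pi a).toLinearMap
    have e := T.finrank_range_add_finrank_ker
    rw [LinearMap.range_eq_top.2 h, finrank_top] at e
    simp only [Module.finrank_fintype_fun_eq_card, Fintype.card_fin, add_right_inj] at e
    obtain ⟨q, hq⟩ := (LinearMap.ker T).subtype.exists_leftInverse_of_injective
      (Submodule.ker_subtype _)
    let φ := (Module.finBasisOfFinrankEq ℂ _ e).equivFun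
    obtain ⟨v, v0, hv⟩ := exists_mulVec_eq_zero_iff.2 (show (mx a fun p j =>
      φ (q (Pi.single j 1)) p).det = 0 by simp [expand, h0])
    have h1 : v ∈ LinearMap.ker T := funext fun i => ((mv a _ v).1 i).symm.trans (congrFun hv _)
    have h2 : φ (q v) = 0 := funext fun p => by
      refine Eq.trans ?_ (((mv a _ v).2 p).symm.trans (congrFun hv _))
      conv_lhs => rw [pi_eq_sum_univ' v, map_sum, map_sum]
      simp [dotProduct, mul_comm]
    exact v0 (congrArg Subtype.val ((LinearMap.congr_fun hq ⟨v, h1⟩).symm.trans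
      (φ.map_eq_zero_iff.1 h2)))

theorem est (a : Fin k → E (k + m) →L[ℂ] ℂ) (c : Fin k → ℂ) :
    ‖c‖ * ‖dl a‖ ≤ (k + m).factorial * (1 + ‖a‖) ^ k * ‖∑ i, c i • a i‖ := by
  rw [mul_comm, ← norm_norm (dl a), ← norm_smul]
  refine (pi_norm_le_iff_of_nonneg (by positivity)).2 fun i => ?_
  rw [Pi.smul_apply, norm_smul, norm_norm, mul_comm, ← norm_smul]
  refine (pi_norm_le_iff_of_nonneg (by positivity)).2 fun L => ?_
  rw [Pi.smul_apply, smul_eq_mul, upd, mul_assoc]
  refine (bound _ L).trans (mul_le_mul_of_nonneg_left ?_ (Nat.cast_nonneg _))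
  rw [← mul_prod_erase _ _ (mem_univ i), Function.update_self, mul_comm]
  refine mul_le_mul_of_nonneg_right ?_ (norm_nonneg _)
  refine (prod_le_prod (fun _ _ => norm_nonneg _) (g := fun _ => 1 + ‖a‖) fun j hj => ?_).trans ?_
  · rw [Function.update_of_ne (ne_of_mem_erase hj)]
    exact (norm_le_pi_norm a j).trans (le_add_of_nonneg_left zero_le_one)
  · rw [prod_const]
    exact pow_le_pow_right₀ (le_add_of_nonneg_right (norm_nonneg _))
      ((card_le_univ _).trans_eq (Fintype.card_fin k))

theorem alt (a : Fin k → E (k + m) →L[ℂ] ℂ) : Ab (fun _ : Fin m => (0 : Fin 1)) (dl a) := by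
  intro L p p' h _
  have := det_permute (Equiv.swap (Fin.natAdd k p) (Fin.natAdd k p'))
    (mx a fun r => Pi.single (L r) 1)
  rw [Equiv.Perm.sign_swap fun c => h (Fin.natAdd_injective _ _ c)] at this
  refine Eq.trans (congrArg det (Matrix.ext fun r j => ?_)) (this.trans (by simp [dl]))
  refine Fin.addCases (fun r => ?_) (fun r => ?_) r
  · have c : ∀ s : Fin m, Fin.castAdd m r ≠ Fin.natAdd k s := fun s c => by
      have := congrArg Fin.val c
      have := r.2
      simp only [Fin.val_natAdd, Fin.val_castAdd] at *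
      omega
    rw [submatrix_apply, Equiv.swap_apply_of_ne_of_ne (c p) (c p')]
    simp only [mx, of_apply, Fin.append_left, id]
  · rw [submatrix_apply, (Fin.natAdd_injective m k).swap_apply]
    simp only [mx, of_apply, Fin.append_right, id, Function.comp_apply]

end MN2

open MN2 in
theorem xMN2 : St_MN2 := fun _ _ => ⟨dl, dif, hom, law, ne, ⟨_, est⟩, alt⟩

end Pool.Agent.Lib.KX
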