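import Pool.Agent.Lib.KX.Blue
import Pool.Agent.Lib.SIE.Gen

/-! Project kx: numerators of bounded quotients and the size of their differentials. -/

open scoped Classical Topology ContDiff ComplexOrder Matrix ENNReal
open Set MeasureTheory Complex Metric Filter

noncomputable section

namespace Pool.Agent.Lib.KX

open Pool.Agent.Lib.SV (E nsq)
open Pool.Agent.Lib.HS32
open Pool.Agent.Lib.KT (Bd LB df)

namespace MR

variable {n : ℕ} {M : Mf n} {p : M.X → ℝ} {σ : Type} [Fintype σ] {q : M.Fam (σ → ℂ)}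

theorem pos_iff (h : Lq p q) {e : M.Ch} (he : e ∈ M.C) {z : E n} (hz : z ∈ e.target) :
    0 < p (e.symm z) ↔ q e z ≠ 0 := by
  obtain ⟨C, hC, h1⟩ := h.cmp e he z hz
  obtain ⟨a, b⟩ := h1.self_of_nhds
  refine ⟨fun h0 hq => ?_, fun hq => ?_⟩
  · rw [hq, norm_zero, zero_pow two_ne_zero, mul_zero] at a
    exact absurd h0 (not_lt.2 a)
  · exact (mul_pos_iff_of_pos_left hC).1 ((pow_pos (norm_pos_iff.2 hq) 2).trans_le b)

theorem den (h : Lq p q) : SIE.Dn M q := ⟨h.hol, fun e he e' he' x hx hx' => by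
  obtain ⟨C, hC, h1⟩ := h.cmp e he (e x) (e.map_source hx)
  obtain ⟨C', hC', h2⟩ := h.cmp e' he' (e' x) (e'.map_source hx')
  refine ⟨C * C' + 1, ?_⟩
  filter_upwards [(e.continuousAt hx).eventually h1, (e'.continuousAt hx').eventually h2,
    e.open_source.mem_nhds hx, e'.open_source.mem_nhds hx'] with y a b hy hy'
  rw [e.left_inv hy] at a
  rw [e'.left_inv hy'] at b
  have k := mul_pos hC hC'
  refine (pow_le_pow_iff_left₀ (norm_nonneg _) (by positivity) two_ne_zero).1 ?_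
  have l := a.2.trans (mul_le_mul_of_nonneg_left b.1 hC.le)
  have s := sq_nonneg ‖q e' (e' y)‖
  rw [mul_pow]
  nlinarith [mul_nonneg (sq_nonneg (C * C')) s, mul_nonneg k.le s]⟩

theorem num (hEXC : St_EXC) [M.Cpt] {f : M.X → ℂ} (hp : Lc p) (hf : Bd (Op p) p f) (h : Lq p q) :
    ∃ c, SIE.Mu M q f c := by
  obtain ⟨hf, C₀, h0⟩ := hf
  have key : ∀ (e : M.Ch) (i : σ), ∃ g : E n → ℂ, e ∈ M.C → (∀ w ∈ e.target, HolN g w) ∧
      ∀ w ∈ e.target, 0 < p (e.symm w) → g w = f (e.symm w) * q e w i := by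
    intro e i
    by_cases he : e ∈ M.C
    · obtain ⟨g, hg⟩ := hEXC n M p e (fun w => f (e.symm w) * q e w i) hp he
        (fun w hw ho => ((hf e he w hw ho).and (SIE.holN_i (h.hol e he w hw) i)).mono
          fun _ l => l.1.mul l.2) (Or.inr fun w₀ hw₀ => by
          obtain ⟨C, hC, h1⟩ := h.cmp e he w₀ hw₀
          refine ⟨C * C₀, h1.mono fun w a ho => ?_⟩
          have l := (pow_le_pow_left₀ (norm_nonneg _) (norm_le_pi_norm (q e w) i) 2).trans a.2
          have m := mul_le_mul_of_nonneg_left (h0 _ ho) hC.le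
          rw [normSq_eq_norm_sq] at m
          rw [norm_mul, mul_pow]
          nlinarith [mul_le_mul_of_nonneg_left l (sq_nonneg ‖f (e.symm w)‖)])
      exact ⟨g, fun _ => hg⟩
    · exact ⟨0, fun l => absurd l he⟩
  choose g hg using key
  refine ⟨fun e w i => g e i w, fun e he z hz => ⟨?_, fun hq => funext fun i => ?_⟩⟩
  · exact (eventually_all.2 fun i => (hg e i he).1 z hz).mono fun _ l => differentiableAt_pi.2 l
  · exact (hg e i he).2 z hz ((pos_iff h he hz).2 hq)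

theorem bdd {g : E n → σ → ℂ} {z : E n} (h : HolN g z) :
    ∃ A > (0 : ℝ), ∀ᶠ w in 𝓝 z, ‖g w‖ ≤ A ∧ ‖fderiv ℂ g w‖ ≤ A := by
  have l := SV.H85.contDiffAt_nat h 1
  have a := l.continuousAt.norm.eventually (gt_mem_nhds (lt_add_one ‖g z‖))
  have b := (l.continuousAt_fderiv (by simp)).norm.eventually
    (gt_mem_nhds (lt_add_one ‖fderiv ℂ g z‖))
  refine ⟨‖g z‖ + ‖fderiv ℂ g z‖ + 1, by positivity, ?_⟩
  filter_upwards [a, b] with w a b
  exact ⟨by linarith [norm_nonneg (fderiv ℂ g z)], by linarith [norm_nonneg (g z)]⟩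

theorem grad {f : M.X → ℂ} {c : M.Fam (σ → ℂ)} (hp : Lc p) (hf : Bd (Op p) p f) (h : Lq p q)
    (hc : SIE.Mu M q f c) : LB (Op p) fun e w => ‖df f e w‖ ^ 2 * p (e.symm w) ^ 2 := by
  intro e he z hz
  obtain ⟨C, hC, h1⟩ := h.cmp e he z hz
  obtain ⟨A, hA, h2⟩ := bdd (h.hol e he z hz)
  obtain ⟨B, hB, h3⟩ := bdd (hc e he z hz).1
  refine ⟨(C * (2 * (A * B))) ^ 2, ?_⟩
  filter_upwards [h1, h2, h3, e.open_target.mem_nhds hz] with w a b d hw ho
  have ev : c e =ᶠ[𝓝 w] fun u => (f ∘ e.symm) u • q e u := by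
    filter_upwards [e.open_target.mem_nhds hw,
      (hp.sm e he w hw).continuousAt.eventually (lt_mem_nhds ho)] with u hu hu'
    exact (hc e he u hu).2 ((pos_iff h he hu).1 hu')
  have fd := ev.fderiv_eq (𝕜 := ℂ)
  rw [fderiv_fun_smul (hf.1 e he w hw ho).self_of_nhds (h.hol e he w hw).self_of_nhds] at fd
  have n1 : ‖df f e w‖ * ‖q e w‖ ≤ B + ‖f (e.symm w)‖ * A := by
    rw [← ContinuousLinearMap.norm_smulRight_apply, ← sub_eq_iff_eq_add'.2 fd]
    refine (norm_sub_le _ _).trans (add_le_add d.2 ?_)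
    rw [norm_smul]
    exact mul_le_mul_of_nonneg_left b.2 (norm_nonneg _)
  have n2 : ‖f (e.symm w)‖ * ‖q e w‖ ≤ B := by
    rw [← norm_smul]
    exact (le_of_eq (congrArg norm ev.self_of_nhds.symm)).trans d.1
  have n3 : ‖df f e w‖ * ‖q e w‖ ^ 2 ≤ 2 * (A * B) := by
    nlinarith [mul_le_mul_of_nonneg_right n1 (norm_nonneg (q e w)),
      mul_le_mul_of_nonneg_left b.1 hB.le, mul_le_mul_of_nonneg_left n2 hA.le]
  rw [← mul_pow]
  refine pow_le_pow_left₀ (mul_nonneg (norm_nonneg _) (hp.nn _)) ?_ 2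
  nlinarith [mul_le_mul_of_nonneg_left a.1 (norm_nonneg (df f e w)),
    mul_le_mul_of_nonneg_left n3 hC.le]

end MR

theorem xMR (hEXC : St_EXC) : St_MR := by
  intro n M _ p f hp hf
  obtain ⟨σ, _, q, hq⟩ := hp.loc
  obtain ⟨c, hc⟩ := MR.num hEXC hp hf hq
  obtain ⟨x, hx⟩ := hp.ne
  exact ⟨⟨σ, _, q, c, MR.den hq, ⟨x, fun e he hx' => (MR.pos_iff hq he (e.map_source hx')).1
    (by rwa [e.left_inv hx'])⟩, hc⟩, fun σ _ q hq => MR.num hEXC hp hf hq, MR.grad hp hf hq hc⟩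

end Pool.Agent.Lib.KX
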