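import Pool.Agent.Lib.KX.Blue
import Pool.Agent.Lib.NV5.X_MV
import Pool.Agent.Lib.NV5.D_NRM
import Pool.Agent.Lib.NV5.D_PRK
import Pool.Agent.Lib.NV5.D_LOG

/-! Project kx, row PAZ: the norms of two proportional twisted tensors. -/

open scoped Classical Topology ContDiff ComplexOrder Matrix ENNReal
open Set MeasureTheory Complex Metric Filter

noncomputable section

namespace Pool.Agent.Lib.KX

open Pool.Agent.Lib.SV (E nsq)
open Pool.Agent.Lib.HS32 Pool.Agent.Lib.DM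
open Pool.Agent.Lib.RAA (kp hl)

namespace PAZ

variable {n : ℕ}

/-- The Hessian of the logarithm of a weighted function. -/
theorem hl_w {U u ψ b₁ b₂ : E n → ℝ} {z : E n} (a b : ℝ) (hu : ContDiffAt ℝ ∞ u z) (u0 : u z ≠ 0)
    (hψ : ContDiffAt ℝ ∞ ψ z) (h₁ : ContDiffAt ℝ ∞ b₁ z) (h₂ : ContDiffAt ℝ ∞ b₂ z)
    (e : ∀ᶠ w in 𝓝 z, U w = u w * Real.exp (-ψ w) * Real.exp (-(a * b₁ w + b * b₂ w))) :
    hl U z = hl u z - (hess (fun w => (ψ w : ℂ)) z + (a • hess (fun w => (b₁ w : ℂ)) z +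
      b • hess (fun w => (b₂ w : ℂ)) z)) := by
  have c : ∀ {f : E n → ℝ}, ContDiffAt ℝ ∞ f z → ContDiffAt ℝ ∞ (fun w => (f w : ℂ)) z :=
    fun h => ofRealCLM.contDiff.contDiffAt.comp z h
  unfold hl
  rw [← Complex.coe_smul, ← Complex.coe_smul, ← hess_const_mul _ (c h₁), ← hess_const_mul _ (c h₂),
    ← hess_add (contDiffAt_const.mul (c h₁)) (contDiffAt_const.mul (c h₂)),
    ← hess_add (c hψ) ((contDiffAt_const.mul (c h₁)).add (contDiffAt_const.mul (c h₂))),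
    ← hess_sub (c (hu.log u0))
      ((c hψ).add ((contDiffAt_const.mul (c h₁)).add (contDiffAt_const.mul (c h₂))))]
  refine hess_congr ?_
  filter_upwards [e, hu.continuousAt.eventually_ne u0] with w h h0
  rw [h, Real.log_mul (mul_ne_zero h0 (Real.exp_ne_zero _)) (Real.exp_ne_zero _),
    Real.log_mul h0 (Real.exp_ne_zero _), Real.log_exp, Real.log_exp]
  push_cast
  ring

end PAZ

open PAZ in
theorem xPAZ (hKIT : St_KIT) (hZKT : St_ZKT) (hZNU : St_ZNU) (hTRC : St_TRC) : St_PAZ := by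
  rintro n M _ H Θ₁ Θ₂ _ g hH ⟨τ, rfl⟩ hg
  obtain ⟨t, ht, -, hO⟩ := hZNU n M H Θ₁ Θ₂ τ g hH hg
  obtain ⟨a, b, a0, b0, hab⟩ := τ.cn
  refine ⟨τ.B + (a + b), by positivity, fun G Q b₁ b₂ hG hQ Q0 hL s₁ s₂ l₁ l₂ => ?_⟩
  obtain ⟨hv, hC⟩ := dCRV n τ.N τ.B
  obtain ⟨r1, r2, -⟩ := (mINV n M G hG.toMet).1 Q hQ.toTen
  obtain ⟨K, K0, hK⟩ := r2.exists_bound
  obtain ⟨C, C0, hC⟩ := hC M G hG.toMet
  obtain ⟨C', C0', hC', -⟩ := (mBD n M G hG.toMet).1 Q hQ
  obtain ⟨z₁, -, -, z₄, -, z₆⟩ := hZKT n M G τ.N τ.B τ.Λ τ.ψ hG.toMet τ.wt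
  obtain ⟨sV, -, pV, lV⟩ := z₆ _ τ.lz
  have pH := ((hZKT n M H τ.N τ.B τ.Λ τ.ψ hH τ.wt).2.2.2.2.2 _ τ.lz).2.2.1
  have near : M.All fun e z => ∀ᶠ w in 𝓝 z, SmM (G e) w ∧ (G e w).PosDef :=
    fun e he _ hz => (e.open_target.eventually_mem hz).mono fun w hw =>
      ⟨hG.sm e he w hw, hG.pos e he w hw⟩
  have pt : ∀ {p : M.X → Prop}, (M.All fun e z => p (e.symm z)) → ∀ x, p x := fun h x => by
    obtain ⟨e, he, hx⟩ := M.cov x
    exact e.left_inv hx ▸ h e he _ (e.map_source hx)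
  let ρ : M.X → ℝ := fun x => Real.exp (-(a * b₁ x + b * b₂ x))
  have ρ0 : ∀ x, 0 < ρ x := fun x => Real.exp_pos _
  have sρ : M.Sm ρ := fun e he z hz => (((contDiffAt_const.mul (s₁ e he z hz)).add
    (contDiffAt_const.mul (s₂ e he z hz))).neg).exp
  let V : M.X → ℝ := fun x => nw G τ.B τ.ψ τ.s x * ρ x
  let W : M.X → ℝ := fun x => nw G τ.B τ.ψ t x * ρ x
  have hV : M.Sm V := fun e he z hz => (sV e he z hz).mul (sρ e he z hz)
  have V0 : ∀ x, 0 ≤ V x := fun x => mul_nonneg (z₄ _ x) (ρ0 x).le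
  have vs : M.All fun e z => V (e.symm z) ≠ 0 ↔ τ.s e z ≠ 0 := fun e he z hz =>
    ((mul_ne_zero_iff_right (ρ0 _).ne').trans (z₄ _ _).lt_iff_ne'.symm).trans (pV e he z hz)
  have vo : ∀ x, V x ≠ 0 ↔ x ∈ Op (τ.pn H) := pt fun e he z hz =>
    (vs e he z hz).trans (pH e he z hz).symm
  have wv : ∀ x ∈ Op (τ.pn H), W x = V x * normSq (g x) :=
    pt (p := fun x => x ∈ Op (τ.pn H) → _) fun e he z hz h => by
      simp only [V, W]
      rw [z₁ _ _ τ.lz e he z hz trivial, z₁ _ _ ht e he z hz trivial]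
      unfold uv
      rw [hO e he z hz h, NRM.hq_smul]
      ring
  have eh : M.All fun e z => τ.s e z ≠ 0 → ∃ S : Mat n, S.PosSemidef ∧
      hl (V ∘ e.symm) z = hl (uv τ.N τ.B (G e) (τ.s e)) z - (a + b) • Q e z + S :=
    fun e he z hz s0 => by
      have k := hv _ (τ.s e) z (near e he z hz) (τ.lz.hol e he z hz trivial)
      refine ⟨_, ((l₁ e he z hz).smul a0).add ((l₂ e he z hz).smul b0), ?_⟩
      rw [hl_w (U := V ∘ e.symm) a b k.1 (k.2.2.1.not.2 s0) (τ.wt.sm e he z hz) (s₁ e he z hz) (s₂ e he z hz)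
        ((e.open_target.eventually_mem hz).mono fun w hw => congrArg (· * ρ (e.symm w))
          (z₁ _ _ τ.lz e he w hw trivial)), show hess _ z = _ from hab e he z hz]
      change _ - (_ + (a • M.hs b₁ e z + b • M.hs b₂ e z)) = _
      simp only [Pi.add_apply]
      module
  have lo : M.All fun e z => τ.s e z ≠ 0 → -((τ.B + (a + b)) * M.tr G Q (e.symm z)) ≤
      trm (G e z) (hl (V ∘ e.symm) z) := fun e he z hz s0 => by
    obtain ⟨S, hS, eS⟩ := eh e he z hz s0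
    have k := hTRC n _ _ τ.β (G e) (Q e z) (τ.s e) z (near e he z hz)
      ((e.open_target.eventually_mem hz).mono fun w hw => hG.cl e he w hw)
      (τ.lz.hol e he z hz trivial) (τ.alt e he z hz) (by simpa using Q0 e he z hz)
      (by simpa [Mf.ric, sub_eq_add_neg] using hL e he z hz) s0
    have k' := Mf.trace_inv_mul_nonneg (hG.pos e he z hz) hS
    rw [eS, r1 e he z hz]
    simp only [trm, Matrix.mul_add, Matrix.mul_sub, Matrix.mul_smul, Matrix.trace_add,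
      Matrix.trace_sub, Matrix.trace_smul, add_re, sub_re, smul_re, smul_eq_mul] at k ⊢
    linarith
  refine ⟨V, W, C + (a + b) * C', (τ.B + (a + b)) * K, by positivity, by positivity,
    ⟨hV, fun e he z hz => ((z₆ _ ht).1 e he z hz).mul (sρ e he z hz), V0,
      fun x => mul_nonneg (z₄ _ x) (ρ0 x).le, ?_, fun x hx => ?_⟩, vo, wv, fun x hx => ?_⟩
  · refine measure_mono_null (fun x hx => ?_) (hKIT n M G _ hG.toMet (lV τ.nz)).2.2.1
    exact fun h => (mul_pos h (ρ0 x)).ne' hx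
  · obtain ⟨e, he, hs'⟩ := M.cov x
    have hz := e.map_source hs'
    have hx' : V (e.symm (e x)) ≠ 0 := by rwa [e.left_inv hs']
    have s0 := (vs e he _ hz).1 hx'
    refine ⟨e, he, hs', g ∘ e.symm, hg.1 e he _ hz ((vo _).1 hx'), ?_, ?_, ?_⟩
    · filter_upwards [(hV e he _ hz).continuousAt.eventually_ne hx'] with w h
      exact wv _ ((vo _).1 h)
    · obtain ⟨S, hS, eS⟩ := eh e he _ hz s0
      have := ((hC e he _ hz _ (τ.lz.hol e he _ hz trivial) s0).add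
        ((hC' e he _ hz).smul (add_nonneg a0 b0))).add hS
      rw [eS]
      refine cast (congrArg _ ?_) this
      simp only [Pi.smul_apply]
      module
    · exact (neg_le_neg (mul_le_mul_of_nonneg_left ((le_abs_self _).trans (hK _))
        (by positivity))).trans (lo e he _ hz s0)
  · obtain ⟨e, he, hs'⟩ := M.cov x
    have := lo e he _ (e.map_source hs') ((vs e he _ (e.map_source hs')).1 (by rwa [e.left_inv hs']))
    rwa [e.left_inv hs', ← PRK.ll_eq dLOG hG.toMet hV he hs' ((V0 x).lt_of_ne' hx)] at this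

end Pool.Agent.Lib.KX
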