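import Pool.Agent.Lib.KX.Blue
import Pool.Agent.Lib.KT.B_PSI

/-! Project kx, row PSI: the first base. -/

open scoped Classical Topology ContDiff ComplexOrder Matrix ENNReal
open Set MeasureTheory Complex Metric Filter

noncomputable section

namespace Pool.Agent.Lib.KX

open Pool.Agent.Lib.SV (E nsq)
open Pool.Agent.Lib.HS32
open Pool.Agent.Lib.KH (HoK OnK)
open Pool.Agent.Lib.KT (Bd)

namespace PSI

variable {n N B : ℕ} {M : Mf n} {L : M.Co}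

/-- The section `χ` of `b L` is the quotient of `t` by `s`. -/
structure Qu (L : M.Co) (b : ℕ) (s t : M.Fam ((Fin N → Fin n) → ℂ)) (χ : M.Fam ℂ) : Prop where
  hol : M.All fun e z => s e z ≠ 0 → HolN (χ e) z ∧ t e z = χ e z • s e z
  law : M.Ov fun e e' x => s e (e x) ≠ 0 → χ e' (e' x) = χ e (e x) * L.c e e' x ^ b

theorem quo (hQUZ : St_QUZ) {a b : ℕ} {s t : M.Fam ((Fin N → Fin n) → ℂ)}
    (hs : Lz univ N B (L.pw a) s) (ht : Lz univ N B (L.pw (a + b)) t)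
    (h : M.All fun e z => ∀ I I', s e z I * t e z I' = s e z I' * t e z I) :
    ∃ χ, Qu L b s t χ := by
  obtain ⟨χ, h1, h2⟩ := hQUZ n M N B _ _ s t hs ht h
  refine ⟨χ, h1, fun e he e' he' x hx hx' k => ?_⟩
  have := h2 e he e' he' x hx hx' k
  change _ * L.c e e' x ^ a = _ * L.c e e' x ^ (a + b) at this
  refine mul_right_cancel₀ (pow_ne_zero a (L.ne e he e' he' x hx hx')) (this.trans ?_)
  ring

theorem Qu.nrm (hZKT : St_ZKT) [M.Cpt] {H : M.Fam (Mat n)} {φ : M.Fam ℝ} (hH : M.Met H)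
    (hφ : M.WtC L φ) {a b : ℕ} {s t : M.Fam ((Fin N → Fin n) → ℂ)} {χ : M.Fam ℂ}
    (q : Qu L b s t χ) {x : M.X} (hx : M.ev s x ≠ 0) :
    nw H B (((a + b : ℕ) : ℝ) • φ) t x = M.nrC ((b : ℝ) • φ) χ x * nw H B ((a : ℝ) • φ) s x := by
  rw [(hZKT n M H N B _ _ hH (hφ.pw (a + b)).1).2.2.2.2.1 s t (M.ev χ x) x
    (q.hol _ (Mf.ch_mem x) _ (Mf.ch_tgt x) hx).2]
  simp only [nw, Mf.nrC, Mf.ev, Pi.smul_apply, smul_eq_mul, Nat.cast_add]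
  rw [add_mul, neg_add, Real.exp_add]
  ring

theorem quo_rep {O : Set M.X} {χ τ : M.Fam ℂ} {m j : ℕ}
    (l1 : M.Ov fun e e' x => x ∈ O → χ e' (e' x) = χ e (e x) * L.c e e' x ^ (j * m))
    (h : Ms O (L.pw m) τ) :
    OnK M O fun e w => M.ev χ (e.symm w) / M.ev τ (e.symm w) ^ j = χ e w / τ e w ^ j :=
  fun e he w hw k => by
    have hx := e.map_target hw
    have a1 := l1 e he _ (Mf.ch_mem _) _ hx (Mf.mem_ch _) k
    have a2 := h.law e he _ (Mf.ch_mem _) _ hx (Mf.mem_ch _) k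
    have a3 := L.ne e he _ (Mf.ch_mem _) _ hx (Mf.mem_ch _)
    change _ = _ * L.c _ _ _ ^ m at a2
    rw [e.right_inv hw] at a1 a2
    beta_reduce
    rw [Mf.ev, Mf.ev, a1, a2, mul_pow, ← pow_mul, mul_comm m j,
      mul_div_mul_right _ _ (pow_ne_zero _ a3)]

theorem quo_hol {O : Set M.X} (hO : IsOpen O) {χ τ : M.Fam ℂ} {m j : ℕ}
    (h1 : OnK M O fun e z => HolN (χ e) z)
    (l1 : M.Ov fun e e' x => x ∈ O → χ e' (e' x) = χ e (e x) * L.c e e' x ^ (j * m))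
    (h : Ms O (L.pw m) τ) : HoK M O fun y => M.ev χ y / M.ev τ y ^ j := fun e he z hz k => by
  have e1 : ∀ᶠ w in 𝓝 z, w ∈ e.target ∧ e.symm w ∈ O :=
    (e.open_target.eventually_mem hz).and ((e.continuousAt_symm hz).eventually_mem (hO.mem_nhds k))
  filter_upwards [e1.eventually_nhds] with w hw
  have hw0 := hw.self_of_nhds
  have b1 := (h1 e he w hw0.1 hw0.2).self_of_nhds
  have b2 := h.hol e he w hw0.1 hw0.2
  refine (b1.fun_mul ((b2.1.self_of_nhds.fun_pow j).fun_inv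
    (pow_ne_zero _ b2.2))).congr_of_eventuallyEq ?_
  exact hw.mono fun v hv => (quo_rep l1 h e he v hv.1 hv.2).trans (div_eq_mul_inv _ _)

theorem quo_nrm {φ : M.Fam ℝ} {χ τ : M.Fam ℂ} {m j : ℕ} {y : M.X} (h : M.ev τ y ≠ 0) :
    normSq (M.ev χ y / M.ev τ y ^ j) * M.nrC ((m : ℝ) • φ) τ y ^ j =
      M.nrC (((j * m : ℕ) : ℝ) • φ) χ y := by
  have h' : normSq (M.ev τ y) ^ j ≠ 0 := pow_ne_zero _ (normSq_pos.2 h).ne'
  have e : -M.ev (((j * m : ℕ) : ℝ) • φ) y = j * -M.ev ((m : ℝ) • φ) y := by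
    simp only [Mf.ev, Pi.smul_apply, smul_eq_mul, Nat.cast_mul]
    ring
  rw [Mf.nrC, Mf.nrC, e, Real.exp_nat_mul, map_div₀, map_pow, mul_pow, ← mul_assoc,
    div_mul_cancel₀ _ h']

theorem zero_of {O : Set M.X} (hO : Dense O) {k : ℕ} {V : Fin k → M.Fam ((Fin N → Fin n) → ℂ)}
    (hV : ∀ i, M.All fun e z => HolN (V i e) z) (c : Fin k → ℂ)
    (h : OnK M O fun e z => ∑ i, c i • V i e z = 0) : M.All fun e z => ∑ i, c i • V i e z = 0 :=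
  fun e he z hz => by
    by_contra k0
    have ct : ContinuousAt (fun w => ∑ i, c i • V i e w) z := tendsto_finsetSum _ fun i _ =>
      ((hV i e he z hz).self_of_nhds.continuousAt.const_smul (c i)).tendsto
    have e1 := (ct.eventually_ne k0).and (e.open_target.eventually_mem hz)
    have e2 : ∀ᶠ y in 𝓝 (e.symm z), y ∈ e.source ∧ ∑ i, c i • V i e (e y) ≠ 0 ∧ e y ∈ e.target := by
      refine (e.open_source.eventually_mem (e.map_target hz)).and ?_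
      have := (e.continuousAt (e.map_target hz)).tendsto
      rw [e.right_inv hz] at this
      exact this.eventually e1
    obtain ⟨y, y1, y2⟩ := ((mem_closure_iff_frequently.1 (hO (e.symm z))).and_eventually e2).exists
    exact y2.2.1 (h e he _ y2.2.2 (by rwa [e.left_inv y2.1]))

theorem nz_of {k : ℕ} {V : Fin k → M.Fam ((Fin N → Fin n) → ℂ)} (h : KS.Ind V) (i : Fin k) :
    ∃ e ∈ M.C, ∃ z ∈ e.target, V i e z ≠ 0 := by
  by_contra k0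
  push Not at k0
  have := congrFun (h (Pi.single i 1) fun e he z hz => by
    simp [Pi.single_apply, k0 e he z hz]) i
  simp at this

theorem cls {A : Set ℕ} (hA : A.Infinite) {m : ℕ} (hm : 0 < m) :
    ∃ a ∈ A, {j | a + j * m ∈ A}.Infinite := by
  obtain ⟨r, hr⟩ : ∃ r, (A ∩ {a | a % m = r}).Infinite := by
    by_contra k
    push Not at k
    refine hA (((Set.finite_Iio m).biUnion fun r _ => k r).subset fun a ha => ?_)
    exact mem_biUnion (Nat.mod_lt a hm) ⟨ha, rfl⟩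
  obtain ⟨a, a1, a2⟩ := hr.nonempty
  refine ⟨a, a1, Set.infinite_of_not_bddAbove ?_⟩
  rintro ⟨J, hJ⟩
  obtain ⟨b, ⟨b1, b2⟩, b3⟩ := hr.exists_gt (a + J * m)
  obtain ⟨j, hj⟩ : m ∣ b - a :=
    (Nat.modEq_iff_dvd' (by omega)).1 ((show a % m = r from a2).trans (show b % m = r from b2).symm)
  have e : a + j * m = b := by rw [mul_comm]; omega
  have := Nat.mul_le_mul_right m (hJ (show a + j * m ∈ A by rwa [e]))
  omega

end PSI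

theorem xPSI (hKIT : St_KIT) (hZKT : St_ZKT) (hZMO : St_ZMO) (hQUZ : St_QUZ) : St_PSI := by
  intro n M _ H Θ₁ Θ₂ L φ c d hH hφ hc cur ⟨N, B, C, β, S, h1, h2, hA⟩
  set A := {a : ℕ | ∃ (k : ℕ) (V : Fin k → M.Fam ((Fin N → Fin n) → ℂ)), (a + 1) ^ d ≤ C * k ∧
    KS.Ind V ∧ ∀ s, V s ∈ S a} with eA
  have zk := fun a : ℕ => hZKT n M H N B _ _ hH (hφ.pw a).1
  have bd : ∀ a, ∀ s ∈ S a, (∃ e ∈ M.C, ∃ z ∈ e.target, s e z ≠ 0) →
      nw H B ((a : ℝ) • φ) s ∈ Kz H Θ₁ Θ₂ ∧ (∀ x, 0 ≤ nw H B ((a : ℝ) • φ) s x) ∧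
      (∃ D > (0 : ℝ), ∀ x, nw H B ((a : ℝ) • φ) s x ≤ D) ∧
      M.All fun e z => 0 < nw H B ((a : ℝ) • φ) s (e.symm z) ↔ s e z ≠ 0 := fun a s hs nz => by
    obtain ⟨-, -, k1, k2⟩ := (zk a).2.2.2.2.2 s (h1 a s hs).1
    refine ⟨⟨⟨N, B, β, _, _, s, (hφ.pw a).1, ⟨a * c, 0, by positivity, le_rfl,
      fun e he z hz => ?_⟩, (h1 a s hs).1, (h1 a s hs).2, nz⟩, rfl⟩, (zk a).2.2.2.1 s,
      (hKIT n M H _ hH (k2 nz)).2.2.2.1, k1⟩
    beta_reduce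
    rw [(hφ.pw a).2 e he z hz, cur e he z hz, smul_smul, zero_smul, add_zero]
  have ex : ∀ a ∈ A, ∃ s ∈ S a, ∃ e ∈ M.C, ∃ z ∈ e.target, s e z ≠ 0 := by
    rintro a ⟨k, V, v1, v2, v3⟩
    have k0 : 0 < k := Nat.pos_of_ne_zero fun h => by
      subst h
      exact absurd v1 (not_le.2 (by positivity))
    exact ⟨_, v3 ⟨0, k0⟩, PSI.nz_of v2 _⟩
  obtain ⟨a₀, ha₀⟩ := hA.nonempty
  obtain ⟨a₁, ha₁, lt⟩ := hA.exists_gt a₀
  obtain ⟨m, rfl⟩ := Nat.exists_eq_add_of_le lt.le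
  have m0 : 0 < m := by omega
  obtain ⟨a₂, ha₂, hJ⟩ := PSI.cls hA m0
  obtain ⟨s₀, t₀, z₀⟩ := ex _ ha₀
  obtain ⟨s₁, t₁, z₁⟩ := ex _ ha₁
  obtain ⟨s₂, t₂, z₂⟩ := ex _ ha₂
  obtain ⟨k₀, n₀, ⟨D₀, d₀, b₀⟩, c₀⟩ := bd _ _ t₀ z₀
  obtain ⟨k₁, n₁, ⟨D₁, d₁, b₁⟩, c₁⟩ := bd _ _ t₁ z₁
  obtain ⟨k₂, n₂, ⟨D₂, d₂, b₂⟩, c₂⟩ := bd _ _ t₂ z₂
  obtain ⟨τ, qτ⟩ := PSI.quo hQUZ (h1 _ _ t₀).1 (h1 _ _ t₁).1 (h2 _ _ _ t₀ _ t₁)
  have nτ := fun x hx => qτ.nrm (B := B) (a := a₀) hZKT hH hφ (x := x) hx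
  generalize nw H B ((a₀ : ℝ) • φ) s₀ = p₀ at *
  generalize nw H B (((a₀ + m : ℕ) : ℝ) • φ) s₁ = p₁ at *
  obtain ⟨p₂, e₂⟩ : ∃ p₂, p₂ = nw H B ((a₂ : ℝ) • φ) s₂ := ⟨_, rfl⟩
  rw [← e₂] at k₂ n₂ b₂ c₂
  obtain ⟨-, mo, -⟩ := hZMO n M H Θ₁ Θ₂ hH
  obtain ⟨ε, eε⟩ : ∃ ε : ℝ, ε = (D₀ * D₁ * D₂)⁻¹ := ⟨_, rfl⟩
  have ε0 : 0 < ε := by rw [eε]; positivity
  have mem := (mo _ ((mo _ ((mo _ k₀).2.1 _ k₁)).2.1 _ k₂)).2.2 ε ε0
  obtain ⟨p, ep⟩ : ∃ p : M.X → ℝ, p = fun x => ε * (p₀ x * p₁ x * p₂ x) := ⟨_, rfl⟩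
  rw [← ep] at mem
  obtain ⟨op, den, -⟩ := hKIT n M H p hH (mo p mem).1
  have ps : ∀ x ∈ Op p, 0 < p₀ x ∧ 0 < p₁ x ∧ 0 < p₂ x := fun x hx => by
    have h : p₀ x * p₁ x * p₂ x ≠ 0 := fun h => by
      have : 0 < p x := hx
      rw [ep] at this
      simp only [h, mul_zero, lt_self_iff_false] at this
    exact ⟨(n₀ x).lt_of_ne' (left_ne_zero_of_mul (left_ne_zero_of_mul h)),
      (n₁ x).lt_of_ne' (right_ne_zero_of_mul (left_ne_zero_of_mul h)),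
      (n₂ x).lt_of_ne' (right_ne_zero_of_mul h)⟩
  have o₀ : OnK M (Op p) fun e z => s₀ e z ≠ 0 := fun e he z hz k => (c₀ e he z hz).1 (ps _ k).1
  have o₂ : OnK M (Op p) fun e z => s₂ e z ≠ 0 := fun e he z hz k => (c₂ e he z hz).1 (ps _ k).2.2
  have ms : Ms (Op p) (L.pw m) τ := ⟨fun e he z hz k => ⟨(qτ.hol e he z hz (o₀ e he z hz k)).1,
    fun h => (c₁ e he z hz).1 (ps _ k).2.1
      ((qτ.hol e he z hz (o₀ e he z hz k)).2.trans (by rw [h, zero_smul]))⟩,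
    fun e he e' he' x hx hx' k => qτ.law e he e' he' x hx hx'
      (o₀ e he _ (e.map_source hx) (by rwa [e.left_inv hx]))⟩
  have T0 := Mf.nrC_nonneg ((m : ℝ) • φ) τ
  have eT : ∀ x ∈ Op p, p₁ x = M.nrC ((m : ℝ) • φ) τ x * p₀ x := fun x hx =>
    nτ x (KT.PSI.at_ch o₀ hx)
  have m3 : ∀ {u v w U V W : ℝ}, 0 ≤ v → 0 ≤ w → 0 ≤ U → 0 ≤ V → u ≤ U → v ≤ V → w ≤ W →
      ε * (u * v * w) ≤ ε * (U * V * W) := fun a1 a2 a3 a4 a5 a6 a7 =>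
    mul_le_mul_of_nonneg_left (mul_le_mul (mul_le_mul a5 a6 a1 a3) a7 a2 (mul_nonneg a3 a4)) ε0.le
  refine ⟨m, m0, τ, p, (hφ.pw m).1, mem, fun x => ?_, ms, ⟨ε * (D₀ * D₀ * D₂), fun y hy => ?_⟩,
    ⟨ε * (D₁ * D₁ * D₂), fun y hy => ?_⟩, C, hJ.mono ?_⟩
  · rw [ep]
    refine (m3 (n₁ x) (n₂ x) d₀.le d₁.le (b₀ x) (b₁ x) (b₂ x)).trans_eq ?_
    rw [eε]
    exact inv_mul_cancel₀ (by positivity)
  · refine le_of_eq_of_le ?_ (mul_le_mul_of_nonneg_right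
      (m3 (n₀ y) (n₂ y) d₀.le d₀.le (b₀ y) (b₀ y) (b₂ y)) (T0 y))
    rw [ep]
    beta_reduce
    rw [eT y hy]
    ring
  · refine le_of_eq_of_le ?_ (m3 (n₁ y) (n₂ y) d₁.le d₁.le (b₁ y) (b₁ y) (b₂ y))
    have := eT y hy
    rw [ep]
    beta_reduce
    linear_combination (-(ε * p₁ y * p₂ y)) * this
  · rintro j ⟨k, V, v1, v2, v3⟩
    have q := fun i => PSI.quo hQUZ (h1 _ _ t₂).1 (h1 _ _ (v3 i)).1 (h2 _ _ _ t₂ _ (v3 i))
    choose χ q using q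
    have lw : ∀ i, M.Ov fun e e' x => x ∈ Op p →
        χ i e' (e' x) = χ i e (e x) * L.c e e' x ^ (j * m) := fun i e he e' he' x hx hx' k =>
      (q i).law e he e' he' x hx hx' (o₂ e he _ (e.map_source hx) (by rwa [e.left_inv hx]))
    refine ⟨k, fun i y => M.ev (χ i) y / M.ev τ y ^ j, le_trans (Nat.pow_le_pow_left ?_ d) v1,
      fun u hu => v2 u (PSI.zero_of den (fun i e he z hz => (h1 _ _ (v3 i)).1.hol e he z hz trivial)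
        u fun e he z hz hk => ?_), fun i => ⟨PSI.quo_hol op
          (fun e he z hz hk => ((q i).hol e he z hz (o₂ e he z hz hk)).1) (lw i) ms, ?_⟩⟩
    · have := Nat.le_mul_of_pos_right j m0
      omega
    · have h := hu _ hk
      simp only [fun i => PSI.quo_rep (lw i) ms e he z hz hk, ← mul_div_assoc, ← Finset.sum_div,
        div_eq_zero_iff, pow_ne_zero j (ms.hol e he z hz hk).2, or_false] at h
      simp only [fun i => ((q i).hol e he z hz (o₂ e he z hz hk)).2, smul_smul, ← Finset.sum_smul,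
        h, zero_smul]
    · obtain ⟨-, n₃, ⟨D₃, d₃, b₃⟩, -⟩ := bd _ _ (v3 i) (PSI.nz_of v2 i)
      refine ⟨ε * (D₀ * D₁ * D₃), fun y hy => le_of_eq_of_le ?_
        (m3 (n₁ y) (n₃ y) d₀.le d₁.le (b₀ y) (b₁ y) (b₃ y))⟩
      rw [(q i).nrm hZKT hH hφ (KT.PSI.at_ch o₂ hy), ← e₂, ← mul_assoc,
        PSI.quo_nrm (KT.PSI.at_ch ms.hol hy).2, ep]
      ring

end Pool.Agent.Lib.KX
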