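import Pool.Agent.Lib.KX.Blue
import Pool.Agent.Lib.KT.B_QUO

/-! Project kx, row QUZ: the quotient of two proportional twisted tensors. -/

open scoped Classical Topology ContDiff ComplexOrder Matrix ENNReal
open Set MeasureTheory Complex Metric Filter

set_option linter.unusedVariables false

noncomputable section

namespace Pool.Agent.Lib.KX

open Pool.Agent.Lib.SV (E nsq)
open Pool.Agent.Lib.HS32
open Pool.Agent.Lib.RAA (kp)
open Pool.Agent.Lib.KT.QUO (qu qu_eq qu_smul)

theorem xQUZ : St_QUZ := by
  intro n M N B Λ Λ' s t hs ht h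
  refine ⟨fun e z => qu (s e z) (t e z), fun e he z hz h0 => ⟨?_, qu_smul (h e he z hz) h0⟩,
    fun e he e' he' x hx hx' s0 => ?_⟩
  · obtain ⟨I, hI⟩ := Function.ne_iff.1 h0
    have h1 : HolN (fun w => s e w I) z :=
      (hs.hol e he z hz trivial).mono fun w hw => differentiableAt_pi.1 hw I
    have h3 : HolN (fun w => t e w I) z :=
      (ht.hol e he z hz trivial).mono fun w hw => differentiableAt_pi.1 hw I
    have h2 := h1.self_of_nhds.continuousAt.eventually_ne hI
    filter_upwards [h1, h3, h2, (h2.and (h.ev he hz)).eventually_nhds] with w a1 a2 a3 a4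
    exact ((a2.mul (a1.inv a3)).congr_of_eventuallyEq
      (a4.mono fun v hv => (qu_eq hv.2 hv.1).trans (div_eq_mul_inv _ _)))
  · have l1 := hs.law e he e' he' x hx hx' trivial
    have l2 := ht.law e he e' he' x hx hx' trivial
    have d0 := pow_ne_zero B ((mTR n M).2.1 e he e' he' x hx hx').2.1
    have s1 : s e' (e' x) ≠ 0 := fun s1 => by
      rw [s1, Matrix.mulVec_zero] at l1
      exact smul_ne_zero (mul_ne_zero d0 (Λ.ne e he e' he' x hx hx')) s0 l1
    have k1 := qu_smul (h e he _ (e.map_source hx)) s0
    have k2 := qu_smul (h e' he' _ (e'.map_source hx')) s1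
    rw [k1, k2, Matrix.mulVec_smul, ← l1, smul_smul, smul_smul] at l2
    refine mul_left_cancel₀ d0 ?_
    have l3 := smul_left_injective ℂ s0 l2
    dsimp only at l3 ⊢
    linear_combination -l3

end Pool.Agent.Lib.KX
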