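import Pool.Agent.Lib.KX.Blue

/-! Project kx, row REF: the refinement of a base. -/

open scoped Classical Topology
open Set Complex Filter

noncomputable section

namespace Pool.Agent.Lib.KX

open Pool.Agent.Lib.HS32
open Pool.Agent.Lib.KH (HoK)

theorem xREF (hKIT : St_KIT) : St_REF := by
  intro n M _ H K Λ ψ τ p p' c d hK hB hp h1 ⟨C, hC⟩
  have l := hK.lc p hB.mem
  have l' := hK.lc p' hp
  have C0 : 0 < C := by
    obtain ⟨x, hx⟩ := l'.ne
    exact pos_of_mul_pos_left (hx.trans_le (hC x)) (l.nn x)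
  have sub : Op p' ⊆ Op p := fun x hx => pos_of_mul_pos_right (lt_of_lt_of_le hx (hC x)) C0.le
  have T0 : ∀ x, 0 ≤ M.nrC ψ τ x := fun x => mul_nonneg (normSq_nonneg _) (Real.exp_pos _).le
  obtain ⟨A, hA⟩ := hB.low
  obtain ⟨B, hB'⟩ := hB.tb
  obtain ⟨G, hG⟩ := hB.gro
  refine ⟨hB.wt, hp, h1, ⟨fun e he z hz h => hB.ms.hol e he z hz (sub h),
    fun e he e' he' x hx hx' h => hB.ms.law e he e' he' x hx hx' (sub h)⟩,
    ⟨C * A, fun y hy => (hC y).trans ((mul_le_mul_of_nonneg_left (hA y (sub hy)) C0.le).trans_eq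
      (mul_assoc _ _ _).symm)⟩, ⟨C * B, fun y hy => (mul_le_mul_of_nonneg_left (hC y) (T0 y)).trans
        ((mul_left_comm _ _ _).trans_le (mul_le_mul_of_nonneg_left (hB' y (sub hy)) C0.le))⟩,
    G, hG.mono ?_⟩
  rintro j ⟨k, g, g1, g2, g3⟩
  refine ⟨k, g, g1, fun a ha => g2 a ?_, fun s => ?_⟩
  · refine (hKIT n M H p' hK.met l').2.2.2.2.2.2.1 (Op p) _ (fun _ => 0)
      (hKIT n M H p hK.met l).1 (fun e he z hz h => ?_)
      (fun _ _ _ _ _ => Eventually.of_forall fun _ => differentiableAt_const _)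
      fun y hy => ha y hy.2
    exact (eventually_all.2 fun s => (g3 s).1 e he z hz h).mono fun w hw =>
      DifferentiableAt.fun_sum fun s _ => (hw s).const_mul _
  · obtain ⟨k1, D, k2⟩ := g3 s
    refine ⟨fun e he z hz h => k1 e he z hz (sub h), C ^ c * D, fun y hy => le_trans ?_
      (mul_le_mul_of_nonneg_left (k2 y (sub hy)) (pow_pos C0 c).le)⟩
    beta_reduce
    rw [mul_left_comm (C ^ c), mul_left_comm (C ^ c), ← mul_pow]
    exact mul_le_mul_of_nonneg_left (mul_le_mul_of_nonneg_left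
      (pow_le_pow_left₀ (l'.nn y) (hC y) c) (pow_nonneg (T0 y) j)) (normSq_nonneg _)

end Pool.Agent.Lib.KX
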