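import Pool.Agent.Lib.KX.Blue
import Pool.Agent.Lib.KT.B_EXL

/-! Project kx, row RIE: bounded holomorphic functions extend across the zeros of a denominator. -/

open scoped Classical Topology ContDiff ComplexOrder Matrix ENNReal
open Set MeasureTheory Complex Metric Filter

noncomputable section

namespace Pool.Agent.Lib.KX

open Pool.Agent.Lib.SV (E nsq)
open Pool.Agent.Lib.HS32
open Pool.Agent.Lib.KH (HoK SmK OnK)
open Pool.Agent.Lib.KT (Bd)

namespace RIE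

variable {n : ℕ} {M : Mf n}

theorem opn (e : M.Ch) {O : Set M.X} (hO : IsOpen O) : IsOpen (e.target ∩ e.symm ⁻¹' O) :=
  e.continuousOn_symm.isOpen_inter_preimage e.open_target hO

theorem opO {ρ : M.X → ℝ} (h : Lc ρ) : IsOpen (Op ρ) := isOpen_lt continuous_const h.sm.continuous

theorem frq [M.Cpt] {ρ : M.X → ℝ} (h : Lc ρ) (x : M.X) : ∃ᶠ y in 𝓝 x, y ∈ Op ρ := by
  obtain ⟨σ, _, q, hq⟩ := h.loc
  have hO : IsOpen {x | ∀ᶠ y in 𝓝 x, ρ y ≤ 0} := isOpen_setOfPred_eventually_nhds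
  have hC : IsClosed {x | ∀ᶠ y in 𝓝 x, ρ y ≤ 0} := isClosed_of_closure_subset fun x hx => by
    obtain ⟨e, he, hs⟩ := M.cov x
    obtain ⟨C, C0, hC⟩ := hq.cmp e he _ (e.map_source hs)
    obtain ⟨r, r0, hr⟩ := Metric.eventually_nhds_iff_ball.1
      ((hq.hol e he _ (e.map_source hs)).and hC)
    have hb := ((e.continuousAt hs).eventually (ball_mem_nhds _ r0)).and
      (e.open_source.mem_nhds hs)
    obtain ⟨y, ⟨y1, y2⟩, y3⟩ := mem_closure_iff_nhds.1 hx _ hb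
    have h0 : ∀ᶠ v in 𝓝 (e y), q e v = 0 := by
      filter_upwards [(e.tendsto_symm y2).eventually y3, isOpen_ball.mem_nhds y1] with v h1 h2
      exact norm_eq_zero.1 (pow_eq_zero_iff two_ne_zero |>.1 (le_antisymm
        ((hr v h2).2.2.trans (mul_nonpos_of_nonneg_of_nonpos C0.le h1)) (sq_nonneg _)))
    refine hb.mono fun u hu => ?_
    have h1 : q e (e u) = 0 := funext fun i => K3E.ID.bal (f := fun v => q e v i)
      (fun v hv => differentiableAt_pi.1 (hr v hv).1 i) y1 hu.1 (h0.mono fun v hv => congrFun hv i)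
    have h2 := (hr _ hu.1).2.1
    rwa [h1, e.left_inv hu.2, norm_zero, zero_pow two_ne_zero, mul_zero] at h2
  intro hx
  obtain ⟨u, hu⟩ := h.ne
  have : ∀ᶠ y in 𝓝 u, ρ y ≤ 0 :=
    (IsClopen.eq_univ ⟨hC, hO⟩ ⟨x, hx.mono fun y hy => not_lt.1 hy⟩).ge (mem_univ u)
  exact not_lt.2 this.self_of_nhds hu

theorem chart [M.Cpt] {O : Set M.X} {ρ w : M.X → ℝ} {f : M.X → ℂ} (hρ : Lc ρ)
    (hO : IsOpen O) (hw : ContinuousOn w O) (h0 : ∀ y ∈ O, 0 < w y) (hf : Bd (O ∩ Op ρ) w f)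
    (e : M.Ch) (he : e ∈ M.C) : ∃ g, DifferentiableOn ℂ g (e.target ∩ e.symm ⁻¹' O) ∧
      EqOn g (f ∘ e.symm) (e.target ∩ e.symm ⁻¹' (O ∩ Op ρ)) := by
  obtain ⟨h1, C, hC⟩ := hf
  refine KT.tEXL n _ _ _ (opn e hO) (opn e (hO.inter (opO hρ))) (fun z hz => ⟨hz.1, hz.2.1⟩)
    (fun z hz => (h1 e he z hz.1 hz.2).self_of_nhds.differentiableWithinAt) fun z hz => ?_
  obtain ⟨σ, _, q, hq⟩ := hρ.loc
  obtain ⟨D, D0, hD⟩ := hq.cmp e he z hz.1
  obtain ⟨i, hi⟩ : ∃ i, ∃ᶠ v in 𝓝 z, q e v i ≠ 0 := by_contra fun c => by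
    have c1 : ∀ᶠ v in 𝓝 z, ∀ i, q e v i = 0 := eventually_all.2 fun i =>
      (not_frequently.1 fun k => c ⟨i, k⟩).mono fun v hv => not_not.1 hv
    have hx := e.map_target hz.1
    have c2 := (e.continuousAt hx).eventually ((e.right_inv hz.1).symm ▸ c1.and hD)
    refine frq hρ (e.symm z) ?_
    filter_upwards [c2, e.open_source.mem_nhds hx] with y k1 k2
    have k3 := k1.2.1
    rw [show q e (e y) = 0 from funext k1.1, e.left_inv k2, norm_zero, zero_pow two_ne_zero,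
      mul_zero] at k3
    exact not_lt.2 k3
  have hU := (opn e hO).mem_nhds hz
  refine ⟨fun v => q e v i, (hq.hol e he z hz.1).mono fun v hv => differentiableAt_pi.1 hv i, hi,
    ?_, ?_⟩
  · filter_upwards [hU, hD] with v hv k hj
    exact ⟨hv.1, hv.2, (mul_pos_iff_of_pos_left D0).1 (lt_of_lt_of_le (pow_pos
      (norm_pos_iff.2 fun h => hj (congrFun h i)) 2) k.2)⟩
  · have hp := h0 _ hz.2
    have hc : ContinuousAt (fun v => w (e.symm v)) z :=
      (hw.continuousAt (hO.mem_nhds hz.2)).comp (e.continuousAt_symm hz.1)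
    have hl : ∀ᶠ v in 𝓝 z, w (e.symm z) / 2 < w (e.symm v) :=
      hc.eventually (lt_mem_nhds (half_lt_self hp))
    obtain ⟨V, hV, hV1, hV2⟩ := _root_.mem_nhds_iff.1 (inter_mem hl (ball_mem_nhds z one_pos))
    refine ⟨V, hV1.mem_nhds hV2, ne_top_of_le_ne_top ?_
      (setLIntegral_mono' (g := fun _ => ENNReal.ofReal (C / (w (e.symm z) / 2))) ?_ ?_)⟩
    · rw [setLIntegral_const]
      exact ENNReal.mul_ne_top ENNReal.ofReal_ne_top (ne_top_of_le_ne_top measure_ball_lt_top.ne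
        (measure_mono fun v hv => (hV hv.1).2))
    · exact (hV1.inter (opn e (hO.inter (opO hρ)))).measurableSet
    · intro v hv
      refine ENNReal.ofReal_le_ofReal ((le_div_iff₀ (half_pos hp)).2 (le_trans ?_ (hC _ hv.2.2)))
      rw [Complex.normSq_eq_norm_sq]
      exact mul_le_mul_of_nonneg_left (le_of_lt (hV hv.1).1) (sq_nonneg _)

end RIE

theorem xRIE : St_RIE := by
  intro n M _ O ρ w f hρ hO hw h0 hf
  choose! G hG1 hG2 using RIE.chart hρ hO hw h0 hf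
  have hfr := RIE.frq hρ
  have hm : ∀ (e : M.Ch) (S : Set M.X), ∀ x ∈ e.source, x ∈ S → e x ∈ e.target ∩ e.symm ⁻¹' S :=
    fun e S x hx hS => ⟨e.map_source hx, by rwa [mem_preimage, e.left_inv hx]⟩
  have hc : ∀ e ∈ M.C, ∀ x ∈ e.source, x ∈ O → ContinuousAt (fun y => G e (e y)) x :=
    fun e he x hx hx' => ((hG1 e he).differentiableAt ((RIE.opn e hO).mem_nhds
      (hm e O x hx hx'))).continuousAt.comp (e.continuousAt hx)
  have hq : ∀ e ∈ M.C, ∀ x ∈ e.source, x ∈ O → ∀ᶠ y in 𝓝 x, y ∈ Op ρ →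
      y ∈ O ∧ G e (e y) = f y := fun e he x hx hx' => by
    filter_upwards [e.open_source.mem_nhds hx, hO.mem_nhds hx'] with y h1 h2 h3
    exact ⟨h2, (hG2 e he (hm e _ y h1 ⟨h2, h3⟩)).trans (congrArg f (e.left_inv h1))⟩
  have hr : ∀ e ∈ M.C, ∀ z ∈ e.target ∩ e.symm ⁻¹' O, M.ev G (e.symm z) = G e z := by
    intro e he z hz
    obtain ⟨c1, c2⟩ := (mTR n M).1 (e.symm z)
    have hx := e.map_target hz.1
    have := tendsto_nhds_unique_of_frequently_eq (hc _ c1 _ c2 hz.2) (hc e he _ hx hz.2)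
      (((hfr _).and_eventually ((hq _ c1 _ c2 hz.2).and (hq e he _ hx hz.2))).mono
        fun y hy => (hy.2.1 hy.1).2.trans (hy.2.2 hy.1).2.symm)
    exact this.trans (congrArg (G e) (e.right_inv hz.1))
  obtain ⟨-, C, hC⟩ := hf
  refine ⟨M.ev G, ⟨fun e he z hz hz' => ?_, C, fun x hx => ?_⟩, fun y hy => ?_⟩
  · filter_upwards [(RIE.opn e hO).mem_nhds ⟨hz, hz'⟩] with v hv
    have hV := (RIE.opn e hO).mem_nhds hv
    exact ((hG1 e he).differentiableAt hV).congr_of_eventuallyEq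
      (eventually_of_mem hV fun u hu => hr e he u hu)
  · obtain ⟨c1, c2⟩ := (mTR n M).1 x
    refine isClosed_Iic.mem_of_frequently_of_tendsto
      (((hfr x).and_eventually (hq _ c1 x c2 hx)).mono fun y hy => ?_)
      ((continuous_normSq.continuousAt.comp (hc _ c1 x c2 hx)).mul
        (hw.continuousAt (hO.mem_nhds hx)))
    show normSq (G _ _) * w y ≤ C
    rw [(hy.2 hy.1).2]
    exact hC y ⟨(hy.2 hy.1).1, hy.1⟩
  · obtain ⟨c1, c2⟩ := (mTR n M).1 y
    exact ((hq _ c1 y c2 hy.1).self_of_nhds hy.2).2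

end Pool.Agent.Lib.KX
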