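import Pool.Agent.Lib.KX.Blue
import Pool.Agent.Lib.SIE.Gen

/-! Project kx, row SEC: bounded multiples are sections. -/

open scoped Classical Topology ContDiff ComplexOrder Matrix ENNReal
open Set MeasureTheory Complex Metric Filter

noncomputable section

namespace Pool.Agent.Lib.KX

open Pool.Agent.Lib.SV (E nsq)
open Pool.Agent.Lib.HS32
open Pool.Agent.Lib.KH (HoK SmK OnK)
open Pool.Agent.Lib.KT (Bd)

namespace SEC

/-- The open set is dense, without a metric. -/
theorem dense {n : ℕ} {M : Mf n} [M.Cpt] {p : M.X → ℝ} (h : Lc p) : Dense (Op p) := by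
  obtain ⟨σ, _, q, hq⟩ := h.loc
  refine SIE.dns (fun x hx => ?_) h.ne
  obtain ⟨e, he, hs⟩ := M.cov x
  have hz := e.map_source hs
  have := SV.H85.eventually_zero_of_frequently (hq.hol e he _ hz) ((((SIE.up' hs).1 hx).and_eventually
    (e.open_target.eventually_mem hz)).mono fun w k => by
      have l := (SIE.up (e.map_target k.2)).1 k.1
      rw [e.right_inv k.2] at l
      obtain ⟨C, C0, hC⟩ := hq.cmp e he w k.2
      filter_upwards [l, hC] with v a b
      exact norm_eq_zero.1 (pow_eq_zero_iff two_ne_zero |>.1 (le_antisymm (b.2.trans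
        (mul_nonpos_of_nonneg_of_nonpos C0.le (not_lt.1 a))) (sq_nonneg _))))
  obtain ⟨C, -, hC⟩ := hq.cmp e he _ hz
  refine (SIE.up hs).2 ?_
  filter_upwards [this, hC] with v a b
  rw [a, Pi.zero_apply, norm_zero, zero_pow two_ne_zero, mul_zero] at b
  exact not_lt.2 b.1

end SEC

theorem xSEC (hEXC : St_EXC) (hLGT : St_LGT) : St_SEC := by
  intro n M _ Λ ψ τ ρ j F hρ hψ hτ ⟨hF, A, hA⟩
  have hO : IsOpen (Op ρ) := isOpen_lt continuous_const hρ.sm.continuous
  obtain ⟨-, -, -, -, cm⟩ := hLGT n M _ Λ ψ τ hO hψ hτ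
  have key : ∀ e : M.Ch, ∃ g : E n → ℂ, e ∈ M.C → (∀ w ∈ e.target, HolN g w) ∧
      ∀ w ∈ e.target, 0 < ρ (e.symm w) → g w = F (e.symm w) * τ e w ^ j := fun e => by
    by_cases he : e ∈ M.C
    swap
    · exact ⟨0, fun h => (he h).elim⟩
    obtain ⟨g, hg⟩ := hEXC n M ρ e (fun w => F (e.symm w) * τ e w ^ j) hρ he
      (fun w hw h => ((hF e he w hw h).and (hτ.hol e he w hw h).1).mono fun v k =>
        k.1.mul (k.2.pow j)) (Or.inr fun w₀ hw₀ => by
        obtain ⟨C, C0, hC⟩ := cm e he w₀ hw₀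
        refine ⟨C ^ j * A, hC.mono fun w k h => ?_⟩
        rw [← normSq_eq_norm_sq, map_mul, map_pow]
        refine (mul_le_mul_of_nonneg_left (pow_le_pow_left₀ (normSq_nonneg _) (k h).2 j)
          (normSq_nonneg _)).trans ?_
        rw [mul_pow, mul_left_comm]
        exact mul_le_mul_of_nonneg_left (hA _ h) (pow_nonneg C0.le j))
    exact ⟨g, fun _ => hg⟩
  choose t ht using key
  refine ⟨t, ⟨⟨fun e he z hz => ((mHOL n _ z).2.2 ((ht e he).1 z hz)).1, fun e he e' he' x hx hx' => ?_⟩,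
    fun e he z hz => ((ht e he).1 z hz).self_of_nhds⟩, fun e he z hz h => (ht e he).2 z hz h⟩
  have c : ∀ d ∈ M.C, x ∈ d.source → ContinuousAt (fun y => t d (d y)) x := fun d hd h =>
    ContinuousAt.comp (f := d) ((ht d hd).1 _ (d.map_source h)).self_of_nhds.continuousAt
      (d.continuousAt h)
  have l : ContinuousAt (Λ.c e e') x := (ContinuousAt.comp (f := e')
    (Λ.hol e he e' he' x hx hx').self_of_nhds.continuousAt (e'.continuousAt hx')).congr
      ((e'.open_source.eventually_mem hx').mono fun y hy => congrArg (Λ.c e e') (e'.left_inv hy))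
  refine tendsto_nhds_unique_of_frequently_eq (c e' he' hx') ((c e he hx).mul (l.pow j))
    (((mem_closure_iff_frequently.1 (SEC.dense hρ x)).and_eventually
      ((e.open_source.eventually_mem hx).and (e'.open_source.eventually_mem hx'))).mono
      fun y hy => ?_)
  show t e' (e' y) = t e (e y) * Λ.c e e' y ^ j
  rw [(ht e he).2 _ (e.map_source hy.2.1) (by rw [e.left_inv hy.2.1]; exact hy.1),
    (ht e' he').2 _ (e'.map_source hy.2.2) (by rw [e'.left_inv hy.2.2]; exact hy.1),
    e.left_inv hy.2.1, e'.left_inv hy.2.2, hτ.law e he e' he' y hy.2.1 hy.2.2 hy.1, mul_pow,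
    mul_assoc]

end Pool.Agent.Lib.KX
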