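import Pool.Agent.Lib.KX.Blue

/-! Project kx, row TK: the context of the trunk. -/

open scoped Classical Topology ContDiff ComplexOrder Matrix ENNReal
open Set MeasureTheory Complex Metric Filter

noncomputable section

namespace Pool.Agent.Lib.KX

open Pool.Agent.Lib.HS32 Pool.Agent.Lib.HS32.Mf
open Pool.Agent.Lib.KH (HoK)

namespace TK

/-- A holomorphic function is continuous. -/
theorem cont {n : ℕ} {M : Mf n} {O : Set M.X} {F : M.X → ℂ} (h : HoK M O F) : ContinuousOn F O :=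
  fun x hx => ContinuousAt.continuousWithinAt (by
    have := (h _ (ch_mem x) _ (ch_tgt x) (by rwa [ch_symm])).self_of_nhds.continuousAt.comp
      ((M.ch x).continuousAt (mem_ch x))
    exact this.congr (((M.ch x).eventually_left_inverse (mem_ch x)).mono fun y hy => congrArg F hy))

/-- The context from the frame. -/
theorem core (hZCL : St_ZCL) (hKIT : St_KIT) (hEXD : St_EXD) (hZAR : St_ZAR) (hSEC : St_SEC)
    (hDOM : St_DOM) (hZMU : St_ZMU) (hLGT : St_LGT) (hZE : ZE.St_ZE) {n : ℕ} {M : Mf n} [M.Cpt]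
    {ι : Type} [Fintype ι] (D : Pp M ι) (d : ℕ) (hN : Ng D)
    (h : ∃ (m k : ℕ) (τ : M.Fam ℂ) (p : M.X → ℝ) (z : M.X → SV.E k) (θ : M.X → ℂ) (μ : RB9.Pz k)
      (Δ : MvPolynomial (Fin k) ℂ) (C : ℝ) (ε : ℕ → ℝ) (a : ℕ → M.X → ℝ), 0 < m ∧
      Bz D.K (D.L.pw m) ((m : ℝ) • D.φ) τ p 1 d ∧ (∃ C', ∀ x, p x ≤ C' * D.ex x) ∧
      RBR.Frm D.H p D.s z θ (M.nrC ((m : ℝ) • D.φ) τ) μ Δ C ∧ Ev D.H D.T ε a ∧
      RBR.Adj D.H p D.s (M.nrC ((m : ℝ) • D.φ) τ) (m * D.c) D.w ε a) :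
    ∃ (X : KU.Tk M) (m : ℕ), 0 < m ∧ X.H = D.H ∧ X.Θ = D.T ∧ X.Λ = D.L.pw m ∧
      KU.Gro X.p X.T 1 1 d := by
  obtain ⟨m, k, τ, p, z, θ, μ, Δ, C, ε, a, m0, b, ⟨C', hC⟩, fr, -, ad⟩ := h
  obtain ⟨a', z1, z2, z3⟩ := hZE n M ι D.toDt
  have hm := D.kae.toMet
  have lp := (hZCL n M D.H D.T D.P hm).lc _ b.mem
  have ls := (hEXD n M ι D).2.1
  obtain ⟨op, -, -, -, mul, -⟩ := hKIT n M _ _ hm lp
  have lρ := mul _ ls
  have eq : Op (fun x => p x * D.s x) = RBR.O0 p D.s := Set.ext fun x =>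
    ⟨fun h => ⟨(lp.nn x).lt_of_ne' (left_ne_zero_of_mul (ne_of_gt h)), right_ne_zero_of_mul (ne_of_gt h)⟩,
      fun h => mul_pos h.1 ((ls.nn x).lt_of_ne' h.2)⟩
  have sb : Op (fun x => p x * D.s x) ⊆ Op p := fun x h => (eq.subset h).1
  refine ⟨⟨k, D.H, p, D.s, z, θ, μ, Δ, C, m * D.c, D.w, ε, a, D.T, D.L.pw m, (m : ℝ) • D.φ, τ, a',
    fr, ad, D.cT, b.wt, fun e he y hy => ?_, b.ms.hol, b.ms.law, ⟨z1, z2, z3⟩,
    fun j F _ hF hJ => ⟨hF.1, ?_⟩, fun j F hF => hSEC n M _ _ τ p j F lp b.wt b.ms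
      ⟨hF.1, hF.2.imp fun A h x hx => by simpa only [pow_zero, mul_one] using h x hx⟩,
    fun κ _ _ g hg => hDOM n M ι D p κ g b.mem hg⟩, m, m0, rfl, rfl, rfl, ?_⟩
  · refine ((((hZMU n M 0 0 0 0).2.2.2.2 D.T D.T D.L D.L D.φ D.φ).2.2.2 D.wL m).2 e he y hy).trans ?_
    rw [D.cur e he y hy, smul_smul, Nat.cast_mul]
  · obtain ⟨-, A, hA⟩ := hZAR n M ι D m j τ _ F hN lρ
      ⟨fun e he y hy h => b.ms.hol e he y hy (sb h),
        fun e he e' he' x h h' ho => b.ms.law e he e' he' x h h' (sb ho)⟩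
      (fun x hx => ⟨(eq.subset hx).2, fun h => (sb hx).not_ge (by simpa [h] using hC x)⟩)
      (fun e he y hy h => hF.1 e he y hy (sb h)) (by simpa only [eq, mul_assoc] using hJ)
    refine ⟨A, fun x hx => ?_⟩
    rw [pow_zero, mul_one]
    have c := (((continuous_normSq.comp_continuousOn (cont hF.1)).mul
      ((hLGT n M _ _ _ τ op b.wt b.ms).2.1.pow j)).continuousAt (op.mem_nhds hx))
    exact le_of_tendsto_of_frequently c
      (mem_closure_iff_frequently.1 ((hKIT n M _ _ hm lρ).2.1 x) |>.mono hA)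
  · obtain ⟨A, hA⟩ := b.gro
    refine ⟨A, hA.mono fun j hj => ?_⟩
    obtain ⟨r, g, g1, g2, g3⟩ := hj
    refine ⟨r, g, g1, g2, fun s => ?_⟩
    rw [one_mul]
    exact g3 s

end TK

theorem xTK (hTOP : St_TOP) (hZCL : St_ZCL) (hKIT : St_KIT) (hEXD : St_EXD) (hZAR : St_ZAR)
    (hSEC : St_SEC) (hDOM : St_DOM) (hZMU : St_ZMU) (hLGT : St_LGT) (hZE : ZE.St_ZE) : St_TK :=
  fun n M _ ι _ D d hM hN =>
    TK.core hZCL hKIT hEXD hZAR hSEC hDOM hZMU hLGT hZE D d hN (hTOP n M ι D d hM)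

end Pool.Agent.Lib.KX
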