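import Pool.Agent.Lib.KX.Blue

/-! Project kx, row `ZAR`: square integrable solutions are sections. -/

open scoped Classical Topology Matrix ENNReal
open Set Complex Filter MeasureTheory

noncomputable section

namespace Pool.Agent.Lib.KX

open Pool.Agent.Lib.HS32 Pool.Agent.Lib.HS32.Mf
open Pool.Agent.Lib.K3S.TW (sm2 wmu)

theorem xZAR (hEXD : St_EXD) (hBDL : St_BDL) (hSEC : St_SEC) : St_ZAR := by
  intro n M _ ι _ D m j τ ρ F hN hρ hτ h0 hF hJ
  obtain ⟨-, -, -, ⟨C, hC⟩, -, P, χ, p1, p2, p3, p4⟩ := hEXD n M ι D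
  have w := wmu ((D.wL.pw m).1.pw j).1 p1
  have ne : ∀ x ∈ Op ρ, M.ev (fun e z => ∏ i, D.f i e z ^ (D.a i).toNat) x ≠ 0 := fun x hx =>
    nrC_ne.1 (p4 ▸ (h0 x hx).2)
  have ms : Ms (Op ρ) (sm2 ((D.L.pw m).pw j) P)
      fun e z => τ e z ^ j * ∏ i, D.f i e z ^ (D.a i).toNat :=
    ⟨fun e he z hz hO => ⟨((hτ.hol e he z hz hO).1.and (p3.holN e he z hz)).mono fun _ t =>
      (t.1.fun_pow j).fun_mul t.2, mul_ne_zero (pow_ne_zero j (hτ.hol e he z hz hO).2) (by
        simpa only [e.right_inv hz] using (p3.ne_iff he (e.map_target hz)).1 (ne _ hO))⟩,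
      fun e he e' he' x hx hx' hO => by
        have a := hτ.law e he e' he' x hx hx' hO
        have b := p3.cmp e he e' he' x hx hx'
        beta_reduce at b
        rw [a, b]
        simp only [sm2, Co.pw]
        ring⟩
  have nr : ∀ x, M.nrC ((j : ℝ) • ((m : ℝ) • D.φ) + χ)
      (fun e z => τ e z ^ j * ∏ i, D.f i e z ^ (D.a i).toNat) x =
        M.nrC ((m : ℝ) • D.φ) τ x ^ j * D.ex x := fun x => by
    rw [p4]
    simp only [nrC, Mf.ev, Pi.add_apply, Pi.smul_apply, smul_eq_mul, map_mul, map_pow, mul_pow,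
      neg_add, Real.exp_add, ← Real.exp_nat_mul, mul_neg]
    ring
  have o : MeasurableSet (Op ρ) := (isOpen_lt continuous_const hρ.sm.continuous).measurableSet
  have bd := hBDL n M D.H _ _ _ ρ ρ 1 0 F D.kae.toMet hρ hρ Subset.rfl w ms hF (by
    refine ne_top_of_le_ne_top (ENNReal.mul_ne_top (ENNReal.ofReal_ne_top (r := |C|)) hJ) ?_
    rw [KH.Jo, KH.Jo, ← lintegral_const_mul' _ _ ENNReal.ofReal_ne_top]
    refine setLIntegral_mono' o fun x hx => ?_
    rw [← ENNReal.ofReal_mul (abs_nonneg C), pow_one, pow_zero, mul_one, nr]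
    refine ENNReal.ofReal_le_ofReal ?_
    have w0 : 0 ≤ D.w x := Finset.prod_nonneg fun i _ =>
      Real.rpow_nonneg (D.hσ i ▸ nrC_nonneg _ _ x) _
    have k := mul_le_mul_of_nonneg_left ((hC x (h0 x hx).1).trans
      (mul_le_mul_of_nonneg_right (le_abs_self C) w0))
      (mul_nonneg (normSq_nonneg (F x)) (pow_nonneg (nrC_nonneg ((m : ℝ) • D.φ) τ x) j))
    linarith)
  simp only [pow_zero, mul_one] at bd
  obtain ⟨t, t1, t2⟩ := hSEC n M _ _ _ ρ 1 F hρ w ms bd
  obtain ⟨s, s1, s2⟩ := hN (m * j) (fun i => (D.a i).toNat) (fun i h => by omega) t t1.holN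
    fun e he e' he' x hx hx' => by
      simpa only [Co.pw, sm2, p2, pow_one, pow_mul] using t1.cmp e he e' he' x hx hx'
  obtain ⟨A, -, hA⟩ := ((D.wL.pw (m * j)).1.nr_sm s1.toSecC).exists_bound
  refine ⟨hF, A, fun x hx => le_trans (le_of_eq ?_) ((le_abs_self _).trans (hA x))⟩
  have a := AllOn.ch t2 x (by rwa [ch_symm])
  beta_reduce at a
  rw [AllOn.ch s2 x, pow_one, ← mul_assoc, ch_symm] at a
  have b : M.ev s x = F x * M.ev τ x ^ j := mul_right_cancel₀ (ne x hx) a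
  simp only [nrC, b, map_mul, map_pow, mul_pow, ← Real.exp_nat_mul]
  simp only [Mf.ev, Pi.smul_apply, smul_eq_mul, Nat.cast_mul]
  rw [mul_assoc]
  congr 3
  ring

end Pool.Agent.Lib.KX
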