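import Pool.Agent.Lib.KX.Blue

/-! Project kx: the norms of the twisted tensors form a class of denominators. -/

open scoped Classical Topology ContDiff ComplexOrder Matrix ENNReal
open Set MeasureTheory Complex Metric Filter

noncomputable section

namespace Pool.Agent.Lib.KX

open Pool.Agent.Lib.SV (E nsq)
open Pool.Agent.Lib.HS32 Pool.Agent.Lib.HLK
open Pool.Agent.Lib.KH (HoK SmK OnK)
open Pool.Agent.Lib.KT (Bd Iv)

namespace ZCL

variable {n : ℕ} {M : Mf n}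

/-- A bounded quotient stays bounded after the multiplication of the denominator. -/
theorem bd_mul {p p' : M.X → ℝ} {f : M.X → ℂ} {C' : ℝ} (h0 : ∀ x, 0 ≤ p x) (h1 : ∀ x, 0 ≤ p' x)
    (hC : ∀ x, p' x ≤ C') (h : Bd (Op p) p f) :
    Bd (Op fun x => p x * p' x) (fun x => p x * p' x) f := by
  have hs : ∀ x, 0 < p x * p' x → 0 < p x := fun x hx =>
    (h0 x).lt_of_ne fun h => by rw [← h, zero_mul] at hx; exact lt_irrefl _ hx
  obtain ⟨hh, C, hb⟩ := h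
  refine ⟨fun e he z hz ho => hh e he z hz (hs _ ho), C * C', fun x hx => ?_⟩
  have h2 := hb x (hs x hx)
  have h3 : 0 ≤ normSq (f x) * p x := mul_nonneg (normSq_nonneg _) (h0 x)
  calc normSq (f x) * (p x * p' x) = normSq (f x) * p x * p' x := by ring
    _ ≤ C * C' := mul_le_mul h2 (hC x) (h1 x) (h3.trans h2)

/-- The value of a multiple in the chosen chart. -/
theorem ev_mul {F : Type} [SMul ℂ F] {O : Set M.X} {s t : M.Fam F} {f : M.X → ℂ}
    (h : OnK M O fun e z => t e z = f (e.symm z) • s e z) {x : M.X} (hx : x ∈ O) :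
    M.ev t x = f x • M.ev s x := by
  have hc := (M.cov x).choose_spec
  have h1 : (M.ch x).symm (M.ch x x) = x := (M.ch x).left_inv hc.2
  have h2 : t (M.ch x) (M.ch x x) = f ((M.ch x).symm (M.ch x x)) • s (M.ch x) (M.ch x x) :=
    h (M.ch x) hc.1 (M.ch x x) ((M.ch x).map_source hc.2) (by rw [h1]; exact hx)
  rw [h1] at h2
  exact h2

end ZCL

theorem xZCL (hKIT : St_KIT) (hZKT : St_ZKT) (hZMO : St_ZMO) (hZNU : St_ZNU) (hZPO : St_ZPO)
    (hZWE : St_ZWE) : St_ZCL := by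
  intro n M _ H Θ₁ Θ₂ hH
  obtain ⟨h1, hm, -⟩ := hZMO n M H Θ₁ Θ₂ hH
  have hbd : ∀ p ∈ Kz H Θ₁ Θ₂, ∀ p' ∈ Kz H Θ₁ Θ₂, ∀ f, Bd (Op p) p f →
      Bd (Op fun x => p x * p' x) (fun x => p x * p' x) f := fun p hp p' hp' f hf => by
    obtain ⟨C, -, hC⟩ := (hKIT n M H p' hH (hm p' hp').1).2.2.2.1
    exact ZCL.bd_mul (hm p hp).1.nn (hm p' hp').1.nn hC hf
  refine ⟨hH, h1, fun p hp => (hm p hp).2.1, fun p hp => (hm p hp).2.2, fun p hp => (hm p hp).1,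
    ?_, ?_, ?_⟩
  · rintro p ⟨τ, rfl⟩ f hf ⟨x, hx, hfx⟩
    obtain ⟨t, hl, ha, ht⟩ := hZNU n M H Θ₁ Θ₂ τ f hH hf
    obtain ⟨-, -, -, -, h5, h6⟩ := hZKT n M H τ.N τ.B τ.Λ τ.ψ hH τ.wt
    have hn : ∀ y ∈ Op (τ.pn H), nw H τ.B τ.ψ t y = normSq (f y) * τ.pn H y := fun y hy =>
      h5 τ.s t (f y) y (ZCL.ev_mul ht hy)
    have hc : M.ch x ∈ M.C ∧ x ∈ (M.ch x).source := (M.cov x).choose_spec
    have hz : (M.ch x) x ∈ (M.ch x).target := (M.ch x).map_source hc.2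
    have h0 : t (M.ch x) (M.ch x x) ≠ 0 := by
      refine ((h6 t hl).2.2.1 _ hc.1 _ hz).1 ?_
      rw [(M.ch x).left_inv hc.2, hn x hx]
      exact mul_pos (normSq_pos.2 hfx) hx
    exact ⟨_, ⟨⟨τ.N, τ.B, τ.β, τ.Λ, τ.ψ, t, τ.wt, τ.cn, hl, ha, _, hc.1, _, hz, h0⟩, rfl⟩, hn⟩
  · rintro p ⟨τ, rfl⟩
    obtain ⟨C, hC⟩ := hZPO n M H τ.N τ.B τ.Λ τ.ψ hH τ.wt
    obtain ⟨-, -, -, h4, h5, h6⟩ := hZKT n M H τ.N τ.B τ.Λ τ.ψ hH τ.wt
    refine ⟨C, fun ι _ f hf => ?_⟩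
    choose t hl ha ht using fun i => hZNU n M H Θ₁ Θ₂ τ (f i) hH (hf i)
    refine ⟨fun y => ∑ i, nw H τ.B τ.ψ (t i) y, Mf.Sm.sum fun i _ => (h6 _ (hl i)).1,
      fun y => Finset.sum_nonneg fun i _ => h4 _ y, fun y hy => ?_, hC ι t hl⟩
    rw [nsq, Finset.mul_sum]
    refine Finset.sum_congr rfl fun i _ => ?_
    rw [h5 τ.s (t i) (f i y) y (ZCL.ev_mul (ht i) hy), mul_comm]
    rfl
  · intro k z hz hr
    have key : ∀ s : Finset (Fin k), ∃ p ∈ Kz H Θ₁ Θ₂, ∀ i ∈ s, Bd (Op p) p (z i) := fun s => by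
      induction s using Finset.induction_on with
      | empty => exact ⟨_, h1, fun i hi => absurd hi (Finset.notMem_empty i)⟩
      | insert a s _ ih =>
        obtain ⟨p, hp, hb⟩ := ih
        obtain ⟨q, hq, hc⟩ := hz a
        refine ⟨_, (hm p hp).2.1 q hq, fun i hi => ?_⟩
        rcases Finset.mem_insert.1 hi with rfl | hi
        · have h := hbd q hq p hp _ hc
          simp only [mul_comm (q _)] at h
          exact h
        · exact hbd p hp q hq _ (hb i hi)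
    obtain ⟨p, hp, hb⟩ := key Finset.univ
    exact hZWE n M H Θ₁ Θ₂ k z p hH hp (fun i => hb i (Finset.mem_univ i)) hr

end Pool.Agent.Lib.KX
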