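import Pool.Agent.Lib.KX.Blue
import Pool.Agent.Lib.SIE.Tn

/-! Project kx: locally bounded twisted tensors extend. -/

open scoped Classical Topology Matrix
open Set Complex Filter

noncomputable section

namespace Pool.Agent.Lib.KX

open Pool.Agent.Lib.SV (E)
open Pool.Agent.Lib.HS32
open Pool.Agent.Lib.RAA (kp)
open Pool.Agent.Lib.KH (OnK)

namespace ZEX

variable {n : ℕ} {M : Mf n}

theorem dense [M.Cpt] {ρ : M.X → ℝ} (h : Lc ρ) : Dense (Op ρ) := by
  obtain ⟨σ, _, q, hq⟩ := h.loc
  have key : ∀ e ∈ M.C, ∀ x ∈ e.source, ∃ C > (0 : ℝ), ∀ᶠ y in 𝓝 x,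
      ρ y ≤ C * ‖q e (e y)‖ ^ 2 ∧ ‖q e (e y)‖ ^ 2 ≤ C * ρ y := fun e he x hx => by
    obtain ⟨C, c0, hC⟩ := hq.cmp e he _ (e.map_source hx)
    refine ⟨C, c0, ?_⟩
    filter_upwards [(e.continuousAt hx).eventually hC, e.open_source.eventually_mem hx] with y h1 h2
    rwa [e.left_inv h2] at h1
  have hd : SIE.Dn M q := ⟨hq.hol, fun e he e' he' x hx hx' => by
    obtain ⟨C, c0, hC⟩ := key e he x hx
    obtain ⟨C', c1, hC'⟩ := key e' he' x hx'
    refine ⟨√(C * C'), (hC.and hC').mono fun y hy => ?_⟩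
    refine (sq_le_sq₀ (norm_nonneg _) (by positivity)).1 ?_
    rw [mul_pow, Real.sq_sqrt (mul_pos c0 c1).le, mul_assoc]
    exact hy.1.2.trans (mul_le_mul_of_nonneg_left hy.2.1 c0.le)⟩
  obtain ⟨x, hx⟩ := h.ne
  refine (hd.dense ⟨x, fun e he hs h0 => ?_⟩).mono fun y hy => ?_
  · obtain ⟨C, -, hC⟩ := key e he x hs
    have := hC.self_of_nhds.1
    rw [h0, norm_zero] at this
    linarith
  · obtain ⟨e, he, hs⟩ := M.cov y
    obtain ⟨C, c0, hC⟩ := key e he y hs
    exact (mul_pos_iff_of_pos_left c0).1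
      ((pow_pos (norm_pos_iff.2 (hy e he hs)) 2).trans_le hC.self_of_nhds.2)

/-- The law holds everywhere when it holds on a dense set. -/
theorem law {O : Set M.X} (hO : Dense O) {N B : ℕ} (Λ : M.Co)
    {t : M.Fam ((Fin N → Fin n) → ℂ)} (hc : M.All fun e z => ContinuousAt (t e) z)
    (h : M.Ov fun e e' x => x ∈ O →
      ((M.J e e' x).det ^ B * Λ.c e e' x) • t e (e x) = kp N (M.J e e' x) *ᵥ t e' (e' x)) :
    M.Ov fun e e' x =>
      ((M.J e e' x).det ^ B * Λ.c e e' x) • t e (e x) = kp N (M.J e e' x) *ᵥ t e' (e' x) := by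
  intro e he e' he' x hx hx'
  have c := SIE.cont_J e he e' he' x hx hx'
  have d : ContinuousAt (fun y => (M.J e e' y).det) x :=
    continuous_id.matrix_det.continuousAt.comp c
  have l : ContinuousAt (Λ.c e e') x :=
    (ContinuousAt.comp (f := e') (Λ.hol e he e' he' x hx hx').self_of_nhds.continuousAt
      (e'.continuousAt hx')).congr ((e'.open_source.eventually_mem hx').mono fun y hy =>
        congrArg (Λ.c e e') (e'.left_inv hy))
  have a0 : ContinuousAt (fun y => t e (e y)) x :=
    ContinuousAt.comp (f := e) (hc e he _ (e.map_source hx)) (e.continuousAt hx)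
  have a : ContinuousAt (fun y => ((M.J e e' y).det ^ B * Λ.c e e' y) • t e (e y)) x :=
    ((d.pow B).mul l).smul a0
  have a' : ContinuousAt (fun y => t e' (e' y)) x :=
    ContinuousAt.comp (f := e') (hc e' he' _ (e'.map_source hx')) (e'.continuousAt hx')
  have b : ContinuousAt (fun y => kp N (M.J e e' y) *ᵥ t e' (e' y)) x := by
    refine continuousAt_pi.2 fun I => tendsto_finsetSum _ fun K _ => ?_
    have q : ContinuousAt (fun y => ∏ p, M.J e e' y (I p) (K p)) x :=
      tendsto_finsetProd _ fun p _ => continuousAt_pi.1 (continuousAt_pi.1 c _) _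
    exact q.mul (continuousAt_pi.1 a' K)
  refine tendsto_nhds_unique_of_frequently_eq a b ?_
  refine ((mem_closure_iff_frequently.1 (hO x)).and_eventually
    ((e.open_source.eventually_mem hx).and (e'.open_source.eventually_mem hx'))).mono ?_
  exact fun y hy => h e he e' he' y hy.2.1 hy.2.2 hy.1

end ZEX

open ZEX in
theorem xZEX (hEXC : St_EXC) : St_ZEX := by
  intro n M _ ρ N B Λ s hρ hs hb
  have hd := dense hρ
  have key : ∀ (e : M.Ch) (I : Fin N → Fin n), ∃ g : E n → ℂ, e ∈ M.C →
      (∀ w ∈ e.target, HolN g w) ∧ ∀ w ∈ e.target, 0 < ρ (e.symm w) → g w = s e w I := by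
    intro e I
    by_cases he : e ∈ M.C
    swap
    · exact ⟨0, fun h => (he h).elim⟩
    obtain ⟨g, hg⟩ := hEXC n M ρ e (fun w => s e w I) hρ he
      (fun w hw h => (hs.hol e he w hw h).mono fun _ h => differentiableAt_pi.1 h I)
      (Or.inr fun w₀ hw₀ => by
        obtain ⟨C, hC⟩ := hb e he w₀ hw₀
        exact ⟨C, hC.mono fun w h h' =>
          (pow_le_pow_left₀ (norm_nonneg _) (norm_le_pi_norm _ I) 2).trans (h h')⟩)
    exact ⟨g, fun _ => hg⟩
  choose g hg using key
  have hol : M.All fun e z => HolN (fun w I => g e I w) z := fun e he z hz =>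
    (eventually_all.2 fun I => (hg e I he).1 z hz).mono fun _ h => differentiableAt_pi.2 h
  have eq : OnK M (Op ρ) fun e z => (fun I => g e I z) = s e z := fun e he z hz h =>
    funext fun I => (hg e I he).2 z hz h
  refine ⟨fun e w I => g e I w, ⟨fun e he z hz _ => hol e he z hz, fun e he e' he' x hx hx' _ =>
    law hd Λ (t := fun e w I => g e I w)
      (fun e he z hz => (hol e he z hz).self_of_nhds.continuousAt)
      (fun e he e' he' x hx hx' h => ?_) e he e' he' x hx hx'⟩, eq,
    fun r β hβ e he z hz I p p' h1 h2 => ?_⟩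
  · rw [eq e he _ (e.map_source hx) (by rwa [e.left_inv hx]),
      eq e' he' _ (e'.map_source hx') (by rwa [e'.left_inv hx'])]
    exact hs.law e he e' he' x hx hx' h
  · have c : ∀ I, ContinuousAt (g e I) z := fun I =>
      ((hg e I he).1 z hz).self_of_nhds.continuousAt
    refine tendsto_nhds_unique_of_frequently_eq (c _) (c I).neg ?_
    have hx := e.map_target hz
    have t := e.continuousAt hx
    rw [ContinuousAt, e.right_inv hz] at t
    refine t.frequently (((mem_closure_iff_frequently.1 (hd (e.symm z))).and_eventually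
      (e.open_source.eventually_mem hx)).mono fun y hy => ?_)
    have h3 : e.symm (e y) ∈ Op ρ := by rw [e.left_inv hy.2]; exact hy.1
    have h4 := hβ e he _ (e.map_source hy.2) h3 I p p' h1 h2
    rw [← eq e he _ (e.map_source hy.2) h3] at h4
    exact h4

end Pool.Agent.Lib.KX
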