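import Pool.Agent.Lib.KX.Blue
import Pool.Agent.Lib.KT.B_KIT

/-! Project kx, row ZKT: norms of twisted tensors. -/

open scoped Classical Topology ContDiff ComplexOrder Matrix ENNReal
open Set MeasureTheory Complex Metric Filter

noncomputable section

namespace Pool.Agent.Lib.KX

open Pool.Agent.Lib.SV (E)
open Pool.Agent.Lib.HS32
open Pool.Agent.Lib.RAA (hq kp st_KQ)
open Pool.Agent.Lib.DM (uv)
open Pool.Agent.Lib.KH (OnK)
open Pool.Agent.Lib.KT.KIT (quad cq cM cdet cont)

namespace ZKT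

theorem smul {n N : ℕ} (B : ℕ) (T : E n → Mat n) {s t : E n → (Fin N → Fin n) → ℂ} {z : E n}
    {a : ℂ} (h : t z = a • s z) : uv N B T t z = normSq a * uv N B T s z := by
  unfold uv
  rw [h, DM.NRM.hq_smul, mul_div_assoc]

end ZKT

theorem xZKT : St_ZKT := by
  intro n M _ G N B Λ ψ hG hψ
  have dp : M.All fun e z => 0 < (G e z).det.re := fun e he z hz =>
    (Complex.lt_def.1 (hG.pos e he z hz).det_pos).1
  have crv : M.All fun e z => ∀ s : E n → (Fin N → Fin n) → ℂ, HolN s z → _ :=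
    fun e he z hz s hs => (DM.dCRV n N B).1 (G e) s z ((hG.sm.ev he hz).and (hG.pos.ev he hz)) hs
  have rep : ∀ O s, Lz O N B Λ s → OnK M O fun e z =>
      nw G B ψ s (e.symm z) = uv N B (G e) (s e) z * Real.exp (-ψ e z) := by
    intro O s hs e he z hz h
    have hx := e.map_target hz
    have l := hs.law e he _ (Mf.ch_mem _) _ hx (Mf.mem_ch _) h
    have c0 := normSq_pos.2 (Λ.ne e he _ (Mf.ch_mem _) _ hx (Mf.mem_ch _))
    have w := hψ.cmp e he _ (Mf.ch_mem _) _ hx (Mf.mem_ch _)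
    rw [mul_smul] at l
    have k := (DM.NRM.uv_eq N B _ _ (fun y => Λ.c e (M.ch (e.symm z)) (e.symm z) • s e y) _ _ _ _
      ((mTR n M).2.1 e he _ (Mf.ch_mem _) _ hx (Mf.mem_ch _)).2.1
      (hG.cmp e he _ (Mf.ch_mem _) _ hx (Mf.mem_ch _)) l).trans (ZKT.smul B _ rfl)
    beta_reduce at w
    rw [e.right_inv hz] at k w
    show uv N B _ _ _ * Real.exp (-ψ _ _) = _
    rw [k, w, neg_add, Real.exp_add, Real.exp_neg (Real.log _), Real.exp_log c0]
    field_simp
  have cmp : M.All fun e w₀ => ∃ C > (0 : ℝ), ∀ᶠ w in 𝓝 w₀, ∀ s : E n → (Fin N → Fin n) → ℂ,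
      uv N B (G e) s w * Real.exp (-ψ e w) ≤ C * ‖s w‖ ^ 2 ∧
        ‖s w‖ ^ 2 ≤ C * (uv N B (G e) s w * Real.exp (-ψ e w)) := by
    intro e he z hz
    obtain ⟨C, C0, hC⟩ := quad (y := z) (q := fun w (v : (Fin N → Fin n) → ℂ) =>
        hq (kp N (G e w)) v / (G e w).det.re ^ B * Real.exp (-ψ e w))
      (fun v => by
        have f : ContinuousAt (Prod.fst : E n × ((Fin N → Fin n) → ℂ) → E n) (z, v) :=
          continuousAt_fst
        exact (((cq N).continuousAt.comp (((cM (hG.sm e he z hz)).comp_of_eq f rfl).prodMk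
          continuousAt_snd)).div (((cdet (hG.sm e he z hz)).comp_of_eq f rfl).pow B)
            (pow_pos (dp e he z hz) B).ne').mul
          (((hψ.sm e he z hz).continuousAt.comp_of_eq f rfl).neg.rexp))
      (fun w r v => by
        rw [← Complex.coe_smul, DM.NRM.hq_smul, normSq_ofReal, mul_div_assoc, sq, mul_assoc])
      fun v hv => mul_pos (div_pos (Complex.lt_def.1
        ((((st_KQ N (Fin n) (Fin n) (Fin n)).2.2.2.2.1 _).2
          fun _ => hG.pos e he z hz).dotProduct_mulVec_pos hv)).1 (pow_pos (dp e he z hz) B))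
        (Real.exp_pos _)
    exact ⟨C, C0, hC.mono fun w hw s => hw (s w)⟩
  have nn : ∀ (s : M.Fam ((Fin N → Fin n) → ℂ)) x, 0 ≤ nw G B ψ s x := fun s x =>
    mul_nonneg (Mf.AllOn.ch crv x (fun _ => M.ev s x)
      (Eventually.of_forall fun _ => differentiableAt_const _)).2.1 (Real.exp_pos _).le
  refine ⟨rep, cmp, fun O s hO hs y hy => (cont ?_).continuousWithinAt, nn, fun s t a x h => ?_,
    fun s hs => ?_⟩
  · refine ((Mf.AllOn.ch crv y _ (Mf.AllOn.ch hs.hol y (by rwa [Mf.ch_symm]))).1.continuousAt.mul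
      (Mf.AllOn.ch hψ.sm y).continuousAt.neg.rexp).congr ?_
    filter_upwards [(M.ch y).open_target.mem_nhds (Mf.ch_tgt y),
      ((M.ch y).tendsto_symm (Mf.mem_ch y)).eventually (hO.mem_nhds hy)] with w h1 h2
    exact (rep O s hs _ (Mf.ch_mem y) w h1 h2).symm
  · exact (congrArg (· * Real.exp (-M.ev ψ x)) (ZKT.smul B _ h)).trans (mul_assoc _ _ _)
  · have hol : M.All fun e z => HolN (s e) z := fun e he z hz => hs.hol e he z hz (mem_univ _)
    have r : M.All fun e z => ∀ᶠ w in 𝓝 z,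
        nw G B ψ s (e.symm w) = uv N B (G e) (s e) w * Real.exp (-ψ e w) := fun e he z hz =>
      Eventually.mono (e.open_target.mem_nhds hz) fun w hw => rep _ s hs e he w hw (mem_univ _)
    have sm : M.Sm (nw G B ψ s) := fun e he z hz =>
      ((crv e he z hz _ (hol e he z hz)).1.mul (hψ.sm e he z hz).neg.exp).congr_of_eventuallyEq
        (r e he z hz)
    have lq : Lq (nw G B ψ s) s := ⟨hol, fun e he z hz => (cmp e he z hz).imp fun C hC =>
      ⟨hC.1, (hC.2.and (r e he z hz)).mono fun w hw => by rw [hw.2]; exact hw.1 (s e)⟩⟩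
    have ps : M.All fun e z => 0 < nw G B ψ s (e.symm z) ↔ s e z ≠ 0 := fun e he z hz => by
      have k := crv e he z hz _ (hol e he z hz)
      beta_reduce
      rw [(r e he z hz).self_of_nhds, mul_pos_iff_of_pos_right (Real.exp_pos _), k.2.1.lt_iff_ne']
      exact not_congr k.2.2.1
    exact ⟨sm, lq, ps, fun ⟨e, he, z, hz, h⟩ =>
      ⟨sm, nn s, ⟨_, (ps e he z hz).2 h⟩, _, inferInstance, s, lq⟩⟩

end Pool.Agent.Lib.KX
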