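import Pool.Agent.Lib.KX.B_SEC

/-! Project kx, row ZMO: the class of the twisted tensors is a monoid of denominators. -/

open scoped Classical Topology ContDiff ComplexOrder Matrix ENNReal
open Set MeasureTheory Complex Metric Filter

noncomputable section

namespace Pool.Agent.Lib.KX

open Pool.Agent.Lib.SV (E)
open Pool.Agent.Lib.HS32
open Pool.Agent.Lib.RAA (hq kp kq)
open Pool.Agent.Lib.DM (uv)
open Pool.Agent.Lib.KH (tri)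

namespace ZMO

variable {n : ℕ} {M : Mf n}

theorem k0 (A : Mat n) (b : (Fin 0 → Fin n) → ℂ) : kp 0 A *ᵥ b = b := by
  funext I
  simp only [Matrix.mulVec, dotProduct, kp, kq, Matrix.of_apply, Finset.univ_unique,
    Finset.sum_singleton, Finset.univ_eq_empty, Finset.prod_empty, one_mul]
  exact congrArg b (Subsingleton.elim _ _)

theorem nw0 (G : M.Fam (Mat n)) (ψ : M.Fam ℝ) (f : M.Fam ℂ) :
    nw G 0 ψ (fun e z (_ : Fin 0 → Fin n) => f e z) = M.nrC ψ f := by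
  funext x
  show hq _ _ / _ ^ 0 * _ = normSq _ * _
  rw [pow_zero, div_one, hq, k0]
  simp only [dotProduct, Finset.univ_unique, Finset.sum_singleton, Pi.star_apply, star_def,
    ← normSq_eq_conj_mul_self, ofReal_re]
  rfl

theorem line (H Θ₁ Θ₂ : M.Fam (Mat n)) {Λ : M.Co} {ψ : M.Fam ℝ} {f : M.Fam ℂ} (w : M.WtC Λ ψ)
    (c : Cn Θ₁ Θ₂ ψ) (h : M.HSecC Λ f) (x : M.X) (hx : M.nrC ψ f x ≠ 0) :
    M.nrC ψ f ∈ Kz H Θ₁ Θ₂ := by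
  refine ⟨⟨0, 0, Fin.elim0, Λ, ψ, fun e z _ => f e z, w, c, ⟨fun e he z hz _ => ?_,
    fun e he e' he' y hy hy' _ => ?_⟩, fun e _ z _ I p => p.elim0,
    _, Mf.ch_mem x, _, Mf.ch_tgt x, fun k => hx ?_⟩, (nw0 H ψ f).symm⟩
  · exact Eventually.mono (e.open_target.mem_nhds hz) fun v hv =>
      differentiableAt_pi.2 fun _ => h.hol e he v hv
  · rw [k0]
    funext I
    simp only [pow_zero, one_mul, Pi.smul_apply, smul_eq_mul]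
    rw [h.cmp e he e' he' y hy hy', mul_comm]
  · have : M.ev f x = 0 := congrFun k default
    rw [Mf.nrC, this, normSq_zero, zero_mul]

theorem cst (hU : St_ZMU) (H Θ₁ Θ₂ : M.Fam (Mat n)) (x : M.X) {ε : ℝ} (h : 0 < ε) :
    (fun _ => ε) ∈ Kz H Θ₁ Θ₂ := by
  obtain ⟨c, w, -⟩ := (hU n M 0 0 0 0).2.2.2.2 Θ₁ Θ₂ (tri M) (tri M) 0 0
  have k : M.nrC 0 (fun _ _ => ((√ε : ℝ) : ℂ)) = fun _ => ε := by
    funext y
    show normSq ((√ε : ℝ) : ℂ) * Real.exp (-0) = ε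
    rw [neg_zero, Real.exp_zero, mul_one, normSq_ofReal, Real.mul_self_sqrt h.le]
  exact k ▸ line H Θ₁ Θ₂ w c ⟨⟨fun e _ z _ => contDiffAt_const, fun e _ e' _ y _ _ =>
    (mul_one _).symm⟩, fun e _ z _ => differentiableAt_const _⟩ x (k ▸ h.ne')

end ZMO

open ZMO in
theorem xZMO (hZKT : St_ZKT) (hZMU : St_ZMU) : St_ZMO := by
  intro n M _ H Θ₁ Θ₂ hH
  obtain ⟨x₀⟩ : Nonempty M.X := inferInstance
  have kt := fun τ : Tz Θ₁ Θ₂ => (hZKT n M H τ.N τ.B τ.Λ τ.ψ hH τ.wt).2.2.2.2.2 τ.s τ.lz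
  have lc : ∀ τ : Tz Θ₁ Θ₂, Lc (τ.pn H) := fun τ => (kt τ).2.2.2 τ.nz
  have mu : ∀ p ∈ Kz H Θ₁ Θ₂, ∀ p' ∈ Kz H Θ₁ Θ₂, (fun x => p x * p' x) ∈ Kz H Θ₁ Θ₂ := by
    rintro _ ⟨τ, rfl⟩ _ ⟨σ, rfl⟩
    obtain ⟨u1, u2, u3, u4, u5⟩ := hZMU n M τ.N σ.N τ.B σ.B
    obtain ⟨x, h1, h2⟩ := (SEC.dense (lc τ)).inter_open_nonempty _
      (isOpen_lt continuous_const (lc σ).sm.continuous) (lc σ).ne
    refine ⟨⟨_, _, bp τ.β σ.β, _, τ.ψ + σ.ψ, fun e z => ap (τ.s e z) (σ.s e z),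
      K3S.TW.wmu τ.wt σ.wt, (u5 Θ₁ Θ₂ _ _ _ _).2.2.1 τ.wt σ.wt τ.cn σ.cn, u1 _ _ _ _ _ τ.lz σ.lz,
      fun e he z hz => u2 _ _ _ _ (τ.alt e he z hz) (σ.alt e he z hz),
      _, Mf.ch_mem x, _, Mf.ch_tgt x, (u3 _ _).2
        ⟨((kt τ).2.2.1 _ (Mf.ch_mem x) _ (Mf.ch_tgt x)).1 ?_,
          ((kt σ).2.2.1 _ (Mf.ch_mem x) _ (Mf.ch_tgt x)).1 ?_⟩⟩,
      funext fun y => (u4 H _ _ _ _ hH y).symm⟩
    · rw [Mf.ch_symm]
      exact h2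
    · rw [Mf.ch_symm]
      exact h1
  refine ⟨cst hZMU H Θ₁ Θ₂ x₀ one_pos, fun p hp => ⟨?_, mu p hp,
    fun ε hε => mu _ (cst hZMU H Θ₁ Θ₂ x₀ hε) p hp⟩,
    fun Λ ψ f w c h ⟨x, hx⟩ => line H Θ₁ Θ₂ w c h x hx⟩
  obtain ⟨τ, rfl⟩ := hp
  exact lc τ

end Pool.Agent.Lib.KX
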