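import Pool.Agent.Lib.KX.Blue

/-! Project kx, row `ZMU`: products of twisted tensors. -/

open scoped Classical Topology Matrix ComplexOrder
open Set Complex Filter

noncomputable section

namespace Pool.Agent.Lib.KX

open Pool.Agent.Lib.HS32 Pool.Agent.Lib.HS32.Mf
open Pool.Agent.Lib.RAA (hq kp st_KQ)
open Pool.Agent.Lib.K3S.TW (sm2)

namespace ZMU

theorem sw {α β : Type} [DecidableEq α] [DecidableEq β] {f : α → β} (hf : Function.Injective f)
    (p p' q : α) : Equiv.swap (f p) (f p') (f q) = f (Equiv.swap p p' q) :=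
  hf.swap_apply p p' q

theorem ne {N N' : ℕ} (p : Fin N) (q : Fin N') : Fin.natAdd N q ≠ Fin.castAdd N' p := fun h => by
  have := congrArg Fin.val h
  simp only [Fin.val_natAdd, Fin.val_castAdd] at this
  omega

end ZMU

open ZMU in
theorem xZMU : St_ZMU := by
  intro n M N N' B B'
  refine ⟨fun O Λ Λ' s s' h h' => ⟨fun e he z hz hO => ?_, fun e he e' he' x hx hx' hO => ?_⟩,
    fun β β' a b ha hb I p p' => ?_, fun a b => KT.Tn.ne_mul, fun G ψ ψ' s s' hG x => ?_,
    fun Θ₁ Θ₂ Λ Λ' ψ ψ' => ⟨⟨0, 0, le_rfl, le_rfl, fun e _ z _ => ?_⟩,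
      ⟨fun e _ z _ => contDiffAt_const, fun e _ e' _ x _ _ => by simp [KH.tri]⟩,
      fun w w' ⟨a, b, a0, b0, c⟩ ⟨a', b', a0', b0', c'⟩ => ⟨a + a', b + b', add_nonneg a0 a0',
        add_nonneg b0 b0', fun e he z hz => ?_⟩, fun w a => w.pw a⟩⟩
  · exact ((h.hol e he z hz hO).and (h'.hol e he z hz hO)).mono fun w t =>
      differentiableAt_pi.2 fun K =>
        (differentiableAt_pi.1 t.1 _).fun_mul (differentiableAt_pi.1 t.2 _)
  · have a1 := h.law e he e' he' x hx hx' hO
    have a2 := h'.law e he e' he' x hx hx' hO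
    funext K
    unfold ap
    rw [KT.Tn.aprod, ← a1, ← a2]
    simp only [Pi.smul_apply, smul_eq_mul, pow_add, sm2]
    ring
  · refine Fin.addCases (fun p => ?_) (fun p => ?_) p <;>
      refine Fin.addCases (fun p' => ?_) (fun p' => ?_) p' <;>
      simp only [bp, Fin.append_left, Fin.append_right] <;> intro h1 h2
    · have k := ha (fun q => I (Fin.castAdd N' q)) p p' (fun t => h1 (congrArg _ t))
        (Fin.castAdd_injective _ _ h2)
      simp only [ap, Function.comp_apply, sw (Fin.castAdd_injective N N'),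
        Equiv.swap_apply_of_ne_of_ne (ne _ _) (ne _ _)]
      exact (congrArg (· * _) k).trans (neg_mul _ _)
    · exact absurd h2.symm (ne _ _)
    · exact absurd h2 (ne _ _)
    · have k := hb (fun q => I (Fin.natAdd N q)) p p' (fun t => h1 (congrArg _ t))
        (Fin.natAdd_injective _ _ h2)
      simp only [ap, Function.comp_apply, sw (Fin.natAdd_injective N' N),
        Equiv.swap_apply_of_ne_of_ne (ne _ _).symm (ne _ _).symm]
      exact (congrArg (_ * ·) k).trans (mul_neg _ _)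
  · have h : ∀ (q : ℕ) (a : (Fin q → Fin n) → ℂ), (star a ⬝ᵥ kp q (M.ev G x) *ᵥ a).im = 0 :=
      fun q a => (Complex.le_def.1 ((((st_KQ q (Fin n) (Fin n) (Fin n)).2.2.2.2.1 _).2
        fun _ => hG.ev_pos x).posSemidef.dotProduct_mulVec_nonneg a)).2.symm
    show hq (kp (N + N') (M.ev G x)) _ / _ ^ (B + B') * Real.exp (-(M.ev ψ x + M.ev ψ' x)) =
      _ / _ * Real.exp (-M.ev ψ x) * (_ / _ * Real.exp (-M.ev ψ' x))
    rw [neg_add, Real.exp_add, mul_mul_mul_comm, div_mul_div_comm, ← pow_add]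
    refine congrArg (· / _ * _) ((KT.Tn.hq_mul _ (M.ev s x) (M.ev s' x)).trans ?_)
    rw [mul_re, h, zero_mul, sub_zero]
    rfl
  · simp only [Mf.hw, Pi.zero_apply, hess_const, zero_smul, add_zero]
  · beta_reduce
    rw [hw_add (w.sm e he z hz) (w'.sm e he z hz), c e he z hz, c' e he z hz, add_smul, add_smul]
    abel

end Pool.Agent.Lib.KX
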