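import Pool.Agent.Lib.KX.Blue
import Pool.Agent.Lib.KT.B_POL
import Pool.Agent.Lib.KP.Kit

/-! Project kx, row ZPO: logarithms of sums of norms of twisted tensors. -/

open scoped Classical Topology ContDiff ComplexOrder Matrix
open Set Complex Filter

noncomputable section

namespace Pool.Agent.Lib.KX

open Pool.Agent.Lib.SV (E)
open Pool.Agent.Lib.HS32
open Pool.Agent.Lib.DM (uv)
open Pool.Agent.Lib.KH.MAX (lw mul_rule)
open Pool.Agent.Lib.KB47 (lw_add lw_congr)

open KT.POL in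
theorem xZPO (hZKT : St_ZKT) : St_ZPO := by
  intro n M _ H N B Λ ψ hH hψ
  obtain ⟨hc, hC⟩ := DM.dCRV n N B
  obtain ⟨C, C0, hC⟩ := hC M H hH
  obtain ⟨A, A0, hA, -⟩ := (mBD n M H hH).1 _ hψ.clo.toForm
  refine ⟨C + A, fun ι _ s hs d hd e he z hz => ?_⟩
  have hol : ∀ i, M.All fun e z => HolN (s i e) z := fun i e he z hz => (hs i).hol e he z hz trivial
  have k : ∀ i, M.All fun e z => _ := fun i e he z hz => hc (H e) (s i e) z
    ((hH.sm.ev he hz).and (hH.pos.ev he hz)) (hol i e he z hz)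
  have r : M.Rep (fun y => ∑ i, nw H B ψ (s i) y)
      fun e w => ∑ i, uv N B (H e) (s i e) w * Real.exp (-ψ e w) :=
    fun e he z hz => Finset.sum_congr rfl fun i _ =>
      (hZKT n M H N B Λ ψ hH hψ).1 univ _ (hs i) e he z hz trivial
  have sψ := hψ.sm e he z hz
  have c1 : ∀ i, ContDiffAt ℝ ∞ (fun w => uv N B (H e) (s i e) w * Real.exp (-ψ e w)) z :=
    fun i => (k i e he z hz).1.mul sψ.neg.exp
  have c := ContDiffAt.sum (s := Finset.univ) fun i _ => c1 i
  have p0 : 0 < ∑ i, uv N B (H e) (s i e) z * Real.exp (-ψ e z) + d :=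
    add_pos_of_nonneg_of_pos (Finset.sum_nonneg fun i _ =>
      mul_nonneg (k i e he z hz).2.1 (Real.exp_pos _).le) hd
  have e1 : M.hs (fun y => Real.log (∑ i, nw H B ψ (s i) y + d)) e z = hess (fun w =>
      ((Real.log (∑ i, uv N B (H e) (s i e) w * Real.exp (-ψ e w) + d) : ℝ) : ℂ)) z :=
    hess_congr ((r.ev he hz).mono fun w hw => congrArg (fun t : ℝ => ((Real.log (t + d) : ℝ) : ℂ)) hw)
  have hp := hH.pos e he z hz
  show ((C + A) • H e z + M.hs _ e z - 0).PosSemidef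
  rw [sub_zero, e1]
  refine RAA.A4.psd_of ((Mf.herm_rsmul hp.1 (C + A)).add
    (hess_herm ((c.add contDiffAt_const).log p0.ne'))) fun v => ?_
  have q0 : 0 ≤ (C + A) * nq (H e z) v :=
    mul_nonneg (add_pos C0 A0).le (hp.posSemidef.re_dotProduct_nonneg v)
  rw [RAA.A4.nq_add, RAA.A4.nq_smul]
  refine q_log c (q_sum c1 fun i => ?_) q0 hd
  by_cases h0 : s i e z = 0
  · exact q_zero (c1 i) (by rw [(k i e he z hz).2.2.1.2 h0, zero_mul])
      (((k i).ev he hz).mono fun w hw => mul_nonneg hw.2.1 (Real.exp_pos _).le)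
  · have u0 : 0 < uv N B (H e) (s i e) z :=
      (k i e he z hz).2.1.lt_of_ne' fun h => h0 ((k i e he z hz).2.2.1.1 h)
    refine q_pos (c1 i) (mul_pos u0 (Real.exp_pos _)) ?_
    have t : 0 ≤ nq _ v := (hC e he z hz (s i e) (hol i e he z hz) h0).re_dotProduct_nonneg v
    rw [RAA.A4.nq_add, RAA.A4.nq_smul] at t
    have t2 : 0 ≤ nq (A • H e z - M.hw ψ e z) v := (hA e he z hz).re_dotProduct_nonneg v
    have t3 : nq (A • H e z - M.hw ψ e z) v = A * nq (H e z) v - lw (ψ e) z v := by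
      rw [← RAA.A4.nq_smul]
      simp only [lw, nq, Mf.hw, Matrix.sub_mulVec, dotProduct_sub, sub_re]
    have e2 : (fun w => Real.log (uv N B (H e) (s i e) w * Real.exp (-ψ e w))) =ᶠ[𝓝 z]
        fun w => Real.log (uv N B (H e) (s i e) w) + -1 * ψ e w :=
      ((k i e he z hz).1.continuousAt.eventually (lt_mem_nhds u0)).mono fun w hw => by
        beta_reduce
        rw [Real.log_mul (ne_of_gt hw) (Real.exp_pos _).ne', Real.log_exp, neg_one_mul]
    rw [lw_congr e2, lw_add ((k i e he z hz).1.log u0.ne') (contDiffAt_const.mul sψ),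
      mul_rule _ sψ]
    have t4 : nq (RAA.hl (uv N B (H e) (s i e)) z) v =
      lw (fun w => Real.log (uv N B (H e) (s i e) w)) z v := rfl
    linarith

end Pool.Agent.Lib.KX
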