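import Pool.Agent.Lib.KX.Defs
import Pool.Agent.Lib.KT.B_EXL
import Pool.Agent.Lib.KT.B_KIT
import Pool.Agent.Lib.KT.B_WRO
import Pool.Agent.Lib.KT.B_WED
import Pool.Agent.Lib.SIE.Tn

/-! Project kx: denominators. -/

open scoped Classical Topology ContDiff ComplexOrder Matrix ENNReal
open Set MeasureTheory Complex Metric Filter

noncomputable section

namespace Pool.Agent.Lib.KX

open Pool.Agent.Lib.SV (E nsq)
open Pool.Agent.Lib.HS32
open Pool.Agent.Lib.RAA (kp)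
open Pool.Agent.Lib.DM (uv)
open Pool.Agent.Lib.KH (HoK OnK Jo)
open Pool.Agent.Lib.SIE (Rk Mr rd Dn Oo Mu)
open Pool.Agent.Lib.KT (Bd Iv LB df)

namespace W7

variable {n : ℕ} {M : Mf n} {H : M.Fam (Mat n)} {p : M.X → ℝ} {σ : Type} [Fintype σ]
  {q : M.Fam (σ → ℂ)}

theorem mem (h : Lq p q) : M.All fun e w => e.symm w ∈ Op p ↔ q e w ≠ 0 := fun e he w hw => by
  obtain ⟨C, C0, hC⟩ := h.cmp e he w hw
  obtain ⟨h1, h2⟩ := hC.self_of_nhds
  refine ⟨fun k l => ?_, fun k => ?_⟩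
  · rw [l, norm_zero, zero_pow two_ne_zero, mul_zero] at h1
    exact not_le.2 k h1
  · exact (mul_pos_iff_of_pos_left C0).1 ((pow_pos (norm_pos_iff.2 k) 2).trans_le h2)

theorem dn (h : Lq p q) : Dn M q ∧ Oo M q = Op p := by
  refine ⟨⟨h.hol, fun e he e' he' x hx hx' => ?_⟩, Set.ext fun x => ⟨fun k => ?_,
    fun k e he hx => (mem h e he _ (e.map_source hx)).1 (by rwa [e.left_inv hx])⟩⟩
  · obtain ⟨C, C0, hC⟩ := h.cmp e he _ (e.map_source hx)
    obtain ⟨C', C0', hC'⟩ := h.cmp e' he' _ (e'.map_source hx')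
    refine ⟨√(C * C'), ?_⟩
    filter_upwards [e.continuousAt hx hC, e'.continuousAt hx' hC', e.open_source.mem_nhds hx,
      e'.open_source.mem_nhds hx'] with y h1 h2 h3 h4
    have a := h1.2
    have b := h2.1
    rw [e.left_inv h3] at a
    rw [e'.left_inv h4] at b
    rw [← Real.sqrt_sq (norm_nonneg (q e' _)), ← Real.sqrt_mul (by positivity), mul_assoc]
    exact Real.le_sqrt_of_sq_le (a.trans (mul_le_mul_of_nonneg_left b C0.le))
  · obtain ⟨e, he, hx⟩ := M.cov x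
    have := (mem h e he _ (e.map_source hx)).2 (k e he hx)
    rwa [e.left_inv hx] at this

theorem opn (h : Lc p) : IsOpen (Op p) := by
  obtain ⟨σ, _, q, k⟩ := h.loc
  exact (dn k).2 ▸ (dn k).1.opn

theorem dense [M.Cpt] (h : Lc p) : Dense (Op p) := by
  obtain ⟨σ, _, q, k⟩ := h.loc
  exact (dn k).2 ▸ (dn k).1.dense ((dn k).2 ▸ h.ne)

/-- Locally bounded holomorphic families extend. -/
theorem ext [M.Cpt] (h : Lc p) {ι : Type} [Fintype ι] {s : M.Fam (ι → ℂ)}
    (hs : OnK M (Op p) fun e z => HolN (s e) z) (hb : LB (Op p) fun e w => ‖s e w‖ ^ 2) :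
    ∃ t : M.Fam (ι → ℂ), (M.All fun e z => HolN (t e) z) ∧
      OnK M (Op p) fun e z => t e z = s e z := by
  obtain ⟨σ, _, q, k⟩ := h.loc
  have key : ∀ (e : M.Ch) (I : ι), ∃ g : E n → ℂ, e ∈ M.C →
      DifferentiableOn ℂ g e.target ∧ EqOn g (fun w => s e w I) (e.target ∩ e.symm ⁻¹' Op p) := by
    intro e I
    by_cases he : e ∈ M.C
    swap
    · exact ⟨0, fun h => (he h).elim⟩
    have hS : IsOpen (e.target ∩ e.symm ⁻¹' Op p) := e.isOpen_inter_preimage_symm (opn h)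
    obtain ⟨g, hg⟩ := KT.tEXL n e.target _ (fun w => s e w I) e.open_target hS inter_subset_left
      (fun w hw => (differentiableAt_pi.1 (hs e he w hw.1 hw.2).self_of_nhds
        I).differentiableWithinAt) fun w₀ hw₀ => by
      obtain ⟨i, hi⟩ : ∃ i, ∃ᶠ w in 𝓝 w₀, q e w i ≠ 0 := by
        by_contra l
        simp only [not_exists, not_frequently, not_not] at l
        refine SIE.fr_dense (dense h) hw₀ ?_
        filter_upwards [eventually_all.2 l, e.open_target.mem_nhds hw₀] with w h1 h2 h3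
        exact (mem k e he w h2).1 h3 (funext h1)
      refine ⟨fun w => q e w i, SIE.holN_i (k.hol e he w₀ hw₀) i, hi,
        (e.open_target.eventually_mem hw₀).mono fun w hw h =>
          ⟨hw, (mem k e he w hw).2 fun h' => h (congrFun h' i)⟩, ?_⟩
      obtain ⟨C, hC⟩ := hb e he w₀ hw₀
      obtain ⟨V, hV, Vo, Vm⟩ := _root_.eventually_nhds_iff.1
        (hC.and (ball_mem_nhds w₀ one_pos))
      refine ⟨V, Vo.mem_nhds Vm, ne_top_of_le_ne_top (ENNReal.mul_ne_top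
        (ENNReal.ofReal_ne_top (r := C)) (measure_ball_lt_top (μ := volume) (x := w₀)
          (r := 1)).ne) ?_⟩
      refine le_trans (setLIntegral_mono' (g := fun _ => ENNReal.ofReal C)
        (Vo.inter hS).measurableSet fun w hw => ENNReal.ofReal_le_ofReal
          ((pow_le_pow_left₀ (norm_nonneg _) (norm_le_pi_norm _ I) 2).trans
            ((hV w hw.1).1 hw.2.2))) ?_
      rw [setLIntegral_const]
      exact mul_le_mul_right (measure_mono fun w hw => (hV w hw.1).2) _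
    exact ⟨g, fun _ => hg⟩
  choose g hg using key
  exact ⟨fun e w I => g e I w, fun e he z hz =>
    (e.open_target.eventually_mem hz).mono fun w hw => differentiableAt_pi.2 fun I =>
      (hg e I he).1.differentiableAt (e.open_target.mem_nhds hw),
    fun e he z hz h => funext fun I => (hg e I he).2 ⟨hz, h⟩⟩

/-- A bounded quotient is meromorphic, with a bound for the differential. -/
theorem mr [M.Cpt] (h : Lc p) {f : M.X → ℂ} (hf : Bd (Op p) p f) :
    Mr M f ∧ LB (Op p) fun e w => ‖df f e w‖ ^ 2 * p (e.symm w) ^ 2 := by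
  obtain ⟨σ, _, q, k⟩ := h.loc
  obtain ⟨A, hA⟩ := hf.2
  obtain ⟨t, t1, t2⟩ := ext h (s := fun e w => f (e.symm w) • q e w)
    (fun e he z hz ho => ((hf.1 e he z hz ho).and (k.hol e he z hz)).mono fun _ l => l.1.smul l.2)
    fun e he z hz => by
      obtain ⟨C, C0, hC⟩ := k.cmp e he z hz
      refine ⟨C * A, hC.mono fun w l ho => ?_⟩
      beta_reduce
      rw [norm_smul, mul_pow, ← normSq_eq_norm_sq]
      refine (mul_le_mul_of_nonneg_left l.2 (normSq_nonneg _)).trans ?_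
      rw [mul_left_comm]
      exact mul_le_mul_of_nonneg_left (hA _ ho) C0.le
  refine ⟨⟨σ, _, q, t, (dn k).1, (dn k).2 ▸ h.ne, fun e he z hz =>
    ⟨t1 e he z hz, fun l => t2 e he z hz ((mem k e he z hz).2 l)⟩⟩, fun e he z hz => ?_⟩
  obtain ⟨C, C0, hC⟩ := k.cmp e he z hz
  obtain ⟨K, hK⟩ := KT.WRO.bnd (k.hol e he z hz) (t1 e he z hz)
  refine ⟨(C * K) ^ 2, ?_⟩
  filter_upwards [hC, hK, e.open_target.mem_nhds hz] with w h1 h2 h3 h4
  have h6 := h2 (fun _ => 1) (f ∘ e.symm) (q e) (differentiableAt_const _)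
    (hf.1 e he w h3 h4).self_of_nhds (k.hol e he w h3).self_of_nhds (by
      filter_upwards [e.open_target.mem_nhds h3,
        (e.continuousAt_symm h3).eventually ((opn h).mem_nhds h4)] with y l1 l2
        using ⟨(one_smul _ _).symm, t2 e he y l1 l2⟩)
  have z0 : (f ∘ e.symm) w • (0 : E n →L[ℂ] ℂ) = 0 := by
    ext
    simp
  rw [KT.WRO.wr, fderiv_fun_const, Pi.zero_apply, z0, one_smul, sub_zero] at h6
  rw [← mul_pow]
  refine pow_le_pow_left₀ (mul_nonneg (norm_nonneg _) (h.nn _)) ?_ 2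
  refine (mul_le_mul_of_nonneg_left h1.1 (norm_nonneg _)).trans ?_
  rw [mul_left_comm]
  exact mul_le_mul_of_nonneg_left h6 C0.le

theorem bdd [M.Cpt] (h : Lc p) : ∃ C > (0 : ℝ), ∀ x, p x ≤ C := by
  obtain ⟨C, hC⟩ := isCompact_univ.bddAbove_image (continuous_iff_continuousAt.2 fun x =>
    KT.KIT.cont (Mf.AllOn.ch h.sm x).continuousAt).continuousOn
  exact ⟨|C| + 1, by positivity, fun x =>
    (hC ⟨x, trivial, rfl⟩).trans ((le_abs_self C).trans (lt_add_one _).le)⟩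

theorem op_mul {p' : M.X → ℝ} (h : Lc p) (h' : Lc p') {x : M.X} :
    x ∈ Op (fun x => p x * p' x) ↔ x ∈ Op p ∧ x ∈ Op p' :=
  ⟨fun k => ⟨pos_of_mul_pos_right (a := p' x) (by rwa [mul_comm]) (h'.nn x),
    pos_of_mul_pos_right k (h.nn x)⟩, fun k => mul_pos (a := p x) k.1 k.2⟩

theorem bd_mul [M.Cpt] {p' : M.X → ℝ} (h : Lc p) (h' : Lc p') {f : M.X → ℂ} :
    (Bd (Op p) p f → Bd (Op fun x => p x * p' x) (fun x => p x * p' x) f) ∧
    (Bd (Op p') p' f → Bd (Op fun x => p x * p' x) (fun x => p x * p' x) f) := by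
  obtain ⟨C, C0, hC⟩ := bdd h
  obtain ⟨C', C0', hC'⟩ := bdd h'
  exact ⟨fun k => KT.WED.bd k (fun _ l => ((op_mul h h').1 l).1) C0'.le fun y _ =>
      (mul_le_mul_of_nonneg_left (hC' y) (h.nn y)).trans_eq (mul_comm _ _),
    fun k => KT.WED.bd k (fun _ l => ((op_mul h h').1 l).2) C0.le fun y _ =>
      mul_le_mul_of_nonneg_right (hC y) (h'.nn y)⟩

variable {N B : ℕ} {Λ : M.Co} {ψ : M.Fam ℝ} {s : M.Fam ((Fin N → Fin n) → ℂ)}

theorem rep (hH : M.Met H) {O : Set M.X} (w : M.WtC Λ ψ) (hs : Lz O N B Λ s) : OnK M O fun e z =>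
    nw H B ψ s (e.symm z) = uv N B (H e) (s e) z * Real.exp (-ψ e z) := fun e he z hz h => by
  have hx := e.map_target hz
  have k := DM.NRM.uv_eq N B _ _ (fun w => Λ.c e (M.ch (e.symm z)) (e.symm z) • s e w) _ _ _ _
    ((mTR n M).2.1 e he _ (Mf.ch_mem _) _ hx (Mf.mem_ch _)).2.1
    (hH.cmp e he _ (Mf.ch_mem _) _ hx (Mf.mem_ch _))
    ((smul_smul _ _ _).trans (hs.law e he _ (Mf.ch_mem _) _ hx (Mf.mem_ch _) h))
  have l := w.cmp e he _ (Mf.ch_mem _) _ hx (Mf.mem_ch _)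
  have c := normSq_pos.2 (Λ.ne e he _ (Mf.ch_mem _) _ hx (Mf.mem_ch _))
  beta_reduce at l c
  rw [e.right_inv hz] at k l
  show uv N B _ _ _ * Real.exp (-ψ _ _) = _
  rw [k, l, neg_add, Real.exp_add, Real.exp_neg (Real.log _), Real.exp_log c]
  simp only [uv, DM.NRM.hq_smul]
  field_simp

theorem cmp [M.Cpt] (hH : M.Met H) (N B : ℕ) (w : M.WtC Λ ψ) : M.All fun e w₀ =>
    ∃ C > (0 : ℝ), ∀ᶠ w in 𝓝 w₀, ∀ s : E n → (Fin N → Fin n) → ℂ,
      uv N B (H e) s w * Real.exp (-ψ e w) ≤ C * ‖s w‖ ^ 2 ∧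
        ‖s w‖ ^ 2 ≤ C * (uv N B (H e) s w * Real.exp (-ψ e w)) := fun e he z hz => by
  obtain ⟨C, C0, hC⟩ := (KT.tKIT n M H hH).1 N B e he z hz
  have c := (w.sm e he z hz).continuousAt.abs.eventually_lt_const (lt_add_one _)
  refine ⟨C * Real.exp (|ψ e z| + 1), by positivity, (hC.and c).mono fun u l s => ?_⟩
  obtain ⟨a, b⟩ := l.1 s
  have u0 := nonneg_of_mul_nonneg_right ((sq_nonneg _).trans b) C0
  obtain ⟨c1, c2⟩ := abs_lt.1 l.2
  refine ⟨?_, b.trans ?_⟩
  · rw [mul_right_comm]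
    exact mul_le_mul a (Real.exp_le_exp.2 (by linarith)) (Real.exp_pos _).le (by positivity)
  · rw [mul_assoc, mul_left_comm (Real.exp _), ← Real.exp_add]
    exact mul_le_mul_of_nonneg_left (le_mul_of_one_le_right u0 (Real.one_le_exp (by linarith)))
      C0.le

/-- Locally bounded tensors extend. -/
theorem extz [M.Cpt] (h : Lc p) {r : ℕ} {β : Fin N → Fin r} (hs : Lz (Op p) N B Λ s)
    (ha : OnK M (Op p) fun e z => Ab β (s e z)) (hb : LB (Op p) fun e w => ‖s e w‖ ^ 2) :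
    ∃ t, Lz univ N B Λ t ∧ (M.All fun e z => Ab β (t e z)) ∧
      OnK M (Op p) fun e z => t e z = s e z := by
  obtain ⟨t, t1, t2⟩ := ext h hs.hol hb
  have hc : M.All fun e z => ContinuousAt (t e) z := fun e he z hz =>
    (t1 e he z hz).self_of_nhds.continuousAt
  refine ⟨t, ⟨fun e he z hz _ => t1 e he z hz, fun e he e' he' x hx hx' _ => ?_⟩,
    fun e he z hz I i j hij hβ => ?_, t2⟩
  · have c := SIE.cont_J e he e' he' x hx hx'
    have d : ContinuousAt (fun y => (M.J e e' y).det) x :=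
      continuous_id.matrix_det.continuousAt.comp c
    have d' : ContinuousAt (Λ.c e e') x :=
      ((Λ.hol e he e' he' x hx hx').self_of_nhds.continuousAt.comp (e'.continuousAt hx')).congr
        ((e'.eventually_left_inverse hx').mono fun _ hy => congrArg (Λ.c e e') hy)
    have a0 : ContinuousAt (fun y => t e (e y)) x :=
      ContinuousAt.comp (f := e) (hc e he _ (e.map_source hx)) (e.continuousAt hx)
    have a' : ContinuousAt (fun y => t e' (e' y)) x :=
      ContinuousAt.comp (f := e') (hc e' he' _ (e'.map_source hx')) (e'.continuousAt hx')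
    have b : ContinuousAt (fun y => kp N (M.J e e' y) *ᵥ t e' (e' y)) x := by
      refine continuousAt_pi.2 fun I => tendsto_finsetSum _ fun K _ => ?_
      have q : ContinuousAt (fun y => ∏ p, M.J e e' y (I p) (K p)) x :=
        tendsto_finsetProd _ fun p _ => continuousAt_pi.1 (continuousAt_pi.1 c _) _
      exact q.mul (continuousAt_pi.1 a' K)
    refine tendsto_nhds_unique_of_frequently_eq (((d.pow B).mul d').smul a0) b ?_
    refine ((mem_closure_iff_frequently.1 (dense h x)).and_eventually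
      ((e.open_source.eventually_mem hx).and (e'.open_source.eventually_mem hx'))).mono
      fun y hy => ?_
    show ((M.J e e' y).det ^ B * Λ.c e e' y) • t e (e y) = kp N _ *ᵥ t e' (e' y)
    rw [t2 e he _ (e.map_source hy.2.1) (by rw [e.left_inv hy.2.1]; exact hy.1),
      t2 e' he' _ (e'.map_source hy.2.2) (by rw [e'.left_inv hy.2.2]; exact hy.1)]
    exact hs.law e he e' he' y hy.2.1 hy.2.2 hy.1
  · refine tendsto_nhds_unique_of_frequently_eq (continuousAt_pi.1 (hc e he z hz) _)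
      (continuousAt_pi.1 (hc e he z hz) _).neg
      (((SIE.fr_dense (dense h) hz).and_eventually (e.open_target.eventually_mem hz)).mono
        fun y hy => ?_)
    show t e y _ = -t e y I
    rw [t2 e he y hy.2 hy.1]
    exact ha e he y hy.2 hy.1 I i j hij hβ

theorem ab_mul {q q' r r' : ℕ} {β : Fin q → Fin r} {β' : Fin q' → Fin r'}
    {a : (Fin q → Fin n) → ℂ} {b : (Fin q' → Fin n) → ℂ} (ha : Ab β a) (hb : Ab β' b) :
    Ab (Fin.append (fun i => Fin.castAdd r' (β i)) fun j => Fin.natAdd r (β' j))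
      fun K : Fin (q + q') → Fin n =>
        a (fun p => K (Fin.castAdd q' p)) * b fun p => K (Fin.natAdd q p) := by
  have ne : ∀ {q q' : ℕ} (i : Fin q) (j : Fin q'), Fin.castAdd q' i ≠ Fin.natAdd q j :=
    fun i j k => by
      have := congrArg Fin.val k
      simp only [Fin.val_castAdd, Fin.val_natAdd] at this
      omega
  intro I i j hij h
  induction i using Fin.addCases with
  | left i => induction j using Fin.addCases with
    | left j =>
      rw [Fin.append_left, Fin.append_left] at h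
      simp only [Function.comp, ← (Fin.castAdd_injective _ _).map_swap,
        Equiv.swap_apply_of_ne_of_ne (ne _ _).symm (ne _ _).symm]
      exact (congrArg (· * _) (ha (fun p => I (Fin.castAdd q' p)) i j (fun k => hij (k ▸ rfl))
        (Fin.castAdd_injective _ _ h))).trans (neg_mul _ _)
    | right j =>
      rw [Fin.append_left, Fin.append_right] at h
      exact (ne _ _ h).elim
  | right i => induction j using Fin.addCases with
    | left j =>
      rw [Fin.append_left, Fin.append_right] at h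
      exact (ne _ _ h.symm).elim
    | right j =>
      rw [Fin.append_right, Fin.append_right] at h
      simp only [Function.comp, ← (Fin.natAdd_injective _ _).map_swap,
        Equiv.swap_apply_of_ne_of_ne (ne _ _) (ne _ _)]
      exact (congrArg (_ * ·) (hb (fun p => I (Fin.natAdd q p)) i j (fun k => hij (k ▸ rfl))
        (Fin.natAdd_injective _ _ h))).trans (mul_neg _ _)

theorem den [M.Cpt] {K : Set (M.X → ℝ)} (one : (fun _ => 1) ∈ K)
    (mul : ∀ p ∈ K, ∀ p' ∈ K, (fun x => p x * p' x) ∈ K) (lc : ∀ p ∈ K, Lc p) {ι : Type}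
    (S : Finset ι) {z : ι → M.X → ℂ} (h : ∀ i, Mer K (z i)) :
    ∃ p ∈ K, ∀ i ∈ S, Bd (Op p) p (z i) := by
  induction S using Finset.induction_on with
  | empty => exact ⟨_, one, fun _ h => absurd h (Finset.notMem_empty _)⟩
  | insert i S _ ih =>
    obtain ⟨p, p1, p2⟩ := h i
    obtain ⟨p', p3, p4⟩ := ih
    refine ⟨_, mul p p1 p' p3, fun j hj => ?_⟩
    rcases Finset.mem_insert.1 hj with rfl | hj
    · exact (bd_mul (lc p p1) (lc p' p3)).1 p2
    · exact (bd_mul (lc p p1) (lc p' p3)).2 (p4 j hj)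

theorem pw {K : Set (M.X → ℝ)} (one : (fun _ => 1) ∈ K)
    (mul : ∀ p ∈ K, ∀ p' ∈ K, (fun x => p x * p' x) ∈ K) (h : p ∈ K) (j : ℕ) :
    (fun x => p x ^ j) ∈ K := by
  induction j with
  | zero => simpa only [pow_zero] using one
  | succ j ih => simpa only [pow_succ] using mul _ ih _ h

/-- The minors. -/
def Mn : Prop := ∀ k m : ℕ, ∃ Δ : (Fin k → E (k + m) →L[ℂ] ℂ) → (Fin m → Fin (k + m)) → ℂ,
  (∀ L, Differentiable ℂ fun a => Δ a L) ∧
  (∀ (a : Fin k → E (k + m) →L[ℂ] ℂ) (c : Fin k → ℂ), Δ (fun i => c i • a i) = (∏ i, c i) • Δ a) ∧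
  (∀ (a a' : Fin k → E (k + m) →L[ℂ] ℂ) (J : Mat (k + m)), (∀ i v, a' i v = a i (J *ᵥ v)) →
    J.det • Δ a = kp m J *ᵥ Δ a') ∧
  (∀ a : Fin k → E (k + m) →L[ℂ] ℂ, Δ a ≠ 0 ↔ Function.Surjective (ContinuousLinearMap.pi a)) ∧
  (∃ C : ℝ, ∀ (a : Fin k → E (k + m) →L[ℂ] ℂ) (c : Fin k → ℂ),
    ‖c‖ * ‖Δ a‖ ≤ C * (1 + ‖a‖) ^ k * ‖∑ i, c i • a i‖) ∧
  ∀ a, Ab (fun _ : Fin m => (0 : Fin 1)) (Δ a)

theorem wed (hMN : Mn) {n : ℕ} {M : Mf n} [M.Cpt] {H Θ₁ Θ₂ : M.Fam (Mat n)} (hH : M.Met H)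
    (one : (fun _ => 1) ∈ Kz H Θ₁ Θ₂)
    (mul : ∀ p ∈ Kz H Θ₁ Θ₂, ∀ p' ∈ Kz H Θ₁ Θ₂, (fun x => p x * p' x) ∈ Kz H Θ₁ Θ₂)
    (lc : ∀ p ∈ Kz H Θ₁ Θ₂, Lc p) (k : ℕ) (z : Fin k → M.X → ℂ)
    (hz : ∀ i, Mer (Kz H Θ₁ Θ₂) (z i)) (hrk : ∃ x, Rk M z x) :
    ∃ ρ ∈ Kz H Θ₁ Θ₂, (∀ i, Bd (Op ρ) ρ (z i)) ∧ Iv (Op ρ) ρ z := by
  obtain ⟨m, rfl⟩ := Nat.exists_eq_add_of_le (SIE.rk_le hrk.choose_spec)
  obtain ⟨Δ, d1, d2, d3, d4, ⟨C5, d5⟩, d6⟩ := hMN k m
  obtain ⟨p, pK, hτ'⟩ := den one mul lc Finset.univ hz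
  have hτ := fun i => hτ' i (Finset.mem_univ i)
  have hp := lc p pK
  obtain ⟨θ, hθ⟩ := pw one mul pK (2 * k)
  have p0 := hp.nn
  have b' : M.All fun e w => uv θ.N θ.B (H e) (θ.s e) w * Real.exp (-θ.ψ e w) =
      p (e.symm w) ^ (2 * k) := fun e he w hw =>
    (rep hH θ.wt θ.lz e he w hw trivial).symm.trans (congrFun hθ _).symm
  obtain ⟨s, hs⟩ : ∃ s : M.Fam ((Fin (θ.N + m) → Fin (k + m)) → ℂ), s = fun e w L =>
      θ.s e w (fun p => L (Fin.castAdd m p)) *
        Δ (fun i => df (z i) e w) fun p => L (Fin.natAdd θ.N p) := ⟨_, rfl⟩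
  have lt : Lz (Op p) (θ.N + m) (θ.B + 1) θ.Λ s := by
    rw [hs]
    refine ⟨fun e he w hw ho => ?_, fun e he e' he' x hx hx' ho => funext fun L => ?_⟩
    · filter_upwards [θ.lz.hol e he w hw trivial,
        eventually_all.2 fun i => KT.WED.hol_df ((hτ i).1 e he w hw ho)] with u h1 h2
      exact differentiableAt_pi.2 fun L => (differentiableAt_pi.1 h1 _).mul
        ((d1 _ _).comp u (differentiableAt_pi.2 h2))
    · rw [KT.Tn.aprod, ← θ.lz.law e he e' he' x hx hx' trivial,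
        ← d3 (fun i => df (z i) e (e x)) _ _ fun i v => KT.WED.chain he he' hx hx'
          ((hτ i).1 e he _ (e.map_source hx) (by rwa [e.left_inv hx])) v]
      simp only [Pi.smul_apply, smul_eq_mul]
      ring
  have key : M.All fun e w₀ => ∃ C R : ℝ, 0 ≤ C ∧ 0 ≤ R ∧ ∀ᶠ w in 𝓝 w₀, w ∈ e.target ∧
      (e.symm w ∈ Op p → ‖fun i => (p (e.symm w) : ℂ) • df (z i) e w‖ ≤ R ∧
        ‖s e w‖ ^ 2 ≤ C * ‖Δ fun i => (p (e.symm w) : ℂ) • df (z i) e w‖ ^ 2) :=
    fun e he w₀ hw₀ => by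
    obtain ⟨C', C0', hC'⟩ := cmp hH θ.N θ.B θ.wt e he w₀ hw₀
    choose R hR using fun i => (mr hp (hτ i)).2 e he w₀ hw₀
    refine ⟨C', ∑ i, √(R i), C0'.le, Finset.sum_nonneg fun _ _ => Real.sqrt_nonneg _, ?_⟩
    filter_upwards [hC', eventually_all.2 hR, e.open_target.mem_nhds hw₀] with w h2 h3 h4
    refine ⟨h4, fun ho => ⟨(pi_norm_le_iff_of_nonneg
      (Finset.sum_nonneg fun _ _ => Real.sqrt_nonneg _)).2 fun i => ?_, ?_⟩⟩
    · refine le_trans (Real.le_sqrt_of_sq_le ?_) (Finset.single_le_sum (f := fun i => √(R i))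
        (fun _ _ => Real.sqrt_nonneg _) (Finset.mem_univ i))
      rw [norm_smul, norm_real, Real.norm_of_nonneg (p0 _), mul_pow, mul_comm]
      exact h3 i ho
    · have a : ‖s e w‖ ≤ ‖θ.s e w‖ * ‖Δ fun i => df (z i) e w‖ := by
        rw [hs]
        refine (pi_norm_le_iff_of_nonneg (by positivity)).2 fun L => ?_
        rw [norm_mul]
        exact mul_le_mul (norm_le_pi_norm _ _) (norm_le_pi_norm _ _) (norm_nonneg _) (norm_nonneg _)
      have b := (h2 (θ.s e)).2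
      rw [b' e he w h4] at b
      rw [d2, norm_smul, Finset.prod_const, Finset.card_univ, Fintype.card_fin, norm_pow, norm_real,
        Real.norm_of_nonneg (p0 _), mul_pow, ← pow_mul, mul_comm k 2, ← mul_assoc]
      refine (pow_le_pow_left₀ (norm_nonneg _) a 2).trans ?_
      rw [mul_pow]
      exact mul_le_mul_of_nonneg_right b (sq_nonneg _)
  obtain ⟨t, t1, t3, t2⟩ := extz hp lt
    (fun e he w hw _ => by rw [hs]; exact ab_mul (θ.alt e he w hw) (d6 _)) fun e he w₀ hw₀ => by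
    obtain ⟨C, R, C0, -, h⟩ := key e he w₀ hw₀
    haveI := FiniteDimensional.proper_rclike ℂ (Fin k → E (k + m) →L[ℂ] ℂ)
    obtain ⟨D, hD⟩ := (isCompact_closedBall (0 : Fin k → E (k + m) →L[ℂ] ℂ) R
      ).exists_bound_of_continuousOn (continuous_pi fun L => (d1 L).continuous).continuousOn
    exact ⟨C * D ^ 2, h.mono fun w l ho => (l.2 ho).2.trans (mul_le_mul_of_nonneg_left
      (pow_le_pow_left₀ (norm_nonneg _) (hD _ (mem_closedBall_zero_iff.2 (l.2 ho).1)) 2) C0)⟩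
  have ne : OnK M (Op p) fun e w => t e w ≠ 0 ↔ Function.Surjective (fderiv ℂ (rd M z e) w) :=
    fun e he w hw ho => by
      obtain ⟨C, -, hC⟩ := cmp hH θ.N θ.B θ.wt e he w hw
      have a := (hC.self_of_nhds (θ.s e)).1
      rw [b' e he w hw] at a
      beta_reduce
      rw [t2 e he w hw ho, hs, KT.Tn.ne_mul, d4,
        (KT.WED.fd_rd fun i => (hτ i).1 e he w hw ho).2, and_iff_right fun l => ?_]
      rw [l, norm_zero, zero_pow two_ne_zero, mul_zero] at a
      exact not_le.2 (pow_pos ho _) a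
  obtain ⟨r, rK, σ2⟩ : ∃ r ∈ Kz H Θ₁ Θ₂, M.All fun e w =>
      r (e.symm w) = uv (θ.N + m) (θ.B + 1) (H e) (t e) w * Real.exp (-θ.ψ e w) := by
    refine ⟨_, ⟨⟨θ.N + m, θ.B + 1, _, θ.Λ, θ.ψ, t, θ.wt, θ.cn, t1, t3, ?_⟩, rfl⟩,
      fun e he w hw => rep hH θ.wt t1 e he w hw trivial⟩
    obtain ⟨x, h1, h2⟩ := (SIE.rk_dense (fun j => (mr hp (hτ j)).1) hrk
      ).inter_open_nonempty _ (opn hp) hp.ne
    obtain ⟨e, he, hx⟩ := M.cov x
    exact ⟨e, he, _, e.map_source hx,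
      (ne e he _ (e.map_source hx) (by rwa [e.left_inv hx])).2 (h2 e he hx).2⟩
  obtain ⟨P, P0, hP⟩ := bdd hp
  refine ⟨_, mul r rK p pK, fun i => (bd_mul (lc r rK) hp).2 (hτ i), fun x hx => ?_,
    fun e he w₀ hw₀ => ?_⟩
  · rw [op_mul (lc r rK) hp] at hx
    obtain ⟨e, he, hx'⟩ := M.cov x
    have a : e.symm (e x) ∈ Op p := by rw [e.left_inv hx']; exact hx.2
    refine SIE.rk_of he hx' (KT.WED.fd_rd fun i => (hτ i).1 e he _ (e.map_source hx') a).1
      ((ne e he _ (e.map_source hx') a).1 fun l => ?_)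
    obtain ⟨C, -, hC⟩ := cmp hH (θ.N + m) (θ.B + 1) θ.wt e he _ (e.map_source hx')
    have b := (hC.self_of_nhds (t e)).1
    rw [← σ2 e he _ (e.map_source hx'), e.left_inv hx', l, norm_zero, zero_pow two_ne_zero,
      mul_zero] at b
    exact not_le.2 hx.1 b
  · obtain ⟨C', R, C0', R0, h⟩ := key e he w₀ hw₀
    obtain ⟨C'', C0, h'⟩ := cmp hH (θ.N + m) (θ.B + 1) θ.wt e he w₀ hw₀
    obtain ⟨C, hC⟩ : ∃ C, C = C'' * C' := ⟨_, rfl⟩
    have C1 : 0 ≤ C := hC ▸ mul_nonneg C0.le C0'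
    refine ⟨C * (|C5| * (1 + R) ^ k * P) ^ 2 * P, (h.and h').mono fun w ⟨l, l'⟩ ho a => ?_⟩
    rw [op_mul (lc r rK) hp] at ho
    obtain ⟨l1, l2⟩ := l.2 ho.2
    have b : r (e.symm w) ≤ C * ‖Δ fun i => (p (e.symm w) : ℂ) • df (z i) e w‖ ^ 2 := by
      rw [σ2 e he w l.1, hC, mul_assoc]
      refine (l' _).1.trans (mul_le_mul_of_nonneg_left ?_ C0.le)
      rwa [t2 e he w l.1 ho.2]
    have c := d5 (fun i => (p (e.symm w) : ℂ) • df (z i) e w) a
    have c' : ‖∑ i, a i • (p (e.symm w) : ℂ) • df (z i) e w‖ ≤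
        P * ‖∑ i, a i • df (z i) e w‖ := by
      simp only [smul_comm (a _) (p (e.symm w) : ℂ)]
      rw [← Finset.smul_sum, norm_smul, norm_real, Real.norm_of_nonneg (p0 _)]
      exact mul_le_mul_of_nonneg_right (hP _) (norm_nonneg _)
    have c2 := pow_le_pow_left₀ (by positivity) (c.trans (show _ ≤
      |C5| * (1 + R) ^ k * (P * ‖∑ i, a i • df (z i) e w‖) by gcongr; exact le_abs_self _)) 2
    calc _ ≤ ‖a‖ ^ 2 * (C * ‖Δ fun i => (p (e.symm w) : ℂ) • df (z i) e w‖ ^ 2 * P) :=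
          mul_le_mul_of_nonneg_left (mul_le_mul b (hP _) (p0 _) (by positivity)) (sq_nonneg _)
      _ = C * P * (‖a‖ * ‖Δ fun i => (p (e.symm w) : ℂ) • df (z i) e w‖) ^ 2 := by ring
      _ ≤ C * P * (|C5| * (1 + R) ^ k * (P * ‖∑ i, a i • df (z i) e w‖)) ^ 2 :=
          mul_le_mul_of_nonneg_left c2 (by positivity)
      _ = _ := by ring

end W7

end Pool.Agent.Lib.KX
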