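import Pool.Agent.Lib.KX.Blue
import Pool.Agent.Lib.KX.W7

/-! Project kx: the wedge of the differentials. -/

namespace Pool.Agent.Lib.KX

theorem xZWE (hZMO : St_ZMO) (hMN2 : St_MN2) : St_ZWE := fun n M _ H Θ₁ Θ₂ k z p hH hp hz h =>
  W7.wed hMN2 hH (hZMO n M H Θ₁ Θ₂ hH).1 (fun q k => ((hZMO n M H Θ₁ Θ₂ hH).2.1 q k).2.1)
    (fun q k => ((hZMO n M H Θ₁ Θ₂ hH).2.1 q k).1) k z (fun i => ⟨p, hp, hz i⟩) h

end Pool.Agent.Lib.KX
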