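import Pool.Agent.Lib.KX.B_ADJ
import Pool.Agent.Lib.KX.B_AL
import Pool.Agent.Lib.KX.B_ALG
import Pool.Agent.Lib.KX.B_BDL
import Pool.Agent.Lib.KX.B_CHL
import Pool.Agent.Lib.KX.B_CK
import Pool.Agent.Lib.KX.B_CR4
import Pool.Agent.Lib.KX.B_CRQ
import Pool.Agent.Lib.KX.B_DLO
import Pool.Agent.Lib.KX.B_DMZ
import Pool.Agent.Lib.KX.B_DNS
import Pool.Agent.Lib.KX.B_DOM
import Pool.Agent.Lib.KX.B_ENV
import Pool.Agent.Lib.KX.B_EXC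
import Pool.Agent.Lib.KX.B_EXD
import Pool.Agent.Lib.KX.B_FB
import Pool.Agent.Lib.KX.B_FD
import Pool.Agent.Lib.KX.B_FLD
import Pool.Agent.Lib.KX.B_FN
import Pool.Agent.Lib.KX.B_FRA
import Pool.Agent.Lib.KX.B_FRM
import Pool.Agent.Lib.KX.B_KIT
import Pool.Agent.Lib.KX.B_LGT
import Pool.Agent.Lib.KX.B_LOC
import Pool.Agent.Lib.KX.B_MN2
import Pool.Agent.Lib.KX.B_MR
import Pool.Agent.Lib.KX.B_PAZ
import Pool.Agent.Lib.KX.B_PG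
import Pool.Agent.Lib.KX.B_PSI
import Pool.Agent.Lib.KX.B_QUZ
import Pool.Agent.Lib.KX.B_REF
import Pool.Agent.Lib.KX.B_RIE
import Pool.Agent.Lib.KX.B_SEC
import Pool.Agent.Lib.KX.B_TK
import Pool.Agent.Lib.KX.B_TRC
import Pool.Agent.Lib.KX.B_ZAR
import Pool.Agent.Lib.KX.B_ZCL
import Pool.Agent.Lib.KX.B_ZEX
import Pool.Agent.Lib.KX.B_ZKT
import Pool.Agent.Lib.KX.B_ZMO
import Pool.Agent.Lib.KX.B_ZMU
import Pool.Agent.Lib.KX.B_ZNU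
import Pool.Agent.Lib.KX.B_ZPO
import Pool.Agent.Lib.KX.B_ZWE
import Pool.Agent.Lib.ZE.All0
import Pool.Agent.Lib.DK.B_AVG

/-! Project kx: the rows together. -/

open scoped Classical Topology ContDiff ComplexOrder Matrix ENNReal
open Set MeasureTheory Complex Metric Filter

noncomputable section

namespace Pool.Agent.Lib.KX

open Pool.Agent.Lib.HS32

theorem aMR : St_MR := xMR xEXC
theorem aBDL : St_BDL := xBDL xKIT xEXC xCHL xLGT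
theorem aFD : St_FD := xFD aMR
theorem aLOC : St_LOC := xLOC xEXC aMR xLGT
theorem aSEC : St_SEC := xSEC xEXC xLGT
theorem aCK : St_CK := xCK xKIT
theorem aFLD : St_FLD := xFLD aCK
theorem aALG : St_ALG := xALG xKIT aCK aFLD aMR
theorem aREF : St_REF := xREF xKIT
theorem aFRA : St_FRA := xFRA xKIT aCK
theorem aFN : St_FN := xFN xKIT aCK
theorem aAL : St_AL := xAL xKIT aFN xPG xLGT
theorem aFRM : St_FRM :=
  xFRM xKIT aCK (xFB xKIT) (xDLO xKIT) aFN aAL aLOC aBDL xRIE aFD xLGT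
theorem aZMO : St_ZMO := xZMO xZKT xZMU
theorem aZEX : St_ZEX := xZEX xEXC
theorem aZNU : St_ZNU := xZNU xZKT aZEX
theorem aZPO : St_ZPO := xZPO xZKT
theorem aZWE : St_ZWE := xZWE aZMO xMN2
theorem aZCL : St_ZCL := xZCL xKIT xZKT aZMO aZNU aZPO aZWE
theorem aPSI : St_PSI := xPSI xKIT xZKT aZMO xQUZ
theorem aPAZ : St_PAZ := xPAZ xKIT xZKT aZNU xTRC
theorem aEXD : St_EXD := xEXD aCK aZMO aZCL
theorem aADJ : St_ADJ := xADJ xZMU xLGT aEXD xDNS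
theorem aZAR : St_ZAR := xZAR aEXD aBDL aSEC
theorem aDOM (hA : HS.St_AUBIN) : St_DOM := xDOM aZCL aPAZ (xDMZ hA) DK.dAVG
theorem aTOP (hA : HS.St_AUBIN) : St_TOP :=
  top xCRQ aPSI aZCL aALG aFRA aREF xKIT aEXD aFRM (xENV (ZE.ze0 hA)) aADJ

/-- The context of the trunk from many multivectors. -/
theorem aTK (hA : HS.St_AUBIN) : St_TK :=
  xTK (aTOP hA) aZCL xKIT aEXD aZAR aSEC (aDOM hA) xZMU xLGT (ZE.ze0 hA)

/-- The context of the trunk from many proportional tensors. -/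
theorem aTKq (hA : HS.St_AUBIN) {n : ℕ} {M : Mf n} [M.Cpt] {ι : Type} [Fintype ι] (D : Pp M ι)
    (d : ℕ) (h : Pq D.L d) (hN : Ng D) : ∃ (X : KU.Tk M) (m : ℕ), 0 < m ∧ X.H = D.H ∧ X.Θ = D.T ∧
      X.Λ = D.L.pw m ∧ KU.Gro X.p X.T 1 1 d := by
  refine TK.core aZCL xKIT aEXD aZAR aSEC (aDOM hA) xZMU xLGT (ZE.ze0 hA) D d hN ?_
  have hm := D.kae.toMet
  have cl := aZCL n M D.H D.T D.P hm
  obtain ⟨m, m0, τ, p₁, b⟩ := aPSI n M D.H D.T D.P D.L D.φ D.c d hm D.wL (Nat.cast_nonneg _) D.cur h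
  obtain ⟨k, z, θ, μ, Δ, g⟩ := aALG n M _ _ cl
  obtain ⟨x1, x2, x3, -⟩ := aEXD n M ι D
  obtain ⟨p, p₀, f1, f2, f3, C, f4⟩ := aFRA n k M _ _ z θ μ Δ _ cl g (cl.mul _ b.mem _ x1)
  obtain ⟨-, -, -, ⟨A, A0, hA'⟩, -⟩ := xKIT n M _ _ hm (cl.lc _ x1)
  have n1 := (cl.lc _ b.mem).nn
  have n2 := (cl.lc _ x1).nn
  have b' := aREF n M _ _ _ _ τ p₁ p 1 d cl b f2 f3 ⟨|C| * A, fun x => (f4 x).trans
    ((mul_le_mul (le_abs_self C) (mul_le_mul_of_nonneg_left (hA' x) (n1 x))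
      (mul_nonneg (n1 x) (n2 x)) (abs_nonneg C)).trans_eq (by ring))⟩
  have ex : ∃ C', ∀ x, p x ≤ C' * D.ex x := ⟨|C|, fun x => (f4 x).trans
    (mul_le_mul (le_abs_self C) (mul_le_of_le_one_left (n2 x) (b.le1 x))
      (mul_nonneg (n1 x) (n2 x)) (abs_nonneg C))⟩
  obtain ⟨C', fr⟩ := aFRM n k M _ _ _ _ τ 1 d p p₀ _ z θ μ Δ D.pos D.kae cl b' f1 x2 x3
  obtain ⟨ε, a, ev⟩ := xENV (ZE.ze0 hA) n M ι D.toDt
  exact ⟨m, k, τ, p, z, θ, μ, Δ, C', ε, a, m0, b', ex, fr, ev,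
    aADJ n M ι D m τ p ε a m0 (cl.lc _ f2) b'.ms ex ev⟩

/-- The same from many tensors that alternate in blocks. -/
theorem aTK4 (hA : HS.St_AUBIN) {n : ℕ} {M : Mf n} [M.Cpt] {ι : Type} [Fintype ι] (D : Pp M ι)
    (d : ℕ) (h : Mv4 D.L d) (hN : Ng D) : ∃ (X : KU.Tk M) (m : ℕ), 0 < m ∧ X.H = D.H ∧ X.Θ = D.T ∧
      X.Λ = D.L.pw m ∧ KU.Gro X.p X.T 1 1 d :=
  aTKq hA D d (xCR4 n M _ d h) hN

end Pool.Agent.Lib.KX
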