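import Pool.Agent.Lib.KX.Defs
import Pool.Agent.Lib.KU.Defs
import Pool.Agent.Lib.K3S.B_TW

/-! Project kx: from the multivectors of a pair to the frame. Blueprint. -/

open scoped Classical Topology ContDiff ComplexOrder Matrix ENNReal
open Set MeasureTheory Complex Metric Filter

set_option linter.unusedVariables false

noncomputable section

namespace Pool.Agent.Lib.KX

open Pool.Agent.Lib.SV (E nsq)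
open Pool.Agent.Lib.HS32 Pool.Agent.Lib.HLK
open Pool.Agent.Lib.RAA (kp)
open Pool.Agent.Lib.DM (uv Pr ll trm)
open Pool.Agent.Lib.KH (HoK SmK OnK Jo Pol tri)
open Pool.Agent.Lib.SIE (Rk Mr)
open Pool.Agent.Lib.KT (Bd Iv LB df)
open Pool.Agent.Lib.RB9 (Pz ev Al Loc)
open Pool.Agent.Lib.FI (Fb Jc dn)
open Pool.Agent.Lib.RBR (Tm Bq gp Oz Frm Adj)
open Pool.Agent.Lib.K3S.TW (sm2)

section defs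

variable {n k : ℕ} {M : Mf n}

/-- The generators of the field. -/
structure Gn (K : Set (M.X → ℝ)) (z : M.X → E k) (θ : M.X → ℂ) (m : Pz k)
    (D : MvPolynomial (Fin k) ℂ) : Prop where
  hz : ∀ i, Mer K fun x => z x i
  hθ : Mer K θ
  rk : ∃ x, Rk M (fun i x => z x i) x
  mon : m.Monic
  d0 : D ≠ 0
  bez : ∃ A B : Pz k, Polynomial.C D = A * m + B * Polynomial.derivative m
  rt : ∃ ρ ∈ K, ∀ x ∈ Op ρ, ev m (z x) (θ x) = 0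
  fn : ∀ f, Mer K f → ∃ (Q : MvPolynomial (Fin k) ℂ) (R : Pz k), Q ≠ 0 ∧ ∃ ρ ∈ K,
    ∀ x ∈ Op ρ, MvPolynomial.eval (z x) Q * f x = ev R (z x) (θ x)

/-- The denominator `p` is adapted to the generators. -/
structure Fr (K : Set (M.X → ℝ)) (p p₀ : M.X → ℝ) (z : M.X → E k) (θ : M.X → ℂ) (m : Pz k)
    (D : MvPolynomial (Fin k) ℂ) : Prop extends Gn K z θ m D where
  mem : p₀ ∈ K
  sq : ∃ ε > (0 : ℝ), ∀ x, p x = ε * (p₀ x * p₀ x)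
  bz : ∀ i, Bd (Op p₀) p₀ fun x => z x i
  bθ : Bd (Op p₀) p₀ θ
  iv : Iv (Op p₀) p₀ fun i x => z x i
  dz : ∀ x ∈ Op p₀, MvPolynomial.eval (z x) D ≠ 0

/-- The product of two tensors. -/
def ap {N N' : ℕ} (a : (Fin N → Fin n) → ℂ) (b : (Fin N' → Fin n) → ℂ) :
    (Fin (N + N') → Fin n) → ℂ :=
  fun K => a (fun p => K (Fin.castAdd N' p)) * b fun p => K (Fin.natAdd N p)

/-- The blocks of a product. -/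
def bp {N N' B B' : ℕ} (β : Fin N → Fin B) (β' : Fin N' → Fin B') : Fin (N + N') → Fin (B + B') :=
  Fin.append (fun p => Fin.castAdd B' (β p)) fun p => Fin.natAdd B (β' p)

/-- The function `g` on `O` is a quotient of two twisted tensors. -/
def Tw (Θ₁ Θ₂ : M.Fam (Mat n)) (O : Set M.X) (g : M.X → ℂ) : Prop := ∃ B : ℝ, 0 ≤ B ∧
  ∀ (G Q : M.Fam (Mat n)) (b₁ b₂ : M.X → ℝ), M.Kae G → M.Form Q → M.Le 0 Q → M.Le 0 (Q + M.ric G) →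
    M.Sm b₁ → M.Sm b₂ → M.Le (Θ₁ + M.hs b₁) Q → M.Le (Θ₂ + M.hs b₂) Q →
    ∃ (V W : M.X → ℝ) (C l : ℝ), 0 < C ∧ 0 ≤ l ∧ Pr M G l C V W ∧ (∀ x, V x ≠ 0 ↔ x ∈ O) ∧
      (∀ x ∈ O, W x = V x * normSq (g x)) ∧ ∀ x, V x ≠ 0 → -(B * M.tr G Q x) ≤ ll M G V x

/-- Poles along the exceptional part are removable. -/
def Ng {ι : Type} [Fintype ι] (D : Pp M ι) : Prop := ∀ (m : ℕ) (p : ι → ℕ),
  (∀ i, p i ≠ 0 → 0 < D.a i) → ∀ t : M.Fam ℂ, (M.All fun e z => HolN (t e) z) →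
  (M.Ov fun e e' x => t e' (e' x) =
    t e (e x) * (D.L.c e e' x ^ m * ∏ i, (D.Lk i).c e e' x ^ p i)) →
  ∃ s, M.HSecC (D.L.pw m) s ∧ M.All fun e z => t e z = s e z * ∏ i, D.f i e z ^ p i

/-- Global potentials with zero Lelong numbers. -/
structure Ev (H Θ : M.Fam (Mat n)) (ε : ℕ → ℝ) (a : ℕ → M.X → ℝ) : Prop where
  e0 : ∀ i, 0 < ε i
  lim : Tendsto ε atTop (𝓝 0)
  sm : ∀ i, M.Sm (a i)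
  np : ∀ i x, a i x ≤ 0
  mono : ∀ i x, a (i + 1) x ≤ a i x
  pos : ∀ i, M.Le 0 (Θ + ε i • H + M.hs (a i))
  mom : ∀ t : ℝ, 0 < t → ∃ c : ℝ, ∀ i,
    Jo M H univ (fun x => Real.exp (-(t * a i x))) ≤ ENNReal.ofReal c

end defs

/-! ### Denominators -/

/-- The kit for denominators. -/
def St_KIT : Prop := ∀ (n : ℕ) (M : Mf n) [M.Cpt] (H : M.Fam (Mat n)) (p : M.X → ℝ), M.Met H →
  Lc p → IsOpen (Op p) ∧ Dense (Op p) ∧ (∀ᵐ x ∂M.mu H, 0 < p x) ∧ (∃ C > (0 : ℝ), ∀ x, p x ≤ C) ∧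
  (∀ p', Lc p' → Lc fun x => p x * p' x) ∧ (∀ j : ℕ, Lc fun x => p x ^ j) ∧
  (∀ (O : Set M.X) (f g : M.X → ℂ), IsOpen O → HoK M O f → HoK M O g →
    (∀ y ∈ O ∩ Op p, f y = g y) → ∀ y ∈ O, f y = g y) ∧
  ∀ (σ : Type) [Fintype σ] (q : M.Fam (σ → ℂ)), Lq p q → SIE.Dn M q ∧ SIE.Oo M q = Op p ∧
    M.All fun e z => 0 < p (e.symm z) ↔ q e z ≠ 0

/-- Extension in a chart. -/
def St_EXC : Prop := ∀ (n : ℕ) (M : Mf n) [M.Cpt] (ρ : M.X → ℝ) (e : M.Ch) (h : E n → ℂ), Lc ρ →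
  e ∈ M.C → (∀ w ∈ e.target, 0 < ρ (e.symm w) → HolN h w) →
  ((∀ w₀ ∈ e.target, ∃ V ∈ 𝓝 w₀, ∫⁻ w in V ∩ {w | w ∈ e.target ∧ 0 < ρ (e.symm w)},
      ENNReal.ofReal (‖h w‖ ^ 2) ≠ ⊤) ∨
    ∀ w₀ ∈ e.target, ∃ C, ∀ᶠ w in 𝓝 w₀, 0 < ρ (e.symm w) → ‖h w‖ ^ 2 ≤ C) →
  ∃ g, (∀ w ∈ e.target, HolN g w) ∧ ∀ w ∈ e.target, 0 < ρ (e.symm w) → g w = h w

/-- From the manifold to a chart. -/
def St_CHL : Prop := ∀ (n : ℕ) (M : Mf n) [M.Cpt] (H : M.Fam (Mat n)) (O : Set M.X) (u : M.X → ℝ)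
  (e : M.Ch) (h : E n → ℝ), M.Met H → IsOpen O → e ∈ M.C → Jo M H O u ≠ ⊤ → ∀ w₀ ∈ e.target,
  (∃ C > (0 : ℝ), ∀ᶠ w in 𝓝 w₀, e.symm w ∈ O → h w ≤ C * u (e.symm w)) →
  ContinuousOn u O → ∃ V ∈ 𝓝 w₀,
    ∫⁻ w in V ∩ {w | w ∈ e.target ∧ e.symm w ∈ O}, ENNReal.ofReal (h w) ≠ ⊤

/-- Numerators. -/
def St_MR : Prop := ∀ (n : ℕ) (M : Mf n) [M.Cpt] (p : M.X → ℝ) (f : M.X → ℂ), Lc p →
  Bd (Op p) p f → Mr M f ∧ (∀ (σ : Type) [Fintype σ] (q : M.Fam (σ → ℂ)), Lq p q →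
    ∃ c, SIE.Mu M q f c) ∧ LB (Op p) fun e w => ‖df f e w‖ ^ 2 * p (e.symm w) ^ 2

/-- Bounded functions extend inside the open set. -/
def St_RIE : Prop := ∀ (n : ℕ) (M : Mf n) [M.Cpt] (O : Set M.X) (ρ w : M.X → ℝ) (f : M.X → ℂ),
  Lc ρ → IsOpen O → ContinuousOn w O → (∀ y ∈ O, 0 < w y) → Bd (O ∩ Op ρ) w f →
  ∃ g, Bd O w g ∧ ∀ y ∈ O ∩ Op ρ, g y = f y

/-- The norm of a meromorphic section. -/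
def St_LGT : Prop := ∀ (n : ℕ) (M : Mf n) (O : Set M.X) (Λ : M.Co) (ψ : M.Fam ℝ) (τ : M.Fam ℂ),
  IsOpen O → M.WtC Λ ψ → Ms O Λ τ → (∀ y ∈ O, 0 < M.nrC ψ τ y) ∧ ContinuousOn (M.nrC ψ τ) O ∧
  SmK M O (fun y => Real.log (M.nrC ψ τ y)) ∧
  (OnK M O fun e z => M.nrC ψ τ (e.symm z) = normSq (τ e z) * Real.exp (-ψ e z) ∧
    M.hs (fun y => Real.log (M.nrC ψ τ y)) e z = -M.hw ψ e z) ∧
  M.All fun e w₀ => ∃ C > (0 : ℝ), ∀ᶠ w in 𝓝 w₀, e.symm w ∈ O →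
    M.nrC ψ τ (e.symm w) ≤ C * normSq (τ e w) ∧ normSq (τ e w) ≤ C * M.nrC ψ τ (e.symm w)

/-- Square integrable functions are bounded. -/
def St_BDL : Prop := ∀ (n : ℕ) (M : Mf n) [M.Cpt] (H : M.Fam (Mat n)) (Λ : M.Co) (ψ : M.Fam ℝ)
  (τ : M.Fam ℂ) (p ρ : M.X → ℝ) (j s : ℕ) (F : M.X → ℂ), M.Met H → Lc p → Lc ρ → Op ρ ⊆ Op p →
  M.WtC Λ ψ → Ms (Op p) Λ τ → HoK M (Op ρ) F →
  Jo M H (Op ρ) (fun x => normSq (F x) * (M.nrC ψ τ x ^ j * p x ^ s)) ≠ ⊤ →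
  Bd (Op ρ) (fun x => M.nrC ψ τ x ^ j * p x ^ s) F

/-- The spaces have finite dimension. -/
def St_FD : Prop := ∀ (n : ℕ) (M : Mf n) [M.Cpt] (p : M.X → ℝ), Lc p →
  KJ.Fd {F | Bd (Op p) p F ∧ ∀ x, ¬0 < p x → F x = 0}

/-- The local data. -/
def St_LOC : Prop := ∀ (n : ℕ) (M : Mf n) [M.Cpt] (Λ : M.Co) (ψ : M.Fam ℝ) (τ : M.Fam ℂ)
  (p : M.X → ℝ) (θ : M.X → ℂ), Lc p → M.WtC Λ ψ → Ms (Op p) Λ τ → Bd (Op p) p θ →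
  (∃ C, ∀ y ∈ Op p, M.nrC ψ τ y * p y ≤ C) → ∀ x₀ : M.X, ∃ W₀ ∈ 𝓝 x₀, ∀ W B, IsOpen W → W ⊆ W₀ →
    IsCompact B → B ⊆ W → Nonempty (Loc p θ (M.nrC ψ τ) W B)

/-- Bounded multiples are sections. -/
def St_SEC : Prop := ∀ (n : ℕ) (M : Mf n) [M.Cpt] (Λ : M.Co) (ψ : M.Fam ℝ) (τ : M.Fam ℂ)
  (ρ : M.X → ℝ) (j : ℕ) (F : M.X → ℂ), Lc ρ → M.WtC Λ ψ → Ms (Op ρ) Λ τ →
  Bd (Op ρ) (fun x => M.nrC ψ τ x ^ j) F → ∃ t, M.HSecC (Λ.pw j) t ∧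
    OnK M (Op ρ) fun e z => t e z = F (e.symm z) * τ e z ^ j

/-! ### Classes -/

/-- The kit for classes. -/
def St_CK : Prop := ∀ (n : ℕ) (M : Mf n) [M.Cpt] (H : M.Fam (Mat n)) (K : Set (M.X → ℝ)), Cl H K →
  (∀ p ∈ K, Pol M H p ∧ ∀ j : ℕ, (fun x => p x ^ j) ∈ K) ∧
  (∀ c : ℂ, Mer K fun _ => c) ∧
  (∀ f g, Mer K f → Mer K g → Mer K (f + g) ∧ Mer K (f * g)) ∧
  (∀ (ι : Type) [Fintype ι] (f : ι → M.X → ℂ), (∀ i, Mer K (f i)) →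
    ∃ p ∈ K, ∀ i, Bd (Op p) p (f i)) ∧
  (∀ p ∈ K, ∀ f, Tm p f → Mer K f ∧ (∃ s, Pol M H (gp p f s)) ∧
    (RBR.Nz p f → ∃ ρ ∈ K, Op ρ = Op p ∩ {x | f x ≠ 0})) ∧
  ∀ f, Mer K f → (∀ p ∈ K, ∃ x ∈ Op p, f x ≠ 0) → Mer K f⁻¹ ∧ ∃ ρ ∈ K, ∀ x ∈ Op ρ, f x ≠ 0

/-- The field exists. -/
def St_FLD : Prop := ∀ (n : ℕ) (M : Mf n) [M.Cpt] (H : M.Fam (Mat n)) (K : Set (M.X → ℝ)), Cl H K →
  ∃ (A : Subalgebra ℂ (M.X → ℂ)) (F : Type) (_ : Field F) (_ : Algebra ℂ F) (ev : A →ₐ[ℂ] F),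
    Fm K A ev

/-- The generators exist. -/
def St_ALG : Prop := ∀ (n : ℕ) (M : Mf n) [M.Cpt] (H : M.Fam (Mat n)) (K : Set (M.X → ℝ)), Cl H K →
  ∃ (k : ℕ) (z : M.X → E k) (θ : M.X → ℂ) (m : Pz k) (D : MvPolynomial (Fin k) ℂ), Gn K z θ m D

/-- The refinement of a base. -/
def St_REF : Prop := ∀ (n : ℕ) (M : Mf n) [M.Cpt] (H : M.Fam (Mat n)) (K : Set (M.X → ℝ))
  (Λ : M.Co) (ψ : M.Fam ℝ) (τ : M.Fam ℂ) (p p' : M.X → ℝ) (c d : ℕ), Cl H K → Bz K Λ ψ τ p c d →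
  p' ∈ K → (∀ x, p' x ≤ 1) → (∃ C, ∀ x, p' x ≤ C * p x) → Bz K Λ ψ τ p' c d

/-- The adapted denominator. -/
def St_FRA : Prop := ∀ (n k : ℕ) (M : Mf n) [M.Cpt] (H : M.Fam (Mat n)) (K : Set (M.X → ℝ))
  (z : M.X → E k) (θ : M.X → ℂ) (m : Pz k) (D : MvPolynomial (Fin k) ℂ) (ρ : M.X → ℝ), Cl H K →
  Gn K z θ m D → ρ ∈ K → ∃ p p₀, Fr K p p₀ z θ m D ∧ p ∈ K ∧ (∀ x, p x ≤ 1) ∧
    ∃ C, ∀ x, p x ≤ C * ρ x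

/-- The fibration. -/
def St_FB : Prop := ∀ (n k : ℕ) (M : Mf n) [M.Cpt] (H : M.Fam (Mat n)) (K : Set (M.X → ℝ))
  (p p₀ : M.X → ℝ) (z : M.X → E k) (θ : M.X → ℂ) (m : Pz k) (D : MvPolynomial (Fin k) ℂ),
  M.Kae H → Cl H K → Fr K p p₀ z θ m D → 0 < k → ∃ C, Fb H p z C ∧
    ∀ d : ℝ, 0 < d → M.Le 0 (C • H + M.hs fun x => Real.log (p x + d))

/-- The lower bound for the density. -/
def St_DLO : Prop := ∀ (n k : ℕ) (M : Mf n) [M.Cpt] (H : M.Fam (Mat n)) (K : Set (M.X → ℝ))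
  (p p₀ : M.X → ℝ) (z : M.X → E k) (θ : M.X → ℂ) (m : Pz k) (D : MvPolynomial (Fin k) ℂ),
  Cl H K → Fr K p p₀ z θ m D →
  ∃ (a : ℕ) (c : ℝ), 0 < c ∧ ∀ x, 0 < p x → p x ^ a ≤ c * dn H z x

/-- The generators on the open set. -/
def St_FN : Prop := ∀ (n k : ℕ) (M : Mf n) [M.Cpt] (H : M.Fam (Mat n)) (K : Set (M.X → ℝ))
  (p p₀ : M.X → ℝ) (z : M.X → E k) (θ : M.X → ℂ) (m : Pz k) (D : MvPolynomial (Fin k) ℂ),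
  Cl H K → Fr K p p₀ z θ m D → p ∈ K → Op p = Op p₀ ∧ (∀ i, Tm p fun x => z x i) ∧
  Bd (Op p) p θ ∧ (∀ x, 0 < p x → ev m (z x) (θ x) = 0) ∧
  (∀ Q : MvPolynomial (Fin k) ℂ, Q ≠ 0 → RBR.Nz p fun x => MvPolynomial.eval (z x) Q) ∧
  (∀ F, Tm p F → ∃ (Q : MvPolynomial (Fin k) ℂ) (R : Pz k), Q ≠ 0 ∧
    ∀ x, 0 < p x → MvPolynomial.eval (z x) Q * F x = ev R (z x) (θ x)) ∧
  ∀ F, Tm p F → RBR.Nz p F → ∃ (Q : MvPolynomial (Fin k) ℂ) (R : Pz k), Q ≠ 0 ∧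
    ∀ x, 0 < p x → MvPolynomial.eval (z x) Q = F x * ev R (z x) (θ x)

/-- Integral elements have polynomial growth. -/
def St_PG : Prop := ∀ (k : ℕ) (m R : Pz k), m.Monic → ∃ (b : ℕ) (c : ℝ), ∀ (y : E k) (s : ℂ),
  ev m y s = 0 → normSq (ev R y s) ≤ c * (1 + nsq y) ^ b

/-- The algebraic data. -/
def St_AL : Prop := ∀ (n k : ℕ) (M : Mf n) [M.Cpt] (H : M.Fam (Mat n)) (K : Set (M.X → ℝ))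
  (Λ : M.Co) (ψ : M.Fam ℝ) (τ : M.Fam ℂ) (c d : ℕ) (p p₀ : M.X → ℝ) (z : M.X → E k) (θ : M.X → ℂ)
  (m : Pz k) (D : MvPolynomial (Fin k) ℂ), Cl H K → Bz K Λ ψ τ p c d → Fr K p p₀ z θ m D →
  Al p z θ (M.nrC ψ τ) m D

/-- The frame. -/
def St_FRM : Prop := ∀ (n k : ℕ) (M : Mf n) [M.Cpt] (H : M.Fam (Mat n)) (K : Set (M.X → ℝ))
  (Λ : M.Co) (ψ : M.Fam ℝ) (τ : M.Fam ℂ) (c d : ℕ) (p p₀ σ : M.X → ℝ) (z : M.X → E k)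
  (θ : M.X → ℂ) (m : Pz k) (D : MvPolynomial (Fin k) ℂ), 0 < n → M.Kae H → Cl H K →
  Bz K Λ ψ τ p c d → Fr K p p₀ z θ m D → Lc σ → Pol M H σ →
  ∃ C, Frm H p σ z θ (M.nrC ψ τ) m D C

/-! ### Twisted tensors -/

/-- Norms. -/
def St_ZKT : Prop := ∀ (n : ℕ) (M : Mf n) [M.Cpt] (G : M.Fam (Mat n)) (N B : ℕ) (Λ : M.Co)
  (ψ : M.Fam ℝ), M.Met G → M.WtC Λ ψ →
  (∀ O s, Lz O N B Λ s → OnK M O fun e z =>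
    nw G B ψ s (e.symm z) = uv N B (G e) (s e) z * Real.exp (-ψ e z)) ∧
  (M.All fun e w₀ => ∃ C > (0 : ℝ), ∀ᶠ w in 𝓝 w₀, ∀ s : E n → (Fin N → Fin n) → ℂ,
    uv N B (G e) s w * Real.exp (-ψ e w) ≤ C * ‖s w‖ ^ 2 ∧
      ‖s w‖ ^ 2 ≤ C * (uv N B (G e) s w * Real.exp (-ψ e w))) ∧
  (∀ O s, IsOpen O → Lz O N B Λ s → ContinuousOn (nw G B ψ s) O) ∧
  (∀ (s : M.Fam ((Fin N → Fin n) → ℂ)) x, 0 ≤ nw G B ψ s x) ∧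
  (∀ (s t : M.Fam ((Fin N → Fin n) → ℂ)) (a : ℂ) x, M.ev t x = a • M.ev s x →
    nw G B ψ t x = normSq a * nw G B ψ s x) ∧
  ∀ s, Lz univ N B Λ s → M.Sm (nw G B ψ s) ∧ Lq (nw G B ψ s) s ∧
    (M.All fun e z => 0 < nw G B ψ s (e.symm z) ↔ s e z ≠ 0) ∧
    ((∃ e ∈ M.C, ∃ z ∈ e.target, s e z ≠ 0) → Lc (nw G B ψ s))

/-- Products. -/
def St_ZMU : Prop := ∀ (n : ℕ) (M : Mf n) (N N' B B' : ℕ),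
  (∀ (O : Set M.X) (Λ Λ' : M.Co) s s', Lz O N B Λ s → Lz O N' B' Λ' s' →
    Lz O (N + N') (B + B') (sm2 Λ Λ') fun e z => ap (s e z) (s' e z)) ∧
  (∀ (β : Fin N → Fin B) (β' : Fin N' → Fin B') (a : (Fin N → Fin n) → ℂ)
    (b : (Fin N' → Fin n) → ℂ), Ab β a → Ab β' b → Ab (bp β β') (ap a b)) ∧
  (∀ (a : (Fin N → Fin n) → ℂ) (b : (Fin N' → Fin n) → ℂ), ap a b ≠ 0 ↔ a ≠ 0 ∧ b ≠ 0) ∧
  (∀ (G : M.Fam (Mat n)) (ψ ψ' : M.Fam ℝ) (s : M.Fam ((Fin N → Fin n) → ℂ))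
    (s' : M.Fam ((Fin N' → Fin n) → ℂ)), M.Met G → ∀ x,
    nw G (B + B') (ψ + ψ') (fun e z => ap (s e z) (s' e z)) x = nw G B ψ s x * nw G B' ψ' s' x) ∧
  ∀ (Θ₁ Θ₂ : M.Fam (Mat n)) (Λ Λ' : M.Co) (ψ ψ' : M.Fam ℝ), Cn Θ₁ Θ₂ 0 ∧ M.WtC (tri M) 0 ∧
    (M.WtC Λ ψ → M.WtC Λ' ψ' → Cn Θ₁ Θ₂ ψ → Cn Θ₁ Θ₂ ψ' → Cn Θ₁ Θ₂ (ψ + ψ')) ∧
    (M.WtC Λ ψ → ∀ a : ℕ, M.WtC (Λ.pw a) ((a : ℝ) • ψ) ∧
      M.All fun e z => M.hw ((a : ℝ) • ψ) e z = (a : ℝ) • M.hw ψ e z)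

/-- The class is a monoid of denominators. -/
def St_ZMO : Prop := ∀ (n : ℕ) (M : Mf n) [M.Cpt] (H Θ₁ Θ₂ : M.Fam (Mat n)), M.Met H →
  (fun _ => 1) ∈ Kz H Θ₁ Θ₂ ∧ (∀ p ∈ Kz H Θ₁ Θ₂, Lc p ∧
    (∀ p' ∈ Kz H Θ₁ Θ₂, (fun x => p x * p' x) ∈ Kz H Θ₁ Θ₂) ∧
    ∀ ε > (0 : ℝ), (fun x => ε * p x) ∈ Kz H Θ₁ Θ₂) ∧
  ∀ (Λ : M.Co) (ψ : M.Fam ℝ) (f : M.Fam ℂ), M.WtC Λ ψ → Cn Θ₁ Θ₂ ψ → M.HSecC Λ f →
    (∃ x, M.nrC ψ f x ≠ 0) → M.nrC ψ f ∈ Kz H Θ₁ Θ₂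

/-- Bounded tensors extend. -/
def St_ZEX : Prop := ∀ (n : ℕ) (M : Mf n) [M.Cpt] (ρ : M.X → ℝ) (N B : ℕ) (Λ : M.Co)
  (s : M.Fam ((Fin N → Fin n) → ℂ)), Lc ρ → Lz (Op ρ) N B Λ s →
  (LB (Op ρ) fun e w => ‖s e w‖ ^ 2) → ∃ t, Lz univ N B Λ t ∧
    (OnK M (Op ρ) fun e z => t e z = s e z) ∧ ∀ (r : ℕ) (β : Fin N → Fin r),
      (OnK M (Op ρ) fun e z => Ab β (s e z)) → M.All fun e z => Ab β (t e z)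

/-- The multiples of a tensor. -/
def St_ZNU : Prop := ∀ (n : ℕ) (M : Mf n) [M.Cpt] (H Θ₁ Θ₂ : M.Fam (Mat n)) (τ : Tz Θ₁ Θ₂)
  (f : M.X → ℂ), M.Met H → Bd (Op (τ.pn H)) (τ.pn H) f → ∃ t, Lz univ τ.N τ.B τ.Λ t ∧
    (M.All fun e z => Ab τ.β (t e z)) ∧
    OnK M (Op (τ.pn H)) fun e z => t e z = f (e.symm z) • τ.s e z

/-- Sums of norms have almost plurisubharmonic logarithms. -/
def St_ZPO : Prop := ∀ (n : ℕ) (M : Mf n) [M.Cpt] (H : M.Fam (Mat n)) (N B : ℕ) (Λ : M.Co)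
  (ψ : M.Fam ℝ), M.Met H → M.WtC Λ ψ → ∃ C : ℝ, ∀ (ι : Type) [Fintype ι]
    (s : ι → M.Fam ((Fin N → Fin n) → ℂ)), (∀ i, Lz univ N B Λ (s i)) →
    ∀ d > (0 : ℝ), M.Le 0 (C • H + M.hs fun y => Real.log (∑ i, nw H B ψ (s i) y + d))

/-- The minors of a matrix of covectors. -/
def St_MN2 : Prop := ∀ k m : ℕ, ∃ Δ : (Fin k → E (k + m) →L[ℂ] ℂ) → (Fin m → Fin (k + m)) → ℂ,
  (∀ L, Differentiable ℂ fun a => Δ a L) ∧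
  (∀ (a : Fin k → E (k + m) →L[ℂ] ℂ) (c : Fin k → ℂ), Δ (fun i => c i • a i) = (∏ i, c i) • Δ a) ∧
  (∀ (a a' : Fin k → E (k + m) →L[ℂ] ℂ) (J : Mat (k + m)), (∀ i v, a' i v = a i (J *ᵥ v)) →
    J.det • Δ a = kp m J *ᵥ Δ a') ∧
  (∀ a : Fin k → E (k + m) →L[ℂ] ℂ, Δ a ≠ 0 ↔ Function.Surjective (ContinuousLinearMap.pi a)) ∧
  (∃ C : ℝ, ∀ (a : Fin k → E (k + m) →L[ℂ] ℂ) (c : Fin k → ℂ),
    ‖c‖ * ‖Δ a‖ ≤ C * (1 + ‖a‖) ^ k * ‖∑ i, c i • a i‖) ∧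
  ∀ a, Ab (fun _ : Fin m => (0 : Fin 1)) (Δ a)

/-- The wedge of the differentials. -/
def St_ZWE : Prop := ∀ (n : ℕ) (M : Mf n) [M.Cpt] (H Θ₁ Θ₂ : M.Fam (Mat n)) (k : ℕ)
  (z : Fin k → M.X → ℂ) (p : M.X → ℝ), M.Met H → p ∈ Kz H Θ₁ Θ₂ → (∀ i, Bd (Op p) p (z i)) →
  (∃ x, Rk M z x) → ∃ ρ ∈ Kz H Θ₁ Θ₂, (∀ i, Bd (Op ρ) ρ (z i)) ∧ Iv (Op ρ) ρ z

/-- The class of the twisted tensors. -/
def St_ZCL : Prop := ∀ (n : ℕ) (M : Mf n) [M.Cpt] (H Θ₁ Θ₂ : M.Fam (Mat n)), M.Met H →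
  Cl H (Kz H Θ₁ Θ₂)

/-- The rule of Cramer. -/
def St_CRQ : Prop := ∀ (n : ℕ) (M : Mf n) [M.Cpt] (L : M.Co) (d : ℕ), Mv3 L d → Pq L d

/-- The quotient of two proportional tensors. -/
def St_QUZ : Prop := ∀ (n : ℕ) (M : Mf n) (N B : ℕ) (Λ Λ' : M.Co)
  (s t : M.Fam ((Fin N → Fin n) → ℂ)), Lz univ N B Λ s → Lz univ N B Λ' t →
  (M.All fun e z => ∀ I I', s e z I * t e z I' = s e z I' * t e z I) → ∃ χ : M.Fam ℂ,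
    (M.All fun e z => s e z ≠ 0 → HolN (χ e) z ∧ t e z = χ e z • s e z) ∧
    M.Ov fun e e' x => s e (e x) ≠ 0 → χ e' (e' x) * Λ.c e e' x = χ e (e x) * Λ'.c e e' x

/-- The first base. -/
def St_PSI : Prop := ∀ (n : ℕ) (M : Mf n) [M.Cpt] (H Θ₁ Θ₂ : M.Fam (Mat n)) (L : M.Co)
  (φ : M.Fam ℝ) (c : ℝ) (d : ℕ), M.Met H → M.WtC L φ → 0 ≤ c →
  (M.All fun e z => M.hw φ e z = c • Θ₁ e z) → Pq L d →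
  ∃ m, 0 < m ∧ ∃ τ p, Bz (Kz H Θ₁ Θ₂) (L.pw m) ((m : ℝ) • φ) τ p 1 d

/-! ### Pairs -/

/-- The trace of the curvature. -/
def St_TRC : Prop := ∀ (n N B : ℕ) (β : Fin N → Fin B) (T : E n → Mat n) (Q : Mat n)
  (s : E n → (Fin N → Fin n) → ℂ) (z : E n), (∀ᶠ w in 𝓝 z, SmM T w ∧ (T w).PosDef) →
  (∀ᶠ w in 𝓝 z, ClM T w) → HolN s z → Ab β (s z) → Q.PosSemidef →
  (Q - hess (ld T) z).PosSemidef → s z ≠ 0 →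
  -(B * trm (T z) Q) ≤ trm (T z) (RAA.hl (uv N B T s) z)

/-- Two proportional tensors. -/
def St_PAZ : Prop := ∀ (n : ℕ) (M : Mf n) [M.Cpt] (H Θ₁ Θ₂ : M.Fam (Mat n)) (p : M.X → ℝ)
  (g : M.X → ℂ), M.Met H → p ∈ Kz H Θ₁ Θ₂ → Bd (Op p) p g → Tw Θ₁ Θ₂ (Op p) g

/-- Domination. -/
def St_DMZ : Prop := ∀ (n : ℕ) (M : Mf n) [M.Cpt] (ι : Type) [Fintype ι] (D : Pp M ι)
  (O : Set M.X) (g : M.X → ℂ), Tw D.T D.P O g → DK.Dom M D.H D.T O fun x => 1 + normSq (g x)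

/-- The equations of the divisors. -/
def St_EXD : Prop := ∀ (n : ℕ) (M : Mf n) [M.Cpt] (ι : Type) [Fintype ι] (D : Pp M ι),
  D.ex ∈ D.K ∧ Lc D.s ∧ Pol M D.H D.s ∧ (∃ C, ∀ x, D.s x ≠ 0 → D.ex x ≤ C * D.w x) ∧
  (∀ x, D.s x ≠ 0 → D.ex x ≠ 0 → ∀ i, D.κ i ≠ 0 → 0 < D.σ i x) ∧
  ∃ (P : M.Co) (χ : M.Fam ℝ), M.WtC P χ ∧
    (∀ e e' x, P.c e e' x = ∏ i, (D.Lk i).c e e' x ^ (D.a i).toNat) ∧
    M.HSecC P (fun e z => ∏ i, D.f i e z ^ (D.a i).toNat) ∧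
    D.ex = M.nrC χ fun e z => ∏ i, D.f i e z ^ (D.a i).toNat

/-- The potentials. -/
def St_ENV : Prop := ∀ (n : ℕ) (M : Mf n) [M.Cpt] (ι : Type) [Fintype ι] (D : ZE.Dt M ι),
  ∃ ε a, Ev D.H D.T ε a

/-- The density. -/
def St_DNS : Prop := ∀ (n : ℕ) (M : Mf n) [M.Cpt] (ι : Type) [Fintype ι] (D : Pp M ι)
  (O : Set M.X), IsOpen O → (∀ x ∈ O, ∀ i, D.κ i ≠ 0 → 0 < D.σ i x) → (∀ x ∈ O, 0 < D.w x) ∧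
  ContinuousOn D.w O ∧ SmK M O (fun x => Real.log (D.w x)) ∧
  (OnK M O fun e z => M.hs (fun x => Real.log (D.w x)) e z = D.T e z + M.ric D.H e z) ∧
  ∃ t > (1 : ℝ), Jo M D.H O (fun x => D.w x ^ t) ≠ ⊤

/-- The adjoint structure. -/
def St_ADJ : Prop := ∀ (n : ℕ) (M : Mf n) [M.Cpt] (ι : Type) [Fintype ι] (D : Pp M ι) (m : ℕ)
  (τ : M.Fam ℂ) (p : M.X → ℝ) (ε : ℕ → ℝ) (a : ℕ → M.X → ℝ), 0 < m → Lc p →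
  Ms (Op p) (D.L.pw m) τ → (∃ C, ∀ x, p x ≤ C * D.ex x) → Ev D.H D.T ε a →
  Adj D.H p D.s (M.nrC ((m : ℝ) • D.φ) τ) (m * D.c) D.w ε a

/-- Solutions that are square integrable for the density are sections. -/
def St_ZAR : Prop := ∀ (n : ℕ) (M : Mf n) [M.Cpt] (ι : Type) [Fintype ι] (D : Pp M ι) (m j : ℕ)
  (τ : M.Fam ℂ) (ρ : M.X → ℝ) (F : M.X → ℂ), Ng D → Lc ρ → Ms (Op ρ) (D.L.pw m) τ →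
  (∀ x ∈ Op ρ, D.s x ≠ 0 ∧ D.ex x ≠ 0) → HoK M (Op ρ) F →
  Jo M D.H (Op ρ) (fun x => normSq (F x) * (M.nrC ((m : ℝ) • D.φ) τ x ^ j * D.w x)) ≠ ⊤ →
  Bd (Op ρ) (fun x => M.nrC ((m : ℝ) • D.φ) τ x ^ j) F

/-- Domination of tame functions. -/
def St_DOM : Prop := ∀ (n : ℕ) (M : Mf n) [M.Cpt] (ι : Type) [Fintype ι] (D : Pp M ι)
  (p : M.X → ℝ) (κ : Type) [Fintype κ] [Nonempty κ] (g : κ → M.X → ℂ), p ∈ D.K →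
  (∀ i, Tm p (g i)) → DK.Dom M D.H D.T (Op p) fun x => 1 + ∑ i, normSq (g i x)

/-- The instantiation. -/
def St_TOP : Prop := ∀ (n : ℕ) (M : Mf n) [M.Cpt] (ι : Type) [Fintype ι] (D : Pp M ι) (d : ℕ),
  Mv3 D.L d → ∃ (m k : ℕ) (τ : M.Fam ℂ) (p : M.X → ℝ) (z : M.X → E k) (θ : M.X → ℂ) (μ : Pz k)
    (Δ : MvPolynomial (Fin k) ℂ) (C : ℝ) (ε : ℕ → ℝ) (a : ℕ → M.X → ℝ), 0 < m ∧
    Bz D.K (D.L.pw m) ((m : ℝ) • D.φ) τ p 1 d ∧ (∃ C', ∀ x, p x ≤ C' * D.ex x) ∧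
    Frm D.H p D.s z θ (M.nrC ((m : ℝ) • D.φ) τ) μ Δ C ∧ Ev D.H D.T ε a ∧
    Adj D.H p D.s (M.nrC ((m : ℝ) • D.φ) τ) (m * D.c) D.w ε a

/-- The context of the trunk. -/
def St_TK : Prop := ∀ (n : ℕ) (M : Mf n) [M.Cpt] (ι : Type) [Fintype ι] (D : Pp M ι) (d : ℕ),
  Mv3 D.L d → Ng D → ∃ (X : KU.Tk M) (m : ℕ), 0 < m ∧ X.H = D.H ∧ X.Θ = D.T ∧ X.Λ = D.L.pw m ∧
    KU.Gro X.p X.T 1 1 d

theorem top (hCRQ : St_CRQ) (hPSI : St_PSI) (hZCL : St_ZCL) (hALG : St_ALG) (hFRA : St_FRA)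
    (hREF : St_REF) (hKIT : St_KIT) (hEXD : St_EXD) (hFRM : St_FRM) (hENV : St_ENV)
    (hADJ : St_ADJ) : St_TOP := by
  intro n M _ ι _ D d h
  have hm := D.kae.toMet
  have cl := hZCL n M D.H D.T D.P hm
  obtain ⟨m, m0, τ, p₁, b⟩ := hPSI n M D.H D.T D.P D.L D.φ D.c d hm D.wL (Nat.cast_nonneg _) D.cur
    (hCRQ n M _ d h)
  obtain ⟨k, z, θ, μ, Δ, g⟩ := hALG n M _ _ cl
  obtain ⟨x1, x2, x3, -⟩ := hEXD n M ι D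
  obtain ⟨p, p₀, f1, f2, f3, C, f4⟩ := hFRA n k M _ _ z θ μ Δ _ cl g (cl.mul _ b.mem _ x1)
  obtain ⟨-, -, -, ⟨A, A0, hA⟩, -⟩ := hKIT n M _ _ hm (cl.lc _ x1)
  have n1 := (cl.lc _ b.mem).nn
  have n2 := (cl.lc _ x1).nn
  have b' := hREF n M _ _ _ _ τ p₁ p 1 d cl b f2 f3 ⟨|C| * A, fun x => (f4 x).trans
    ((mul_le_mul (le_abs_self C) (mul_le_mul_of_nonneg_left (hA x) (n1 x))
      (mul_nonneg (n1 x) (n2 x)) (abs_nonneg C)).trans_eq (by ring))⟩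
  have ex : ∃ C', ∀ x, p x ≤ C' * D.ex x := ⟨|C|, fun x => (f4 x).trans
    (mul_le_mul (le_abs_self C) (mul_le_of_le_one_left (n2 x) (b.le1 x))
      (mul_nonneg (n1 x) (n2 x)) (abs_nonneg C))⟩
  obtain ⟨C', fr⟩ := hFRM n k M _ _ _ _ τ 1 d p p₀ _ z θ μ Δ D.pos D.kae cl b' f1 x2 x3
  obtain ⟨ε, a, ev⟩ := hENV n M ι D.toDt
  exact ⟨m, k, τ, p, z, θ, μ, Δ, C', ε, a, m0, b', ex, fr, ev,
    hADJ n M ι D m τ p ε a m0 (cl.lc _ f2) b'.ms ex ev⟩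

end Pool.Agent.Lib.KX
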