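import Pool.Agent.Lib.KX.Blue

/-! Block ADJ: the adjoint structure of a pair. -/

open scoped Classical Topology ContDiff ComplexOrder Matrix ENNReal
open Set MeasureTheory Complex Metric Filter

noncomputable section

namespace Pool.Agent.Lib.KX

open Pool.Agent.Lib.SV (E nsq)
open Pool.Agent.Lib.HS32
open Pool.Agent.Lib.KH (OnK)
open Pool.Agent.Lib.RBR (O0)

theorem xADJ (hZMU : St_ZMU) (hLGT : St_LGT) (hEXD : St_EXD) (hDNS : St_DNS) : St_ADJ := by
  intro n M _ ι _ D m τ p ε a m0 hp hτ ⟨C, hC⟩ ev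
  obtain ⟨-, ls, -, ⟨C', hC'⟩, hσ, -⟩ := hEXD n M ι D
  obtain ⟨w1, w2⟩ := ((hZMU n M 0 0 0 0).2.2.2.2 0 0 D.L D.L D.φ D.φ).2.2.2 D.wL m
  have op : IsOpen (Op p) := isOpen_lt continuous_const hp.sm.continuous
  have oo : IsOpen (O0 p D.s) := op.inter (isOpen_ne_fun ls.sm.continuous continuous_const)
  obtain ⟨-, -, t1, t2, -⟩ := hLGT n M _ _ _ τ op w1 hτ
  have ex : ∀ x, 0 < p x → D.ex x ≠ 0 := fun x hx h0 => by
    have := hC x
    rw [h0, mul_zero] at this
    linarith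
  obtain ⟨k0, -, k1, k2, k3⟩ := hDNS n M ι D _ oo fun x hx => hσ x hx.2 (ex x hx.1)
  have d0 : 0 < m * D.c := Nat.mul_pos m0 D.c0
  have key : OnK M (Op p) fun e w => ((1 : ℝ) / (m * D.c : ℕ)) •
      M.hs (fun x => Real.log (M.nrC ((m : ℝ) • D.φ) τ x)) e w = -D.T e w := fun e he w hw hx => by
    have h1 : ((1 : ℝ) / (m * D.c : ℕ)) * (m * D.c) = 1 := by
      rw [← Nat.cast_mul]
      exact one_div_mul_cancel (Nat.cast_ne_zero.2 d0.ne')
    beta_reduce
    rw [(t2 e he w hw hx).2, w2 e he w hw, D.cur e he w hw, smul_neg, smul_smul, smul_smul,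
      mul_assoc, h1, one_smul]
  refine ⟨d0, t1, k0, k1, fun e he w hw hx => ?_, ⟨1, |C| * C', fun x hx => ?_⟩, k3,
    fun i => (ev.e0 i).le, ev.lim, fun i e he w hw _ => ev.sm i e he w hw,
    fun i e he w hw hx => ?_, fun i x _ => ev.mono i x, ⟨0, fun x _ => ev.np 0 x⟩, fun t ht => ?_⟩
  · beta_reduce
    rw [key e he w hw hx.1, k2 e he w hw hx]
    abel
  · have e0 : 0 ≤ D.ex x := Finset.prod_nonneg fun i _ => pow_nonneg ((D.sg i).nn x) _
    rw [pow_one, mul_assoc]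
    exact (hC x).trans ((mul_le_mul_of_nonneg_right (le_abs_self C) e0).trans
      (mul_le_mul_of_nonneg_left (hC' x hx.2) (abs_nonneg C)))
  · have h1 : (D.T e w + ε i • D.H e w + M.hs (a i) e w - 0).PosSemidef := ev.pos i e he w hw
    beta_reduce
    rw [key e he w hw hx]
    refine (congrArg Matrix.PosSemidef ?_).mp h1
    abel
  · obtain ⟨c, hc⟩ := ev.mom t ht
    exact ⟨c, fun i => (lintegral_mono_set (subset_univ _)).trans (hc i)⟩

end Pool.Agent.Lib.KX
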