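import Pool.Agent.Lib.KX.Blue
import Pool.Agent.Lib.KX.W7

/-! Project kx: extension in a chart. -/

open scoped Topology
open Set MeasureTheory Metric Filter

noncomputable section

namespace Pool.Agent.Lib.KX

theorem xEXC : St_EXC := by
  intro n M _ ρ e h hρ he hh hb
  obtain ⟨σ, _, q, k⟩ := hρ.loc
  have hS : IsOpen (e.target ∩ e.symm ⁻¹' Op ρ) := e.isOpen_inter_preimage_symm (W7.opn hρ)
  obtain ⟨g, g1, g2⟩ := KT.tEXL n e.target _ h e.open_target hS inter_subset_left
    (fun w hw => (hh w hw.1 hw.2).self_of_nhds.differentiableWithinAt) fun w₀ hw₀ => by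
    obtain ⟨i, hi⟩ : ∃ i, ∃ᶠ w in 𝓝 w₀, q e w i ≠ 0 := by
      by_contra l
      simp only [not_exists, not_frequently, not_not] at l
      refine SIE.fr_dense (W7.dense hρ) hw₀ ?_
      filter_upwards [eventually_all.2 l, e.open_target.mem_nhds hw₀] with w h1 h2 h3
      exact (W7.mem k e he w h2).1 h3 (funext h1)
    refine ⟨fun w => q e w i, SIE.holN_i (k.hol e he w₀ hw₀) i, hi,
      (e.open_target.eventually_mem hw₀).mono fun w hw l =>
        ⟨hw, (W7.mem k e he w hw).2 fun l' => l (congrFun l' i)⟩, ?_⟩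
    rcases hb with hb | hb
    · exact hb w₀ hw₀
    obtain ⟨C, hC⟩ := hb w₀ hw₀
    obtain ⟨V, hV, Vo, Vm⟩ := _root_.eventually_nhds_iff.1 (hC.and (ball_mem_nhds w₀ one_pos))
    refine ⟨V, Vo.mem_nhds Vm, ne_top_of_le_ne_top (ENNReal.mul_ne_top
      (ENNReal.ofReal_ne_top (r := C)) (measure_ball_lt_top (μ := volume) (x := w₀)
        (r := 1)).ne) ?_⟩
    refine le_trans (setLIntegral_mono' (g := fun _ => ENNReal.ofReal C)
      (Vo.inter hS).measurableSet fun w hw => ENNReal.ofReal_le_ofReal ((hV w hw.1).1 hw.2.2)) ?_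
    rw [setLIntegral_const]
    exact mul_le_mul_right (measure_mono fun w hw => (hV w hw.1).2) _
  exact ⟨g, fun w hw => (e.open_target.eventually_mem hw).mono fun y hy =>
    g1.differentiableAt (e.open_target.mem_nhds hy), fun w hw l => g2 ⟨hw, l⟩⟩

end Pool.Agent.Lib.KX
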