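import Pool.Agent.Lib.KX.Blue
import Pool.Agent.Lib.RB9.B_LGR

/-! Row PG: integral elements have polynomial growth. -/

namespace Pool.Agent.Lib.KX

open Pool.Agent.Lib.RB9.LGR

theorem xPG : St_PG := fun _ _ R hm =>
  have h := gr_ev (gr_root hm) R
  let ⟨b, c, _, hc⟩ := h.mul h fun _ _ => norm_nonneg _
  ⟨b, c, fun y s h0 => ((Complex.normSq_eq_norm_sq _).trans (sq _)).trans_le (hc y s h0)⟩

end Pool.Agent.Lib.KX
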