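import Pool.Agent.Lib.KX.Blue

/-! Project kx: the multiples of a twisted tensor. -/

open scoped Classical Topology ComplexOrder Matrix ENNReal
open Set MeasureTheory Complex Filter

noncomputable section

namespace Pool.Agent.Lib.KX

open Pool.Agent.Lib.HS32

theorem xZNU (hZKT : St_ZKT) (hZEX : St_ZEX) : St_ZNU := by
  intro n M _ H Θ₁ Θ₂ τ f hH ⟨hf, C, hC⟩
  obtain ⟨k1, k2, -, -, -, k6⟩ := hZKT n M H τ.N τ.B τ.Λ τ.ψ hH τ.wt
  have l : Lz (Op (τ.pn H)) τ.N τ.B τ.Λ fun e z => f (e.symm z) • τ.s e z :=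
    ⟨fun e he z hz ho => ((hf e he z hz ho).and (τ.lz.hol e he z hz trivial)).mono
        fun _ h => h.1.smul h.2,
      fun e he e' he' x hx hx' _ => by
        rw [e.left_inv hx, e'.left_inv hx', smul_comm, τ.lz.law e he e' he' x hx hx' trivial,
          Matrix.mulVec_smul]⟩
  obtain ⟨t, h1, h2, h3⟩ := hZEX n M (τ.pn H) _ _ _ _ ((k6 _ τ.lz).2.2.2 τ.nz) l (by
    intro e he w₀ hw
    obtain ⟨A, hA, hv⟩ := k2 e he w₀ hw
    refine ⟨A * C, ?_⟩
    filter_upwards [hv, e.open_target.mem_nhds hw] with w h hw' ho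
    have h4 := (h (τ.s e)).2
    rw [← k1 univ τ.s τ.lz e he w hw' trivial] at h4
    have h5 := hC _ ho
    rw [norm_smul, mul_pow, ← normSq_eq_norm_sq]
    calc normSq (f (e.symm w)) * ‖τ.s e w‖ ^ 2
        ≤ normSq (f (e.symm w)) * (A * τ.pn H (e.symm w)) :=
          mul_le_mul_of_nonneg_left h4 (normSq_nonneg _)
      _ = A * (normSq (f (e.symm w)) * τ.pn H (e.symm w)) := by ring
      _ ≤ A * C := mul_le_mul_of_nonneg_left h5 hA.le)
  refine ⟨t, h1, h3 _ τ.β fun e he z hz _ I p p' hp hb => ?_, h2⟩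
  simp only [Pi.smul_apply, τ.alt e he z hz I p p' hp hb, smul_neg]

end Pool.Agent.Lib.KX
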